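import Pool.Agent.H884R3.PosS

set_option autoImplicit false

open Set Metric Filter Topology

namespace Pool.Agent.H884R3

lemma op_of (φ : OpenPartialHomeomorph S2 ℂ) (F : S2 → S2) (c : ℂ)
    (hφ : ∀ y ∈ φ.source, φ y = stF (F y) - c)
    (hF : ∀ y ∈ φ.source, y.1 2 ≠ 1 → PosS F y) : OrientationPreserving φ := by
  intro w hw
  have h1 := hF _ hw (stereoInv_2_ne w)
  have h2 := h1.2.2
  rw [stF_stereoInv] at h2
  refine (h2.posAt.sub_const c).congr ?_
  have hev : ∀ᶠ v in 𝓝 w, stereoInv v ∈ φ.source :=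
    continuous_stereoInv.continuousAt.eventually (φ.open_source.mem_nhds hw)
  filter_upwards [hev] with v hv
  exact hφ _ hv

lemma op_of_RR (φ : OpenPartialHomeomorph S2 ℂ) (F : S2 → S2)
    (hφ : ∀ y ∈ φ.source, φ y = RR (stF (F y)))
    (hF : ∀ y ∈ φ.source, y.1 2 ≠ 1 → PosS F y) : OrientationPreserving φ := by
  intro w hw
  have h1 := hF _ hw (stereoInv_2_ne w)
  have h2 := h1.2.2
  rw [stF_stereoInv] at h2
  have hev : ∀ᶠ v in 𝓝 w, stereoInv v ∈ φ.source :=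
    continuous_stereoInv.continuousAt.eventually (φ.open_source.mem_nhds hw)
  have hcongr : (fun v => φ (stereoInv v)) =ᶠ[𝓝 w] fun v => RR (stF (F (stereoInv v))) := by
    filter_upwards [hev] with v hv
    exact hφ _ hv
  by_cases h0 : stF (F (stereoInv w)) = 0
  · exact (PosAt.RR_comp (G := fun v => stF (F (stereoInv v))) h2.posAt h0).congr hcongr
  · have h3 : PosDiff (fun v => RR (stF (F (stereoInv v)))) w :=
      PosDiff.comp (g := RR) (h := fun v => stF (F (stereoInv v))) (posDiff_RR h0) h2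
    exact h3.posAt.congr hcongr

lemma exists_local_QQ {x : S2} (h : cx x ≠ 0) : ∃ e : OpenPartialHomeomorph S2 S2,
    x ∈ e.source ∧ (∀ y ∈ e.source, cx y ≠ 0) ∧ ∀ y ∈ e.source, e y = QQ y := by
  have hx := cx_ne_zero_fin h
  obtain ⟨e0, h1, h2, h3⟩ := exists_local_DD (stF_ne_zero hx h)
  refine ⟨(st.trans e0).trans st.symm, ?_, ?_, ?_⟩
  · simp [hx, h1]
  · intro y hy
    simp at hy
    apply cx_ne_zero_of
    intro h0
    rw [h0] at hy
    exact h2 hy.2
  · intro y hy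
    simp at hy
    show stereoInv (e0 (stF y)) = QQ y
    rw [h3, ← QQ_stereoInv, stereoInv_stF hy.1]

/-- the two rotations (identity and `tau`) used to move poles to the south pole -/
structure Good (B : S2 ≃ₜ S2) : Prop where
  invol : ∀ y, B (B y) = y
  comm : ∀ y, QQ (B y) = B (QQ y)
  r0 : RotPos B
  r1 : RotPos (fun x => B (rot1 x))
  r2 : RotPos (fun x => B (rot2 x))
  r2s : RotPos (fun x => B (rot2.symm x))
  r1' : RotPos (fun x => rot1 (B x))

lemma good_refl : Good (Homeomorph.refl S2) :=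
  ⟨fun _ => rfl, fun _ => rfl, rotPos_id, rotPos_rot1, rotPos_rot2, rotPos_rot2s, rotPos_rot1⟩

lemma good_tau : Good tau :=
  ⟨fun y => by apply ext3 <;> simp, tau_QQ, rotPos_tau, rotPos_tau_rot1, rotPos_tau_rot2,
    rotPos_tau_rot2s, rotPos_rot1_tau⟩

/-- the chart `st ∘ B` -/
noncomputable def chB (B : S2 ≃ₜ S2) : OpenPartialHomeomorph S2 ℂ :=
  B.toOpenPartialHomeomorph.trans st

lemma mem_chB {B : S2 ≃ₜ S2} {y : S2} : y ∈ (chB B).source ↔ (B y).1 2 ≠ 1 := by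
  simp [chB]

lemma chB_apply (B : S2 ≃ₜ S2) (y : S2) : chB B y = stF (B y) := rfl

lemma local_one {B : S2 ≃ₜ S2} (hB : Good B) {x : S2} (h1 : cx x ≠ 0)
    (h2 : cx (rot1 (QQ x)) ≠ 0) (h3 : (B (ff x)).1 2 ≠ 1) : HasLocalDegree ff x 1 := by
  obtain ⟨e1, a1, a2, a3⟩ := exists_local_QQ h1
  obtain ⟨e2, b1, b2, b3⟩ := exists_local_QQ h2
  set c := stF (B (ff x)) with hc
  let tr : OpenPartialHomeomorph ℂ ℂ := (Homeomorph.addRight (-c)).toOpenPartialHomeomorph
  let eF : OpenPartialHomeomorph S2 S2 :=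
    ((e1.trans rot1.toOpenPartialHomeomorph).trans e2).trans rot2.toOpenPartialHomeomorph
  have heFs : ∀ y, y ∈ eF.source ↔ y ∈ e1.source ∧ rot1 (e1 y) ∈ e2.source := by
    intro y; simp [eF]
  have heF : ∀ y ∈ eF.source, eF y = ff y := by
    intro y hy
    rw [heFs] at hy
    show rot2 (e2 (rot1 (e1 y))) = ff y
    rw [b3 _ hy.2, a3 _ hy.1]; rfl
  have hxs : x ∈ eF.source := by
    rw [heFs, a3 _ a1]; exact ⟨a1, b1⟩
  let φ : OpenPartialHomeomorph S2 ℂ := (eF.trans (chB B)).trans tr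
  let ψ : OpenPartialHomeomorph S2 ℂ := (chB B).trans tr
  have hφs : ∀ y, y ∈ φ.source ↔ y ∈ eF.source ∧ (B (eF y)).1 2 ≠ 1 := by
    intro y; simp [φ, tr, mem_chB]
  have hψs : ∀ y, y ∈ ψ.source ↔ (B y).1 2 ≠ 1 := by
    intro y; simp [ψ, tr, mem_chB]
  have hφ : ∀ y ∈ φ.source, φ y = stF (B (ff y)) - c := by
    intro y hy
    rw [hφs] at hy
    show stF (B (eF y)) + (-c) = _
    rw [heF _ hy.1]; ring
  have hψ : ∀ y, ψ y = stF (B y) - c := by
    intro y
    show stF (B y) + (-c) = _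
    ring
  refine ⟨le_refl 1, φ, ψ, ?_, ?_, ?_, ?_, ?_, ?_, ?_⟩
  · refine op_of φ (fun y => B (ff y)) c hφ ?_
    intro y hy hy1
    rw [hφs] at hy
    obtain ⟨hy2, hy3⟩ := hy
    rw [heF _ hy2] at hy3
    rw [heFs] at hy2
    obtain ⟨hy4, hy5⟩ := hy2
    rw [a3 _ hy4] at hy5
    have c1 := a2 _ hy4
    have c2 := b2 _ hy5
    have p1 : PosS QQ y := posS_QQ c1
    have p2 : PosS (fun y => rot1 (QQ y)) y :=
      PosS.comp continuous_QQ p1 (rotPos_rot1 _ (by rw [QQ_2]; exact hy1) (cx_ne_zero_fin c2))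
    have p3 : PosS (fun y => QQ (rot1 (QQ y))) y :=
      PosS.comp (rot1.continuous.comp continuous_QQ) p2 (posS_QQ c2)
    have p4 : PosS (fun y => B (rot2 (QQ (rot1 (QQ y))))) y :=
      PosS.comp (F := fun y => QQ (rot1 (QQ y))) (G := fun x => B (rot2 x))
        (continuous_QQ.comp (rot1.continuous.comp continuous_QQ)) p3
        (hB.r2 _ (by rw [QQ_2]; exact cx_ne_zero_fin c2) hy3)
    exact p4
  · refine op_of ψ (fun y => B y) c (fun y _ => hψ y) ?_
    intro y hy hy1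
    rw [hψs] at hy
    exact hB.r0 _ hy1 hy
  · rw [hφs, heF _ hxs]; exact ⟨hxs, h3⟩
  · rw [hφ]
    · simp [hc]
    · rw [hφs, heF _ hxs]; exact ⟨hxs, h3⟩
  · rw [hψs]; exact h3
  · rw [hψ]; simp [hc]
  · intro y hy
    have hy' := hφ y hy
    rw [hφs] at hy
    rw [heF _ hy.1] at hy
    refine ⟨(hψs _).mpr hy.2, ?_⟩
    rw [hψ, hy', pow_one]

lemma stF_QQ {y : S2} (hy : y.1 2 ≠ 1) : stF (QQ y) = DD (stF y) := by
  have h := QQ_stereoInv (stF y)
  rw [stereoInv_stF hy] at h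
  rw [h, stF_stereoInv]

lemma stF_south {y : S2} (hy : y.1 2 = -1) : stF y = 0 := by
  have h : cx y = 0 := by
    have h2 := norm_cx_sq y
    rw [hy] at h2
    have h3 : ‖cx y‖ ^ 2 = 0 := by rw [h2]; norm_num
    exact norm_eq_zero.mp (by nlinarith [norm_nonneg (cx y)])
  unfold stF; rw [h, zero_div]

/-- critical points on the equatorial axes -/
lemma local_two_eq {B : S2 ≃ₜ S2} (hB : Good B) {x : S2} (h1 : cx x ≠ 0)
    (h2 : (B (rot1 (QQ x))).1 2 = -1) : HasLocalDegree ff x 2 := by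
  obtain ⟨e1, a1, a2, a3⟩ := exists_local_QQ h1
  let φ : OpenPartialHomeomorph S2 ℂ :=
    ((e1.trans rot1.toOpenPartialHomeomorph).trans (chB B)).trans homRR.toOpenPartialHomeomorph
  let ψ : OpenPartialHomeomorph S2 ℂ := rot2.symm.toOpenPartialHomeomorph.trans (chB B)
  have hφs : ∀ y, y ∈ φ.source ↔ y ∈ e1.source ∧ (B (rot1 (e1 y))).1 2 ≠ 1 := by
    intro y; simp [φ, mem_chB]
  have hψs : ∀ y, y ∈ ψ.source ↔ (B (rot2.symm y)).1 2 ≠ 1 := by
    intro y; simp [ψ, mem_chB]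
  have hφ : ∀ y ∈ φ.source, φ y = RR (stF (B (rot1 (QQ y)))) := by
    intro y hy
    rw [hφs] at hy
    show RR (stF (B (rot1 (e1 y)))) = _
    rw [a3 _ hy.1]
  have hψ : ∀ y, ψ y = stF (B (rot2.symm y)) := fun y => rfl
  have hxs : x ∈ φ.source := by
    rw [hφs, a3 _ a1, h2]; exact ⟨a1, by norm_num⟩
  have hrel : ∀ y ∈ φ.source, ff y ∈ ψ.source ∧ ψ (ff y) = φ y ^ 2 := by
    intro y hy
    have hy' := hφ y hy
    rw [hφs] at hy
    rw [a3 _ hy.1] at hy
    have e : B (rot2.symm (ff y)) = QQ (B (rot1 (QQ y))) := by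
      rw [hB.comm]; unfold ff; rw [Homeomorph.symm_apply_apply]
    rw [hψs, hψ, e, QQ_2, hy', stF_QQ hy.2, DD_eq_sq]
    exact ⟨hy.2, rfl⟩
  refine ⟨one_le_two, φ, ψ, ?_, ?_, hxs, ?_, (hrel x hxs).1, ?_, hrel⟩
  · refine op_of_RR φ (fun y => B (rot1 (QQ y))) hφ ?_
    intro y hy hy1
    rw [hφs] at hy
    rw [a3 _ hy.1] at hy
    have c1 := a2 _ hy.1
    exact PosS.comp (F := QQ) (G := fun x => B (rot1 x)) continuous_QQ (posS_QQ c1) (hB.r1 _ (by rw [QQ_2]; exact hy1) hy.2)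
  · refine op_of ψ (fun y => B (rot2.symm y)) 0 (fun y _ => by rw [hψ, sub_zero]) ?_
    intro y hy hy1
    rw [hψs] at hy
    exact hB.r2s _ hy1 hy
  · rw [hφ x hxs, stF_south h2, RR_zero]
  · rw [(hrel x hxs).2, hφ x hxs, stF_south h2, RR_zero]; norm_num

/-- critical points at the poles -/
lemma local_two_pole {B : S2 ≃ₜ S2} (hB : Good B) {x : S2} (h1 : (B x).1 2 = -1)
    (h1' : QQ x = x) (h2 : cx (rot1 x) ≠ 0) : HasLocalDegree ff x 2 := by
  obtain ⟨e2, b1, b2, b3⟩ := exists_local_QQ h2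
  let e' : OpenPartialHomeomorph S2 S2 :=
    ((B.toOpenPartialHomeomorph.trans rot1.toOpenPartialHomeomorph).trans e2).trans
      rot2.toOpenPartialHomeomorph
  have hes : ∀ y, y ∈ e'.source ↔ rot1 (B y) ∈ e2.source := by
    intro y; simp [e']
  have he : ∀ y ∈ e'.source, e' y = rot2 (QQ (rot1 (B y))) := by
    intro y hy
    rw [hes] at hy
    show rot2 (e2 (rot1 (B y))) = _
    rw [b3 _ hy]
  let ψ : OpenPartialHomeomorph S2 ℂ := e'.symm.trans st
  let φ : OpenPartialHomeomorph S2 ℂ :=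
    ((chB B).trans homRR.toOpenPartialHomeomorph).restrOpen (QQ ⁻¹' (rot1 ⁻¹' e2.source))
      (e2.open_source.preimage (rot1.continuous) |>.preimage continuous_QQ)
  have hφs : ∀ y, y ∈ φ.source ↔ (B y).1 2 ≠ 1 ∧ rot1 (QQ y) ∈ e2.source := by
    intro y; simp [φ, mem_chB]
  have hφ : ∀ y, φ y = RR (stF (B y)) := fun y => rfl
  have hψs : ∀ y, y ∈ ψ.source ↔ y ∈ e'.target ∧ (e'.symm y).1 2 ≠ 1 := by
    intro y; simp [ψ]
  have hψ : ∀ y, ψ y = stF (e'.symm y) := fun y => rfl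
  have hrel : ∀ y ∈ φ.source, ff y ∈ ψ.source ∧ ψ (ff y) = φ y ^ 2 := by
    intro y hy
    rw [hφs] at hy
    have m1 : B (QQ y) ∈ e'.source := by rw [hes, hB.invol]; exact hy.2
    have m2 : ff y = e' (B (QQ y)) := by rw [he _ m1, hB.invol]; rfl
    have m3 : e'.symm (ff y) = QQ (B y) := by
      rw [m2, e'.left_inv m1, hB.comm]
    rw [hψs, hψ, m3, QQ_2, hφ, stF_QQ hy.1, DD_eq_sq]
    refine ⟨⟨?_, hy.1⟩, rfl⟩
    rw [m2]; exact e'.map_source m1
  have hxs : x ∈ φ.source := by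
    rw [hφs, h1, h1']; exact ⟨by norm_num, b1⟩
  refine ⟨one_le_two, φ, ψ, ?_, ?_, hxs, ?_, (hrel x hxs).1, ?_, hrel⟩
  · refine op_of_RR φ (fun y => B y) (fun y _ => hφ y) ?_
    intro y hy hy1
    rw [hφs] at hy
    exact hB.r0 _ hy1 hy.1
  · intro w hw
    rw [hψs] at hw
    obtain ⟨hw1, hw2⟩ := hw
    let G : OpenPartialHomeomorph ℂ ℂ := (st.symm.trans e').trans st
    have hGs : ∀ u, u ∈ G.source ↔ stereoInv u ∈ e'.source ∧ (e' (stereoInv u)).1 2 ≠ 1 := by
      intro u; simp [G]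
    have hGt : w ∈ G.target := by
      have : w ∈ G.symm.source := by
        simp [G]
        exact ⟨hw1, hw2⟩
      simpa using this
    set y' := e'.symm (stereoInv w) with hy'
    have hys : y' ∈ e'.source := e'.map_target hw1
    have hey : e' y' = stereoInv w := e'.right_inv hw1
    have hGsymm : G.symm w = stF y' := rfl
    have c2 : cx (rot1 (B y')) ≠ 0 := b2 _ ((hes _).mp hys)
    have q1 : PosS (fun y => rot1 (B y)) y' := hB.r1' _ hw2 (cx_ne_zero_fin c2)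
    have q2 : PosS (fun y => QQ (rot1 (B y))) y' :=
      PosS.comp (rot1.continuous.comp B.continuous) q1 (posS_QQ c2)
    have q3 : PosS (fun y => rot2 (QQ (rot1 (B y)))) y' := by
      refine PosS.comp (continuous_QQ.comp (rot1.continuous.comp B.continuous)) q2
        (rotPos_rot2 _ (by rw [QQ_2]; exact cx_ne_zero_fin c2) ?_)
      rw [← he _ hys, hey]; exact stereoInv_2_ne w
    have q4 : PosDiff G (G.symm w) := by
      rw [hGsymm]
      refine q3.2.2.congr ?_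
      have hev : ∀ᶠ v in 𝓝 (stF y'), stereoInv v ∈ e'.source := by
        refine continuous_stereoInv.continuousAt.eventually (e'.open_source.mem_nhds ?_)
        rw [stereoInv_stF hw2]; exact hys
      filter_upwards [hev] with v hv
      show stF (e' (stereoInv v)) = _
      rw [he _ hv]
    have q5 := PosDiff.symm G hGt q4
    exact q5.posAt
  · rw [hφ, stF_south h1, RR_zero]
  · rw [(hrel x hxs).2, hφ, stF_south h1, RR_zero]; norm_num

end Pool.Agent.H884R3
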