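import Mathlib

set_option autoImplicit false

/-!
Thurston maps on the standard two-sphere: definitions.
-/

open Set Metric Filter Topology

namespace Pool.Agent.H884R3

/-- Euclidean three-space -/
abbrev E3 : Type := EuclideanSpace ℝ (Fin 3)

/-- the unit sphere in Euclidean three-space, with its standard topology, metric and smooth
structure (the Riemann sphere) -/
abbrev S2 : Type := Metric.sphere (0 : E3) 1

/-- the inverse of stereographic projection from the north pole `(0,0,1)`:
`w ↦ (2 Re w, 2 Im w, |w|² - 1) / (|w|² + 1)`, as a point of three-space -/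
noncomputable def stereoVec (w : ℂ) : E3 :=
  !₂[2 * w.re / (‖w‖ ^ 2 + 1), 2 * w.im / (‖w‖ ^ 2 + 1), (‖w‖ ^ 2 - 1) / (‖w‖ ^ 2 + 1)]

lemma stereoVec_mem (w : ℂ) : stereoVec w ∈ Metric.sphere (0 : E3) 1 := by
  rw [mem_sphere_zero_iff_norm, EuclideanSpace.norm_eq, Real.sqrt_eq_one]
  have h1 : ‖w‖ ^ 2 = w.re ^ 2 + w.im ^ 2 := by
    rw [← Complex.normSq_eq_norm_sq, Complex.normSq_apply]; ring
  simp only [stereoVec, Fin.sum_univ_three, Real.norm_eq_abs, sq_abs]
  simp
  rw [h1]
  have h2 : w.re ^ 2 + w.im ^ 2 + 1 ≠ 0 := by positivity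
  field_simp
  ring

/-- the inverse of stereographic projection from the north pole, as a point of the sphere -/
noncomputable def stereoInv (w : ℂ) : S2 := ⟨stereoVec w, stereoVec_mem w⟩

/-- the standard loop `z ↦ z` of the unit circle in the punctured plane -/
noncomputable def unitLoop : C(Circle, {z : ℂ // z ≠ 0}) :=
  ⟨fun z => ⟨(z : ℂ), Circle.coe_ne_zero z⟩, by fun_prop⟩

/-- The plane map `g` has local degree `+1` at `w`: for all small `r > 0` the loop
`z ↦ g (w + r z) - g w`, `|z| = 1`, avoids `0` and is homotopic in the punctured plane to the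
standard loop `z ↦ z`. -/
def PosAt (g : ℂ → ℂ) (w : ℂ) : Prop :=
  ∃ r₀ : ℝ, 0 < r₀ ∧ ∀ r : ℝ, 0 < r → r < r₀ →
    ∃ γ : C(Circle, {z : ℂ // z ≠ 0}),
      (∀ z : Circle, ((γ z : {z : ℂ // z ≠ 0}) : ℂ) = g (w + (r : ℂ) * (z : ℂ)) - g w) ∧
      γ.Homotopic unitLoop

/-- A homeomorphism `φ` from an open subset of the sphere onto an open subset of the plane is
orientation-preserving: read in the stereographic coordinate `w` it has local degree `+1` at every
point. (The stereographic coordinate covers the whole sphere except the north pole; the local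
degree of a homeomorphism is locally constant, so nothing is lost at that point.) -/
def OrientationPreserving (φ : OpenPartialHomeomorph S2 ℂ) : Prop :=
  ∀ w : ℂ, stereoInv w ∈ φ.source → PosAt (fun v => φ (stereoInv v)) w

/-- `f` has local degree `d` at `p`: there are orientation-preserving homeomorphisms `φ`, `ψ` from
open neighbourhoods `U` of `p` and `V` of `f p` onto open neighbourhoods of `0` in `ℂ` with
`φ p = 0 = ψ (f p)` and `ψ ∘ f ∘ φ⁻¹ (z) = z ^ d` on `φ U`. -/
def HasLocalDegree (f : S2 → S2) (p : S2) (d : ℕ) : Prop :=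
  1 ≤ d ∧ ∃ φ ψ : OpenPartialHomeomorph S2 ℂ, OrientationPreserving φ ∧ OrientationPreserving ψ ∧
    p ∈ φ.source ∧ φ p = 0 ∧ f p ∈ ψ.source ∧ ψ (f p) = 0 ∧
    ∀ x ∈ φ.source, f x ∈ ψ.source ∧ ψ (f x) = φ x ^ d

/-- branched covering maps of the sphere -/
def IsBranchedCovering (f : S2 → S2) : Prop :=
  Continuous f ∧ ∀ p, ∃ d, HasLocalDegree f p d

/-- critical points: the points of local degree at least two -/
def crit (f : S2 → S2) : Set S2 := {p | ∃ d, 2 ≤ d ∧ HasLocalDegree f p d}

/-- the postcritical set `⋃_{n ≥ 1} fⁿ (crit f)` -/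
def post (f : S2 → S2) : Set S2 := {q | ∃ n : ℕ, 1 ≤ n ∧ ∃ c ∈ crit f, q = f^[n] c}

/-- Thurston maps: branched covering maps of the sphere of topological degree at least two (that
is, some point has two different preimages; a branched covering map of degree one is injective)
with finite postcritical set -/
def IsThurston (f : S2 → S2) : Prop :=
  IsBranchedCovering f ∧ (∃ x y, x ≠ y ∧ f x = f y) ∧ (post f).Finite

/-- Jordan curves in the sphere -/
def IsJordanCurve (C : Set S2) : Prop :=
  ∃ γ : Circle → S2, Continuous γ ∧ Function.Injective γ ∧ Set.range γ = C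

/-- the supremum of the diameters of the connected components of `f⁻ⁿ (S² ∖ C)` -/
noncomputable def mesh (f : S2 → S2) (n : ℕ) (C : Set S2) : ENNReal :=
  ⨆ x ∈ f^[n] ⁻¹' Cᶜ, Metric.ediam (connectedComponentIn (f^[n] ⁻¹' Cᶜ) x)

/-- expanding maps: the mesh tends to zero for some Jordan curve through the postcritical set -/
def IsExpanding (f : S2 → S2) : Prop :=
  ∃ C : Set S2, IsJordanCurve C ∧ post f ⊆ C ∧
    Tendsto (fun n => mesh f n C) atTop (𝓝 0)

/-- topological conjugacy -/
def IsConjugate (f g : S2 → S2) : Prop := ∃ h : S2 ≃ₜ S2, ∀ x, h (f x) = g (h x)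

end Pool.Agent.H884R3
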