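import Pool.Agent.H884R3.Thur

set_option autoImplicit false

open Set Metric Filter Topology

namespace Pool.Agent.H884R3

/-- same closed octant -/
def Oct (p q : S2) : Prop := ∀ i : Fin 3, 0 ≤ p.1 i * q.1 i

/-- inner product of plane vectors -/
def inn (w1 w2 : ℂ) : ℝ := w1.re * w2.re + w1.im * w2.im

lemma DD_re (w : ℂ) : (DD w).re = (w.re ^ 2 - w.im ^ 2) / ‖w‖ := by
  unfold DD
  rw [Complex.div_ofReal_re]
  congr 1
  simp [sq]

lemma DD_im (w : ℂ) : (DD w).im = 2 * w.re * w.im / ‖w‖ := by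
  unfold DD
  rw [Complex.div_ofReal_im]
  congr 1
  simp [sq]; ring

lemma inn_step {w1 w2 : ℂ} (h1 : 0 ≤ w1.re * w2.re) (h2 : 0 ≤ w1.im * w2.im) :
    inn (DD w1) (DD w2) ≤ inn w1 w2 ∧
      (inn (DD w1) (DD w2) = inn w1 w2 → inn w1 w2 = ‖w1‖ * ‖w2‖) := by
  rcases eq_or_ne w1 0 with rfl | hw1
  · simp [inn, DD_zero]
  rcases eq_or_ne w2 0 with rfl | hw2
  · simp [inn, DD_zero]
  have r1 : 0 < ‖w1‖ := norm_pos_iff.mpr hw1
  have r2 : 0 < ‖w2‖ := norm_pos_iff.mpr hw2
  have n1 := norm_sq_eq w1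
  have n2 := norm_sq_eq w2
  set s := inn w1 w2 with hs
  set R := ‖w1‖ * ‖w2‖ with hR
  have hRpos : 0 < R := mul_pos r1 r2
  have hs0 : 0 ≤ s := add_nonneg h1 h2
  have e1 : inn (DD w1) (DD w2) * R = 2 * s ^ 2 - R ^ 2 := by
    have e2 : R ^ 2 = (w1.re ^ 2 + w1.im ^ 2) * (w2.re ^ 2 + w2.im ^ 2) := by
      rw [hR, mul_pow, n1, n2]
    rw [e2]
    simp only [inn, DD_re, DD_im, hR, hs]
    field_simp
    ring
  have hsR : s ≤ R := by
    have e2 : R ^ 2 = (w1.re ^ 2 + w1.im ^ 2) * (w2.re ^ 2 + w2.im ^ 2) := by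
      rw [hR, mul_pow, n1, n2]
    have e3 : s ^ 2 ≤ R ^ 2 := by
      rw [e2, hs]; unfold inn
      nlinarith [sq_nonneg (w1.re * w2.im - w1.im * w2.re)]
    exact abs_le_of_sq_le_sq' e3 hRpos.le |>.2
  constructor
  · have : inn (DD w1) (DD w2) * R ≤ s * R := by
      rw [e1]; nlinarith
    exact le_of_mul_le_mul_right this hRpos
  · intro h
    rw [h] at e1
    have h3 : (2 * s + R) * (s - R) = 0 := by linarith
    rcases mul_eq_zero.mp h3 with h4 | h4
    · nlinarith
    · linarith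

/-- Euclidean inner product -/
noncomputable def ip (p q : S2) : ℝ := inn (cx p) (cx q) + p.1 2 * q.1 2

/-- the first plane vector -/
noncomputable def vw (p : S2) : ℂ := DD (cx p)
/-- the second plane vector -/
noncomputable def vW (p : S2) : ℂ := (p.1 2 : ℂ) + ((vw p).im : ℂ) * Complex.I

@[simp] lemma vW_re (p : S2) : (vW p).re = p.1 2 := by simp [vW]
@[simp] lemma vW_im (p : S2) : (vW p).im = (vw p).im := by simp [vW]

lemma ff_coords (p : S2) : (ff p).1 0 = (DD (vW p)).re ∧ (ff p).1 1 = (vw p).re ∧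
    (ff p).1 2 = (DD (vW p)).im := ff_of_cx (vw p) rfl (DD (vW p)) rfl

lemma vw_im_mul {p q : S2} (h : Oct p q) : 0 ≤ (vw p).im * (vw q).im := by
  unfold vw
  rw [DD_im, DD_im, cx_re, cx_im, cx_re, cx_im]
  have h0 := h 0
  have h1 := h 1
  have : 2 * p.1 0 * p.1 1 / ‖cx p‖ * (2 * q.1 0 * q.1 1 / ‖cx q‖) =
      4 * (p.1 0 * q.1 0) * (p.1 1 * q.1 1) / (‖cx p‖ * ‖cx q‖) := by
    rw [div_mul_div_comm]; congr 1; ring
  rw [this]
  positivity

lemma ip_ff (p q : S2) : ip (ff p) (ff q) = inn (DD (vW p)) (DD (vW q)) + (vw p).re * (vw q).re := by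
  obtain ⟨a1, a2, a3⟩ := ff_coords p
  obtain ⟨b1, b2, b3⟩ := ff_coords q
  unfold ip inn
  rw [cx_re, cx_re, cx_im, cx_im, a1, a2, a3, b1, b2, b3]
  ring

lemma ip_mid (p q : S2) : inn (vW p) (vW q) + (vw p).re * (vw q).re =
    inn (DD (cx p)) (DD (cx q)) + p.1 2 * q.1 2 := by
  unfold inn
  rw [vW_re, vW_re, vW_im, vW_im]
  unfold vw
  ring

lemma steps {p q : S2} (h : Oct p q) :
    inn (DD (cx p)) (DD (cx q)) ≤ inn (cx p) (cx q) ∧
    inn (DD (vW p)) (DD (vW q)) ≤ inn (vW p) (vW q) ∧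
    ip (ff p) (ff q) ≤ ip p q ∧
    (ip (ff p) (ff q) = ip p q → inn (cx p) (cx q) = ‖cx p‖ * ‖cx q‖ ∧
      inn (vW p) (vW q) = ‖vW p‖ * ‖vW q‖) := by
  have s1 := inn_step (w1 := cx p) (w2 := cx q) (by simpa using h 0) (by simpa using h 1)
  have s2 := inn_step (w1 := vW p) (w2 := vW q) (by simpa using h 2)
    (by simpa using vw_im_mul h)
  have e1 := ip_ff p q
  have e2 := ip_mid p q
  have e3 : ip p q = inn (cx p) (cx q) + p.1 2 * q.1 2 := rfl
  refine ⟨s1.1, s2.1, ?_, fun h => ⟨s1.2 ?_, s2.2 ?_⟩⟩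
  · linarith [s1.1, s2.1]
  · linarith [s1.1, s2.1]
  · linarith [s1.1, s2.1]

/-- parallel vectors of the same norm agree -/
lemma eq_of_parallel {w1 w2 : ℂ} (h : inn w1 w2 = ‖w1‖ * ‖w2‖) (hn : ‖w1‖ = ‖w2‖) : w1 = w2 := by
  have n1 := norm_sq_eq w1
  have n2 := norm_sq_eq w2
  have h1 : (w1.re - w2.re) ^ 2 + (w1.im - w2.im) ^ 2 = 0 := by
    unfold inn at h
    rw [hn] at h n1
    nlinarith
  have h2 : w1.re - w2.re = 0 := by nlinarith [sq_nonneg (w1.re - w2.re), sq_nonneg (w1.im - w2.im)]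
  have h3 : w1.im - w2.im = 0 := by nlinarith [sq_nonneg (w1.re - w2.re), sq_nonneg (w1.im - w2.im)]
  exact Complex.ext (by linarith) (by linarith)

lemma cross_of_parallel {w1 w2 : ℂ} (h : inn w1 w2 = ‖w1‖ * ‖w2‖) :
    w1.re * w2.im = w1.im * w2.re := by
  have n1 := norm_sq_eq w1
  have n2 := norm_sq_eq w2
  have h1 : (w1.re * w2.im - w1.im * w2.re) ^ 2 = 0 := by
    have h2 : (inn w1 w2) ^ 2 = (w1.re ^ 2 + w1.im ^ 2) * (w2.re ^ 2 + w2.im ^ 2) := by
      rw [h, mul_pow, n1, n2]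
    unfold inn at h2
    nlinarith
  have h3 := pow_eq_zero_iff (two_ne_zero) |>.mp h1
  linarith

/-- if `w1, w2` are parallel in the same direction then so are `DD w1, DD w2` -/
lemma cross_DD {w1 w2 : ℂ} (h : w1.re * w2.im = w1.im * w2.re) :
    (DD w1).re * (DD w2).im = (DD w1).im * (DD w2).re := by
  rw [DD_re, DD_im, DD_re, DD_im, div_mul_div_comm, div_mul_div_comm]
  congr 1
  have : (w1.re ^ 2 - w1.im ^ 2) * (2 * w2.re * w2.im) - 2 * w1.re * w1.im * (w2.re ^ 2 - w2.im ^ 2)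
      = 2 * (w1.re * w2.im - w1.im * w2.re) * (w1.re * w2.re + w1.im * w2.im) := by ring
  have h2 : w1.re * w2.im - w1.im * w2.re = 0 := by linarith
  rw [h2] at this
  linarith

lemma norm_cx_eq_norm_vw (p : S2) : ‖vw p‖ = ‖cx p‖ := norm_DD _

lemma unit_vw (p : S2) : (vw p).re ^ 2 + (vw p).im ^ 2 + p.1 2 ^ 2 = 1 := by
  rw [← norm_sq_eq, norm_cx_eq_norm_vw, norm_cx_sq]; ring

lemma eq_of_cx_eq {p q : S2} (h : cx p = cx q) (hz : p.1 2 = q.1 2) : p = q := by
  apply ext3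
  · rw [← cx_re, h, cx_re]
  · rw [← cx_im, h, cx_im]
  · exact hz

/-- equality in the inner product estimate forces equal points or third coordinate zero -/
lemma equality_case {p q : S2} (h : Oct p q) (he : ip (ff p) (ff q) = ip p q) :
    p = q ∨ ((ff p).1 2 = 0 ∧ (ff q).1 2 = 0) := by
  obtain ⟨-, -, -, h4⟩ := steps h
  obtain ⟨par1, par2⟩ := h4 he
  have c1 := cross_DD (cross_of_parallel par1)
  have c1' : (vw p).re * (vw q).im = (vw p).im * (vw q).re := c1
  have c2 := cross_of_parallel par2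
  rw [vW_re, vW_im, vW_re, vW_im] at c2
  have u1 := unit_vw p
  have u2 := unit_vw q
  have hv := vw_im_mul h
  have fz : ∀ x : S2, (vw x).im = 0 → (ff x).1 2 = 0 := by
    intro x hx
    rw [(ff_coords x).2.2, DD_im, vW_im, hx]; simp
  by_cases hp : (vw p).im = 0
  · by_cases hq : (vw q).im = 0
    · right; exact ⟨fz p hp, fz q hq⟩
    · exfalso
      rw [hp, zero_mul] at c1'
      rw [hp, zero_mul] at c2
      have h1 : (vw p).re = 0 := (mul_eq_zero.mp c1').resolve_right hq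
      have h2 : p.1 2 = 0 := (mul_eq_zero.mp c2).resolve_right hq
      rw [h1, hp, h2] at u1; norm_num at u1
  · by_cases hq : (vw q).im = 0
    · exfalso
      rw [hq, mul_zero] at c1'
      rw [hq, mul_zero] at c2
      have h1 : (vw q).re = 0 := (mul_eq_zero.mp c1'.symm).resolve_left hp
      have h2 : q.1 2 = 0 := (mul_eq_zero.mp c2.symm).resolve_left hp
      rw [h1, hq, h2] at u2; norm_num at u2
    · left
      have hpos : 0 < (vw p).im * (vw q).im :=
        lt_of_le_of_ne hv (mul_ne_zero hp hq).symm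
      set v1 := (vw p).im
      set v2 := (vw q).im
      -- v2² = v1²
      have hsq : v1 ^ 2 = v2 ^ 2 := by
        have a1 : ((vw p).re * v2) ^ 2 = (v1 * (vw q).re) ^ 2 := by rw [c1']
        have a2 : (p.1 2 * v2) ^ 2 = (v1 * q.1 2) ^ 2 := by rw [c2]
        have a3 : ((vw p).re ^ 2 + p.1 2 ^ 2) * v2 ^ 2 = v1 ^ 2 * ((vw q).re ^ 2 + q.1 2 ^ 2) := by
          nlinarith
        have a4 : (vw p).re ^ 2 + p.1 2 ^ 2 = 1 - v1 ^ 2 := by linarith
        have a5 : (vw q).re ^ 2 + q.1 2 ^ 2 = 1 - v2 ^ 2 := by linarith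
        rw [a4, a5] at a3
        linarith
      have hv12 : v1 = v2 := by
        rcases sq_eq_sq_iff_eq_or_eq_neg.mp hsq with h | h
        · exact h
        · exfalso; rw [h] at hpos; nlinarith [sq_nonneg v2]
      have hz : p.1 2 = q.1 2 := by
        rw [hv12] at c2
        have : (p.1 2 - q.1 2) * v2 = 0 := by linarith
        rcases mul_eq_zero.mp this with h | h
        · linarith
        · exact absurd h hq
      apply eq_of_cx_eq _ hz
      apply eq_of_parallel par1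
      have n1 := norm_cx_sq p
      have n2 := norm_cx_sq q
      rw [hz] at n1
      have : ‖cx p‖ ^ 2 = ‖cx q‖ ^ 2 := by rw [n1, n2]
      exact (sq_eq_sq₀ (norm_nonneg _) (norm_nonneg _)).mp this

lemma equality_case' {p q : S2} (h : Oct p q) (he : ip (ff p) (ff q) = ip p q)
    (hp : p.1 2 = 0) (hq : q.1 2 = 0) : p = q := by
  obtain ⟨-, -, -, h4⟩ := steps h
  obtain ⟨par1, -⟩ := h4 he
  apply eq_of_cx_eq _ (by rw [hp, hq])
  apply eq_of_parallel par1
  have n1 := norm_cx_sq p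
  have n2 := norm_cx_sq q
  rw [hp] at n1
  rw [hq] at n2
  have : ‖cx p‖ ^ 2 = ‖cx q‖ ^ 2 := by rw [n1, n2]
  exact (sq_eq_sq₀ (norm_nonneg _) (norm_nonneg _)).mp this

lemma continuous_ip : Continuous fun z : S2 × S2 => ip z.1 z.2 := by
  unfold ip inn
  simp only [cx_re, cx_im]
  fun_prop

lemma dist_sq (p q : S2) : dist p q ^ 2 = 2 - 2 * ip p q := by
  rw [Subtype.dist_eq, EuclideanSpace.dist_eq, Real.sq_sqrt (by positivity)]
  simp only [Fin.sum_univ_three, Real.dist_eq, sq_abs]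
  unfold ip inn
  rw [cx_re, cx_im, cx_re, cx_im]
  nlinarith [coord_sq p, coord_sq q]

lemma ip_self (p : S2) : ip p p = 1 := by
  have := dist_sq p p
  rw [dist_self] at this
  linarith

lemma eq_of_ip {p q : S2} (h : ip p q = 1) : p = q := by
  have := dist_sq p q
  rw [h] at this
  have h1 : dist p q ^ 2 = 0 := by linarith
  exact dist_eq_zero.mp (pow_eq_zero_iff two_ne_zero |>.mp h1)

/-- pairs whose orbits always lie in a common closed octant -/
def MM : Set (S2 × S2) := {z | ∀ n : ℕ, Oct (ff^[n] z.1) (ff^[n] z.2)}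

lemma isClosed_oct (n : ℕ) : IsClosed {z : S2 × S2 | Oct (ff^[n] z.1) (ff^[n] z.2)} := by
  have hn : Continuous (ff^[n]) := continuous_ff.iterate n
  have : {z : S2 × S2 | Oct (ff^[n] z.1) (ff^[n] z.2)} =
      ⋂ i : Fin 3, {z : S2 × S2 | 0 ≤ (ff^[n] z.1).1 i * (ff^[n] z.2).1 i} := by
    ext z; simp [Oct]
  rw [this]
  refine isClosed_iInter fun i => isClosed_le continuous_const ?_
  exact ((continuous_coord i).comp (hn.comp continuous_fst)).mul
    ((continuous_coord i).comp (hn.comp continuous_snd))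

lemma isCompact_MM : IsCompact MM := by
  have : MM = ⋂ n, {z : S2 × S2 | Oct (ff^[n] z.1) (ff^[n] z.2)} := by
    ext z; simp [MM]
  rw [this]
  exact (isClosed_iInter isClosed_oct).isCompact

lemma MM_step {p q : S2} (h : (p, q) ∈ MM) : (ff p, ff q) ∈ MM := by
  intro n
  have := h (n + 1)
  rwa [Function.iterate_succ_apply, Function.iterate_succ_apply] at this

lemma MM_diag {p q : S2} (h : (p, q) ∈ MM) : p = q := by
  by_contra hne
  obtain ⟨⟨a, b⟩, hab, hmin⟩ := isCompact_MM.exists_isMinOn ⟨_, h⟩ continuous_ip.continuousOn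
  have hmin' : ∀ z ∈ MM, ip a b ≤ ip z.1 z.2 := fun z hz => hmin hz
  have hlt : ip p q < 1 := by
    have h1 := dist_sq p q
    have h2 : 0 < dist p q := dist_pos.mpr hne
    nlinarith
  have hablt : ip a b < 1 := lt_of_le_of_lt (hmin' _ h) hlt
  have habne : a ≠ b := by
    intro h; rw [h, ip_self] at hablt; exact lt_irrefl _ hablt
  have h1 := MM_step hab
  have e1 : ip (ff a) (ff b) = ip a b :=
    le_antisymm (steps (hab 0)).2.2.1 (hmin' _ h1)
  rcases equality_case (hab 0) e1 with h2 | ⟨h2, h3⟩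
  · exact habne h2
  · have h4 := MM_step h1
    have e2 : ip (ff (ff a)) (ff (ff b)) = ip (ff a) (ff b) :=
      le_antisymm (steps (h1 0)).2.2.1 (by rw [e1]; exact hmin' _ h4)
    have h5 : ff a = ff b := equality_case' (h1 0) e2 h2 h3
    rw [h5, ip_self] at e1
    linarith

lemma eventually_close {ε : ℝ} (hε : 0 < ε) : ∃ n : ℕ, ∀ p q : S2,
    (∀ k ≤ n, Oct (ff^[k] p) (ff^[k] q)) → dist p q < ε := by
  by_contra hcon
  push Not at hcon
  let K : ℕ → Set (S2 × S2) := fun n =>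
    {z | ε ≤ dist z.1 z.2} ∩ ⋂ k ∈ Set.Iic n, {z : S2 × S2 | Oct (ff^[k] z.1) (ff^[k] z.2)}
  have hKc : ∀ n, IsClosed (K n) := fun n =>
    (isClosed_le continuous_const (by fun_prop)).inter (isClosed_biInter fun k _ => isClosed_oct k)
  have hKn : ∀ n, (K n).Nonempty := by
    intro n
    obtain ⟨p, q, h1, h2⟩ := hcon n
    exact ⟨(p, q), h2, by simpa using h1⟩
  have hKm : ∀ n, K (n + 1) ⊆ K n := by
    intro n z hz
    refine ⟨hz.1, ?_⟩
    have h2 := hz.2
    simp only [Set.mem_iInter, Set.mem_Iic] at h2 ⊢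
    exact fun k hk => h2 k (by omega)
  obtain ⟨z, hz⟩ := IsCompact.nonempty_iInter_of_sequence_nonempty_isCompact_isClosed K hKm hKn
    (hKc 0).isCompact hKc
  rw [Set.mem_iInter] at hz
  have hM : (z.1, z.2) ∈ MM := by
    intro n
    have h2 := (hz n).2
    simp only [Set.mem_iInter, Set.mem_Iic] at h2
    exact h2 n le_rfl
  have h1 := (hz 0).1
  have h2 := MM_diag hM
  simp only [Set.mem_ofPred_eq] at h1
  rw [h2, dist_self] at h1
  linarith

/-- the equator -/
def Eq0 : Set S2 := {p | p.1 2 = 0}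

lemma isJordanCurve_Eq0 : IsJordanCurve Eq0 := by
  have hn : ∀ z : Circle, (z : ℂ).re ^ 2 + (z : ℂ).im ^ 2 + 0 ^ 2 = 1 := by
    intro z
    rw [← norm_sq_eq, norm_circle]; norm_num
  refine ⟨fun z => mk3 (z : ℂ).re (z : ℂ).im 0 (hn z), ?_, ?_, ?_⟩
  · exact continuous_mk3 (by fun_prop) (by fun_prop) continuous_const _
  · intro z w h
    apply Circle.ext
    apply Complex.ext
    · have := congrArg (fun p : S2 => p.1 0) h
      simpa using this
    · have := congrArg (fun p : S2 => p.1 1) h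
      simpa using this
  · ext p
    constructor
    · rintro ⟨z, rfl⟩
      simp [Eq0]
    · intro hp
      have hp' : p.1 2 = 0 := hp
      have h1 : ‖cx p‖ = 1 := by
        have := norm_cx_sq p
        rw [hp'] at this
        have h2 : ‖cx p‖ ^ 2 = 1 := by rw [this]; norm_num
        nlinarith [norm_nonneg (cx p)]
      refine ⟨⟨cx p, by simp [Submonoid.unitSphere, h1]⟩, ?_⟩
      apply ext3
      · simp
      · simp
      · simp [hp']

lemma DD_im_eq_zero {w : ℂ} (h : (DD w).im = 0) : w.re = 0 ∨ w.im = 0 := by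
  rcases eq_or_ne w 0 with rfl | hw
  · left; rfl
  rw [DD_im] at h
  have h1 : ‖w‖ ≠ 0 := (norm_pos_iff.mpr hw).ne'
  rw [div_eq_zero_iff] at h
  rcases h with h | h
  · rcases mul_eq_zero.mp h with h | h
    · left; linarith
    · right; exact h
  · exact absurd h h1

lemma ff_z_eq_zero {p : S2} (i : Fin 3) (h : p.1 i = 0) : (ff p).1 2 = 0 := by
  rw [(ff_coords p).2.2, DD_im, vW_re, vW_im]
  unfold vw
  rw [DD_im, cx_re, cx_im]
  fin_cases i
  · simp at h; rw [h]; simp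
  · simp at h; rw [h]; simp
  · simp at h; rw [h]; simp

lemma sign_const {K : Set S2} (hK : IsPreconnected K) {g : S2 → ℝ} (hg : Continuous g)
    (h0 : ∀ y ∈ K, g y ≠ 0) {p q : S2} (hp : p ∈ K) (hq : q ∈ K) : 0 ≤ g p * g q := by
  by_contra hneg
  push Not at hneg
  have him : IsPreconnected (g '' K) := hK.image g hg.continuousOn
  have hord := him.ordConnected
  have hz : (0 : ℝ) ∈ g '' K := by
    rcases mul_neg_iff.mp hneg with ⟨h1, h2⟩ | ⟨h1, h2⟩
    · exact hord.out (mem_image_of_mem g hq) (mem_image_of_mem g hp) ⟨h2.le, h1.le⟩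
    · exact hord.out (mem_image_of_mem g hp) (mem_image_of_mem g hq) ⟨h1.le, h2.le⟩
  obtain ⟨y, hy, hy0⟩ := hz
  exact h0 y hy hy0

lemma iterate_Eq0 {y : S2} {k m : ℕ} (hkm : k ≤ m) (h : (ff^[k] y).1 2 = 0) :
    (ff^[m] y).1 2 = 0 := by
  obtain ⟨j, rfl⟩ := Nat.exists_eq_add_of_le hkm
  induction j with
  | zero => simpa using h
  | succ j ih =>
    rw [← add_assoc, Function.iterate_succ_apply']
    exact ff_z_eq_zero 2 (ih (by omega))

lemma isExpanding_ff : IsExpanding ff := by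
  refine ⟨Eq0, isJordanCurve_Eq0, ?_, ?_⟩
  · intro q hq
    rcases post_ff hq with h | h | h
    · rw [h]; simp [Eq0, pX]
    · rw [h]; simp [Eq0, pY]
    · rw [h]; simp [Eq0, mY]
  · rw [ENNReal.tendsto_nhds_zero]
    intro ε hε
    obtain ⟨ε', hε', hεε⟩ : ∃ ε' : ℝ, 0 < ε' ∧ ENNReal.ofReal ε' ≤ ε := by
      rcases eq_or_ne ε ⊤ with rfl | htop
      · exact ⟨1, one_pos, le_top⟩
      · exact ⟨ε.toReal, ENNReal.toReal_pos hε.ne' htop, by rw [ENNReal.ofReal_toReal htop]⟩
    obtain ⟨n, hn⟩ := eventually_close hε'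
    filter_upwards [eventually_ge_atTop (n + 1)] with m hm
    refine le_trans (iSup₂_le fun x hx => ?_) hεε
    refine Metric.ediam_le fun p hp q hq => ?_
    have hK : IsPreconnected (connectedComponentIn (ff^[m] ⁻¹' Eq0ᶜ) x) :=
      isPreconnected_connectedComponentIn
    have hsub := connectedComponentIn_subset (ff^[m] ⁻¹' Eq0ᶜ) x
    have hd : dist p q < ε' := by
      apply hn
      intro k hk i
      refine sign_const hK (g := fun y => (ff^[k] y).1 i)
        ((continuous_coord i).comp (continuous_ff.iterate k)) ?_ hp hq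
      intro y hy h0
      apply hsub hy
      show (ff^[m] y).1 2 = 0
      apply iterate_Eq0 (k := k + 1) (by omega)
      rw [Function.iterate_succ_apply']
      exact ff_z_eq_zero i h0
    rw [edist_dist]
    exact ENNReal.ofReal_le_ofReal hd.le

end Pool.Agent.H884R3
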