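import Mathlib

set_option autoImplicit false

open Set Metric Filter Topology MeasureTheory
open scoped Manifold ContDiff

namespace Pool.Agent.H884R3

/-- area argument in a vector space -/
lemma area_aux {E : Type*} [NormedAddCommGroup E] [NormedSpace ℝ E] [FiniteDimensional ℝ E]
    (G : E → E) (x0 : E) (hG : ContDiffAt ℝ 1 G x0)
    (h1 : ∀ U ∈ 𝓝 x0, ¬ InjOn G U)
    (h2 : ∀ N ∈ 𝓝 x0, ∃ W, IsOpen W ∧ x0 ∈ W ∧ W ⊆ N ∧ W ⊆ G '' W) : False := by
  borelize E
  have hstrict : HasStrictFDerivAt G (fderiv ℝ G x0) x0 :=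
    hG.hasStrictFDerivAt (by norm_num)
  have hdet : (fderiv ℝ G x0).det = 0 := by
    by_contra hne
    let L' : E ≃L[ℝ] E := (fderiv ℝ G x0).toContinuousLinearEquivOfDetNeZero hne
    have hL' : HasStrictFDerivAt G (L' : E →L[ℝ] E) x0 := by
      have : (L' : E →L[ℝ] E) = fderiv ℝ G x0 := by ext; rfl
      rw [this]; exact hstrict
    let e := hL'.toOpenPartialHomeomorph G
    have he : x0 ∈ e.source := hL'.mem_toOpenPartialHomeomorph_source
    exact h1 e.source (e.open_source.mem_nhds he) e.injOn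
  have hcont : ContinuousAt (fun x => |(fderiv ℝ G x).det|) x0 := by
    have h3 : ContinuousAt (fderiv ℝ G) x0 :=
      (hG.fderiv_right (m := 0) (by norm_num)).continuousAt
    have h4 : Continuous fun L : E →L[ℝ] E => |L.det| := ContinuousLinearMap.continuous_det.abs
    exact ContinuousAt.comp (g := fun L : E →L[ℝ] E => |L.det|) h4.continuousAt h3
  have hsmall : ∀ᶠ x in 𝓝 x0, |(fderiv ℝ G x).det| < 1 / 2 := by
    have h5 : |(fderiv ℝ G x0).det| < 1 / 2 := by rw [hdet]; norm_num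
    exact hcont.eventually (isOpen_Iio.mem_nhds h5)
  have hdiff : ∀ᶠ x in 𝓝 x0, DifferentiableAt ℝ G x := by
    filter_upwards [hG.eventually (by norm_num)] with x hx
    exact hx.differentiableAt (by norm_num)
  have hball : ∀ᶠ x in 𝓝 x0, x ∈ ball x0 1 := ball_mem_nhds x0 one_pos
  obtain ⟨W, hWo, hxW, hWN, hWG⟩ := h2 _ ((hsmall.and hdiff).and hball)
  let μ : Measure E := Measure.addHaar
  have hpos : 0 < μ W := hWo.measure_pos μ ⟨x0, hxW⟩
  have hfin : μ W < ⊤ := by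
    refine lt_of_le_of_lt (measure_mono fun x hx => (hWN hx).2) ?_
    exact isBounded_ball.measure_lt_top
  have hle : μ (G '' W) ≤ ∫⁻ x in W, ENNReal.ofReal |(fderiv ℝ G x).det| ∂μ :=
    addHaar_image_le_lintegral_abs_det_fderiv μ hWo.measurableSet
      (fun x hx => (hWN hx).1.2.hasFDerivAt.hasFDerivWithinAt)
  have hle2 : ∫⁻ x in W, ENNReal.ofReal |(fderiv ℝ G x).det| ∂μ ≤ ∫⁻ _ in W, (1 / 2 : ENNReal) ∂μ := by
    refine setLIntegral_mono' hWo.measurableSet fun x hx => ?_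
    have h6 := (hWN hx).1.1
    calc ENNReal.ofReal |(fderiv ℝ G x).det| ≤ ENNReal.ofReal (1 / 2) :=
          ENNReal.ofReal_le_ofReal h6.le
      _ = 1 / 2 := by
          rw [ENNReal.ofReal_div_of_pos (by norm_num)]; simp
  rw [setLIntegral_const] at hle2
  have h7 : μ W ≤ 1 / 2 * μ W := (measure_mono hWG).trans (hle.trans hle2)
  have h8 : 1 / 2 * μ W < μ W := by
    have := ENNReal.half_lt_self hpos.ne' hfin.ne
    rwa [ENNReal.div_eq_inv_mul, ← one_div] at this
  exact absurd h7 (not_le.mpr h8)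

/-- A self-map of a manifold which fixes `P`, is not injective near `P` and satisfies `W ⊆ g W` for
arbitrarily small open neighbourhoods `W` of `P` is not of class `C¹` at `P`. -/
theorem not_contMDiffAt {E : Type*} [NormedAddCommGroup E] [NormedSpace ℝ E]
    [FiniteDimensional ℝ E] {M : Type*} [TopologicalSpace M] [ChartedSpace E M]
    (g : M → M) (P : M) (hP : g P = P)
    (h1 : ∀ U ∈ 𝓝 P, ¬ InjOn g U)
    (h2 : ∀ N ∈ 𝓝 P, ∃ W, IsOpen W ∧ P ∈ W ∧ W ⊆ N ∧ W ⊆ g '' W) :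
    ¬ ContMDiffAt 𝓘(ℝ, E) 𝓘(ℝ, E) 1 g P := by
  intro hg
  obtain ⟨hc, hG⟩ := contMDiffAt_iff.mp hg
  rw [hP] at hG
  set c := chartAt E P with hcdef
  have hPs : P ∈ c.source := mem_chart_source E P
  have hfun : (↑(extChartAt 𝓘(ℝ, E) P) ∘ g ∘ ↑(extChartAt 𝓘(ℝ, E) P).symm) =
      fun x => c (g (c.symm x)) := by
    ext x; simp [c, mfld_simps]
  have hpt : (extChartAt 𝓘(ℝ, E) P) P = c P := by simp [c, mfld_simps]
  rw [hfun, hpt] at hG
  simp only [modelWithCornersSelf_coe, Set.range_id, contDiffWithinAt_univ] at hG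
  -- a neighbourhood on which everything stays in the chart
  have hA : ∀ᶠ y in 𝓝 P, y ∈ c.source ∧ g y ∈ c.source := by
    have a1 : ∀ᶠ y in 𝓝 P, y ∈ c.source := c.open_source.mem_nhds hPs
    have a2 : ∀ᶠ y in 𝓝 P, g y ∈ c.source := by
      apply hc.eventually
      rw [hP]; exact c.open_source.mem_nhds hPs
    exact a1.and a2
  refine area_aux (fun x => c (g (c.symm x))) (c P) hG ?_ ?_
  · intro U hU hinj
    have hU' : ∀ᶠ y in 𝓝 P, c y ∈ U := (c.continuousAt hPs).eventually hU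
    refine h1 _ (hA.and hU') ?_
    intro a ha b hb hab
    have ha' : (a ∈ c.source ∧ g a ∈ c.source) ∧ c a ∈ U := ha
    have hb' : (b ∈ c.source ∧ g b ∈ c.source) ∧ c b ∈ U := hb
    apply c.injOn ha'.1.1 hb'.1.1
    apply hinj ha'.2 hb'.2
    show c (g (c.symm (c a))) = c (g (c.symm (c b)))
    rw [c.left_inv ha'.1.1, c.left_inv hb'.1.1, hab]
  · intro N hN
    have hN' : ∀ᶠ y in 𝓝 P, c y ∈ N := (c.continuousAt hPs).eventually hN
    obtain ⟨W, hWo, hPW, hWN, hWg⟩ := h2 _ (hA.and hN')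
    have hWN' : ∀ y ∈ W, (y ∈ c.source ∧ g y ∈ c.source) ∧ c y ∈ N := fun y hy => hWN hy
    refine ⟨c '' W, ?_, mem_image_of_mem _ hPW, ?_, ?_⟩
    · exact c.isOpen_image_of_subset_source hWo (fun y hy => (hWN' y hy).1.1)
    · rintro _ ⟨y, hy, rfl⟩
      exact (hWN' y hy).2
    · rintro _ ⟨y, hy, rfl⟩
      obtain ⟨y', hy', hyy⟩ := hWg hy
      refine ⟨c y', mem_image_of_mem _ hy', ?_⟩
      show c (g (c.symm (c y'))) = c y
      rw [c.left_inv (hWN' y' hy').1.1, hyy]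

end Pool.Agent.H884R3
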