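import Pool.Agent.H884R3.Expand
import Pool.Agent.H884R3.NonSmooth

set_option autoImplicit false

open Set Metric Filter Topology
open scoped Manifold ContDiff

namespace Pool.Agent.H884R3

lemma DD_surj (w : ℂ) : ∃ v, DD v = w := by
  obtain ⟨v, hv⟩ := IsAlgClosed.exists_pow_nat_eq (SS w) (n := 2) (by norm_num)
  exact ⟨v, by rw [DD_eq_RR_sq, hv, RR_SS]⟩

lemma DD_neg (w : ℂ) : DD (-w) = DD w := by
  unfold DD; rw [norm_neg]; ring

/-- points near `mY` have preimages at least as close to `mY` -/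
lemma preimage_closer {q : S2} (hq : q.1 1 < 0) : ∃ q' : S2, ff q' = q ∧ q'.1 1 ≤ q.1 1 := by
  obtain ⟨W0, hW0⟩ := DD_surj ((q.1 0 : ℂ) + (q.1 2 : ℂ) * Complex.I)
  obtain ⟨w0, hw0⟩ := DD_surj ((q.1 1 : ℂ) + (W0.im : ℂ) * Complex.I)
  obtain ⟨w, hw, him⟩ : ∃ w, DD w = (q.1 1 : ℂ) + (W0.im : ℂ) * Complex.I ∧ w.im ≤ 0 := by
    rcases le_total w0.im 0 with h | h
    · exact ⟨w0, hw0, h⟩
    · exact ⟨-w0, by rw [DD_neg, hw0], by simpa using h⟩
  have n1 : ‖W0‖ ^ 2 = q.1 0 ^ 2 + q.1 2 ^ 2 := by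
    rw [← norm_DD W0, hW0, norm_sq_eq]; simp
  have n2 : ‖w‖ ^ 2 = q.1 1 ^ 2 + W0.im ^ 2 := by
    rw [← norm_DD w, hw, norm_sq_eq]; simp
  have hs : w.re ^ 2 + w.im ^ 2 + W0.re ^ 2 = 1 := by
    have := coord_sq q
    rw [← norm_sq_eq, n2]
    rw [norm_sq_eq] at n1
    linarith
  refine ⟨mk3 w.re w.im W0.re hs, ?_, ?_⟩
  · have hcx : cx (mk3 w.re w.im W0.re hs) = w := by
      apply Complex.ext <;> simp
    have h := ff_of_cx (x := mk3 w.re w.im W0.re hs) _ (by rw [hcx, hw]) _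
      (by
        have : (((mk3 w.re w.im W0.re hs).1 2 : ℝ) : ℂ) +
            ((((q.1 1 : ℂ) + (W0.im : ℂ) * Complex.I).im : ℝ) : ℂ) * Complex.I = W0 := by
          apply Complex.ext <;> simp
        rw [this, hW0])
    apply ext3
    · rw [h.1]; simp
    · rw [h.2.1]; simp
    · rw [h.2.2]; simp
  · rw [mk3_1]
    -- estimate
    have hre := congrArg Complex.re hw
    rw [DD_re] at hre
    have hre' : (w.re ^ 2 - w.im ^ 2) / ‖w‖ = q.1 1 := by rw [hre]; simp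
    have hwpos : 0 < ‖w‖ := by
      rcases eq_or_lt_of_le (norm_nonneg w) with h | h
      · rw [← h] at hre'; simp at hre'; linarith
      · exact h
    rw [div_eq_iff hwpos.ne'] at hre'
    have n3 := norm_sq_eq w
    have hge : -q.1 1 ≤ ‖w‖ := by
      have : (-q.1 1) ^ 2 ≤ ‖w‖ ^ 2 := by rw [n2]; nlinarith [sq_nonneg W0.im]
      exact abs_le_of_sq_le_sq' this hwpos.le |>.2
    have hsq : (-q.1 1) ^ 2 ≤ (-w.im) ^ 2 := by nlinarith
    have := abs_le_of_sq_le_sq' hsq (by linarith) |>.2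
    linarith

lemma small_nbhd : ∀ N ∈ 𝓝 mY, ∃ W, IsOpen W ∧ mY ∈ W ∧ W ⊆ N ∧ W ⊆ ff '' W := by
  intro N hN
  obtain ⟨δ, hδ, hball⟩ := Metric.mem_nhds_iff.mp hN
  set ε : ℝ := min (δ ^ 2 / 2) (1 / 2) with hε
  have hε0 : 0 < ε := lt_min (by positivity) (by norm_num)
  have hε1 : ε ≤ 1 / 2 := min_le_right _ _
  have hε2 : ε ≤ δ ^ 2 / 2 := min_le_left _ _
  refine ⟨{q : S2 | q.1 1 < -(1 - ε)}, ?_, ?_, ?_, ?_⟩
  · exact isOpen_lt (continuous_coord 1) continuous_const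
  · show mY.1 1 < -(1 - ε)
    simp [mY]; linarith
  · intro q hq
    have hq' : q.1 1 < -(1 - ε) := hq
    apply hball
    rw [Metric.mem_ball]
    have h1 := dist_sq q mY
    have h2 : ip q mY = -q.1 1 := by
      unfold ip inn; simp [mY]
    rw [h2] at h1
    have h3 : dist q mY ^ 2 < δ ^ 2 := by rw [h1]; linarith
    exact lt_of_pow_lt_pow_left₀ 2 hδ.le h3
  · intro q hq
    have hq' : q.1 1 < -(1 - ε) := hq
    obtain ⟨q', h1, h2⟩ := preimage_closer (q := q) (by linarith)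
    exact ⟨q', lt_of_le_of_lt h2 hq', h1⟩

lemma degree_mY : HasLocalDegree ff mY 2 := by
  have h1 : cx mY = -Complex.I := by simp [cx, mY]
  refine degree_eq (by rw [h1]; simp) ?_
  have e1 : cx (QQ mY) = -1 := by
    rw [cx_QQ, h1, DD_of_norm_one (by simp)]; simp
  apply Complex.ext
  · rw [cx_re, rot1_0, QQ_2]; simp [mY]
  · rw [cx_im, rot1_1, ← cx_im, e1]; simp

theorem no_smooth_model (g : S2 → S2) (hg : IsConjugate ff g) :
    ¬ ContMDiff (𝓡 2) (𝓡 2) 1 g := by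
  intro hsm
  obtain ⟨h, hh⟩ := hg
  refine not_contMDiffAt (E := EuclideanSpace ℝ (Fin 2)) g (h mY) ?_ ?_ ?_ (hsm (h mY))
  · rw [← hh, ff_mY]
  · intro U hU hinj
    have hU' : h ⁻¹' U ∈ 𝓝 mY := h.continuous.continuousAt hU
    refine not_injOn_of_degree le_rfl degree_mY _ hU' ?_
    intro a ha b hb hab
    apply h.injective
    apply hinj ha hb
    rw [← hh, ← hh, hab]
  · intro N hN
    have hN' : h ⁻¹' N ∈ 𝓝 mY := h.continuous.continuousAt hN
    obtain ⟨W, h1, h2, h3, h4⟩ := small_nbhd _ hN'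
    refine ⟨h '' W, h.isOpenMap _ h1, mem_image_of_mem _ h2, ?_, ?_⟩
    · rintro _ ⟨y, hy, rfl⟩
      exact h3 hy
    · rintro _ ⟨y, hy, rfl⟩
      obtain ⟨y', hy', hyy⟩ := h4 hy
      exact ⟨h y', mem_image_of_mem _ hy', by rw [← hh, hyy]⟩

end Pool.Agent.H884R3
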