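import Pool.Agent.H884R3.PlanePos

set_option autoImplicit false

open Set Metric Filter Topology

namespace Pool.Agent.H884R3

/-! ### The plane maps -/

/-- radial square `η ↦ |η| η` -/
noncomputable def SS (η : ℂ) : ℂ := (‖η‖ : ℂ) * η

/-- radial square root `ζ ↦ ζ / √|ζ|` -/
noncomputable def RR (ζ : ℂ) : ℂ := ζ / ((Real.sqrt ‖ζ‖ : ℝ) : ℂ)

/-- angle doubling `w ↦ w² / |w|` -/
noncomputable def DD (w : ℂ) : ℂ := w ^ 2 / (‖w‖ : ℂ)

lemma norm_SS (η : ℂ) : ‖SS η‖ = ‖η‖ ^ 2 := by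
  simp [SS, sq]

lemma norm_RR (ζ : ℂ) : ‖RR ζ‖ = Real.sqrt ‖ζ‖ := by
  unfold RR
  rw [norm_div, Complex.norm_real, Real.norm_eq_abs, abs_of_nonneg (Real.sqrt_nonneg _)]
  rcases eq_or_ne ζ 0 with h | h
  · simp [h]
  · have h1 : 0 < Real.sqrt ‖ζ‖ := Real.sqrt_pos.mpr (norm_pos_iff.mpr h)
    rw [div_eq_iff h1.ne', Real.mul_self_sqrt (norm_nonneg _)]

lemma norm_DD (w : ℂ) : ‖DD w‖ = ‖w‖ := by
  unfold DD
  rw [norm_div, norm_pow, Complex.norm_real, Real.norm_eq_abs, abs_of_nonneg (norm_nonneg _)]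
  rcases eq_or_ne w 0 with h | h
  · simp [h]
  · have h1 : 0 < ‖w‖ := norm_pos_iff.mpr h
    rw [div_eq_iff h1.ne']; ring

lemma RR_SS (η : ℂ) : RR (SS η) = η := by
  unfold RR
  rw [norm_SS, Real.sqrt_sq (norm_nonneg _)]
  unfold SS
  rcases eq_or_ne η 0 with h | h
  · simp [h]
  · have h1 : (‖η‖ : ℂ) ≠ 0 := by exact_mod_cast (norm_pos_iff.mpr h).ne'
    field_simp

lemma SS_RR (ζ : ℂ) : SS (RR ζ) = ζ := by
  unfold SS
  rw [norm_RR]
  unfold RR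
  rcases eq_or_ne ζ 0 with h | h
  · simp [h]
  · have h1 : ((Real.sqrt ‖ζ‖ : ℝ) : ℂ) ≠ 0 := by
      exact_mod_cast (Real.sqrt_pos.mpr (norm_pos_iff.mpr h)).ne'
    field_simp

lemma continuous_SS : Continuous SS := by
  unfold SS; fun_prop

lemma continuousAt_zero_of_norm {g : ℂ → ℂ} (h0 : g 0 = 0) (k : ℝ → ℝ) (hk : Continuous k)
    (hk0 : k 0 = 0) (h : ∀ z, ‖g z‖ = k ‖z‖) : ContinuousAt g 0 := by
  unfold ContinuousAt
  rw [h0, tendsto_zero_iff_norm_tendsto_zero]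
  have h1 : (fun z : ℂ => ‖g z‖) = fun z => k ‖z‖ := funext h
  rw [h1]
  have h2 : Continuous fun z : ℂ => k ‖z‖ := by fun_prop
  have h3 := h2.tendsto 0
  simpa [hk0] using h3

lemma RR_zero : RR 0 = 0 := by simp [RR]
lemma DD_zero : DD 0 = 0 := by simp [DD]

lemma continuous_RR : Continuous RR := by
  rw [continuous_iff_continuousAt]
  intro ζ
  rcases eq_or_ne ζ 0 with rfl | h
  · exact continuousAt_zero_of_norm RR_zero Real.sqrt Real.continuous_sqrt Real.sqrt_zero norm_RR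
  · unfold RR
    have h1 : ((Real.sqrt ‖ζ‖ : ℝ) : ℂ) ≠ 0 := by
      exact_mod_cast (Real.sqrt_pos.mpr (norm_pos_iff.mpr h)).ne'
    exact ContinuousAt.div (by fun_prop) (by fun_prop) h1

lemma continuous_DD : Continuous DD := by
  rw [continuous_iff_continuousAt]
  intro ζ
  rcases eq_or_ne ζ 0 with rfl | h
  · exact continuousAt_zero_of_norm DD_zero id continuous_id rfl norm_DD
  · unfold DD
    have h1 : (‖ζ‖ : ℂ) ≠ 0 := by exact_mod_cast (norm_pos_iff.mpr h).ne'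
    exact ContinuousAt.div (by fun_prop) (by fun_prop) h1

/-- the homeomorphism `RR` -/
noncomputable def homRR : ℂ ≃ₜ ℂ where
  toFun := RR
  invFun := SS
  left_inv := SS_RR
  right_inv := RR_SS
  continuous_toFun := continuous_RR
  continuous_invFun := continuous_SS

lemma RR_ne_zero {ζ : ℂ} (h : ζ ≠ 0) : RR ζ ≠ 0 := by
  intro h0
  apply h
  rw [← SS_RR ζ, h0]; simp [SS]

lemma DD_eq_sq (w : ℂ) : DD w = RR w ^ 2 := by
  unfold DD RR
  rw [div_pow]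
  congr 1
  rw [← Complex.ofReal_pow, Real.sq_sqrt (norm_nonneg _)]

lemma DD_eq_RR_sq (w : ℂ) : DD w = RR (w ^ 2) := by
  unfold DD RR
  rw [norm_pow, Real.sqrt_sq (norm_nonneg _)]

lemma DD_ne_zero {w : ℂ} (h : w ≠ 0) : DD w ≠ 0 := by
  rw [DD_eq_sq]; exact pow_ne_zero _ (RR_ne_zero h)

lemma posDiff_SS {η : ℂ} (h : η ≠ 0) : PosDiff SS η := by
  refine ⟨Eventually.of_forall fun v => continuous_SS.continuousAt, ?_⟩
  have hs : 0 < ‖η‖ := norm_pos_iff.mpr h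
  have h1 : HasFDerivAt (fun v : ℂ => ‖v‖ ^ 2) (2 • (innerSL ℝ η)) η := by
    simpa using (hasStrictFDerivAt_norm_sq η).hasFDerivAt
  have h2 : HasFDerivAt (fun v : ℂ => Real.sqrt (‖v‖ ^ 2))
      ((1 / (2 * Real.sqrt (‖η‖ ^ 2))) • (2 • (innerSL ℝ η))) η :=
    h1.sqrt (by positivity)
  have h3 : HasFDerivAt (fun v : ℂ => Real.sqrt (‖v‖ ^ 2) • v)
      (Real.sqrt (‖η‖ ^ 2) • (ContinuousLinearMap.id ℝ ℂ) +
        ((1 / (2 * Real.sqrt (‖η‖ ^ 2))) • (2 • (innerSL ℝ η))).smulRight η) η :=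
    h2.smul (hasFDerivAt_id η)
  have h4 : SS = fun v : ℂ => Real.sqrt (‖v‖ ^ 2) • v := by
    funext v
    rw [Real.sqrt_sq (norm_nonneg _), Complex.real_smul]; rfl
  rw [h4]
  refine ⟨_, h3, ?_⟩
  have hdet : ∀ L : ℂ →L[ℝ] ℂ, L.det = (L 1).re * (L Complex.I).im - (L Complex.I).re * (L 1).im := by
    intro L
    rw [ContinuousLinearMap.det, ← LinearMap.det_toMatrix Complex.basisOneI, Matrix.det_fin_two]
    simp [LinearMap.toMatrix_apply]
  rw [hdet]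
  rw [Real.sqrt_sq (norm_nonneg _)]
  simp only [ContinuousLinearMap.add_apply, ContinuousLinearMap.smul_apply,
    ContinuousLinearMap.id_apply, ContinuousLinearMap.smulRight_apply, innerSL_apply_apply]
  simp only [Complex.inner, nsmul_eq_mul, smul_eq_mul]
  have hn : ‖η‖ ^ 2 = η.re ^ 2 + η.im ^ 2 := by
    rw [← Complex.normSq_eq_norm_sq, Complex.normSq_apply]; ring
  simp
  field_simp
  have : (0:ℝ) < ‖η‖ ^ 2 := by positivity
  nlinarith [sq_nonneg η.re, sq_nonneg η.im, hn]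

lemma posDiff_RR {ζ : ℂ} (h : ζ ≠ 0) : PosDiff RR ζ := by
  have h1 := PosDiff.symm homRR.symm.toOpenPartialHomeomorph (w := ζ) (by simp)
    (by
      show PosDiff SS (RR ζ)
      exact posDiff_SS (RR_ne_zero h))
  exact h1

lemma posDiff_DD {w : ℂ} (h : w ≠ 0) : PosDiff DD w := by
  have h0 : DD = fun v => RR (v ^ 2) := funext DD_eq_RR_sq
  rw [h0]
  refine PosDiff.comp (g := RR) (h := fun v => v ^ 2) (posDiff_RR (pow_ne_zero 2 h)) ?_
  refine posDiff_of_hasDerivAt (g' := 2 * w) (Eventually.of_forall fun v => by fun_prop) ?_ ?_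
  · simpa using hasDerivAt_pow 2 w
  · exact mul_ne_zero two_ne_zero h

/-- local homeomorphism `DD` near a nonzero point -/
lemma exists_local_DD {w : ℂ} (h : w ≠ 0) : ∃ e : OpenPartialHomeomorph ℂ ℂ, w ∈ e.source ∧
    0 ∉ e.source ∧ ∀ v, e v = DD v := by
  have hd : HasStrictDerivAt (fun v : ℂ => v ^ 2) (2 * w) w := by
    simpa using hasStrictDerivAt_pow 2 w
  have hne : 2 * w ≠ 0 := mul_ne_zero two_ne_zero h
  let e0 : OpenPartialHomeomorph ℂ ℂ :=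
    (hd.hasStrictFDerivAt_equiv hne).toOpenPartialHomeomorph (fun v : ℂ => v ^ 2)
  have he0 : ∀ v, e0 v = v ^ 2 := fun v => rfl
  have hw : w ∈ e0.source := (hd.hasStrictFDerivAt_equiv hne).mem_toOpenPartialHomeomorph_source
  let e1 : OpenPartialHomeomorph ℂ ℂ :=
    (e0.restrOpen {0}ᶜ isOpen_compl_singleton).trans homRR.toOpenPartialHomeomorph
  refine ⟨e1, ?_, ?_, fun v => ?_⟩
  · simp [e1, hw, h]
  · simp [e1]
  · show RR (e0 v) = DD v
    rw [he0, DD_eq_RR_sq]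

/-- local degree `+1` passes to `RR ∘ G` at zeros of `G` -/
lemma PosAt.RR_comp {G : ℂ → ℂ} {w : ℂ} (hG : PosAt G w) (h0 : G w = 0) :
    PosAt (fun v => RR (G v)) w := by
  obtain ⟨r₀, hr₀, h1⟩ := hG
  refine ⟨r₀, hr₀, fun r hr hrr => ?_⟩
  obtain ⟨γ, hγ, hγ'⟩ := h1 r hr hrr
  rw [h0] at hγ
  simp only [sub_zero] at hγ
  refine ⟨mkLoop (fun z => RR (γ z : ℂ)) (continuous_RR.comp (by fun_prop))
    (fun z => RR_ne_zero (γ z).2), fun z => ?_, ?_⟩
  · show RR (γ z : ℂ) = RR (G (w + (r : ℂ) * (z : ℂ))) - RR (G w)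
    rw [h0, RR_zero, sub_zero, hγ z]
  · refine ContinuousMap.Homotopic.trans (homotopic_of_segment _ γ ?_) hγ'
    intro z t ht0 ht1
    show ((1 - t : ℝ) : ℂ) * RR (γ z : ℂ) + (t : ℂ) * (γ z : ℂ) ≠ 0
    have hpos : 0 < ‖(γ z : ℂ)‖ := norm_pos_iff.mpr (γ z).2
    have hsq : 0 < Real.sqrt ‖(γ z : ℂ)‖ := Real.sqrt_pos.mpr hpos
    have h2 : ((1 - t : ℝ) : ℂ) * RR (γ z : ℂ) + (t : ℂ) * (γ z : ℂ) =
        (((1 - t) / Real.sqrt ‖(γ z : ℂ)‖ + t : ℝ) : ℂ) * (γ z : ℂ) := by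
      unfold RR
      push_cast
      ring
    rw [h2]
    refine mul_ne_zero ?_ (γ z).2
    have h3 : 0 < (1 - t) / Real.sqrt ‖(γ z : ℂ)‖ + t := by
      rcases eq_or_lt_of_le ht0 with h | h
      · rw [← h]; simp; exact (γ z).2
      · have : 0 ≤ (1 - t) / Real.sqrt ‖(γ z : ℂ)‖ := by
          apply div_nonneg <;> linarith
        linarith
    exact_mod_cast h3.ne'

end Pool.Agent.H884R3
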