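import Pool.Agent.H884R3.MsSpec

set_option autoImplicit false

open Polynomial
open Pool.Agent.Helper881.Gp

namespace Pool.Agent.H884R3.Ms

noncomputable section

lemma alg1 (a b c d A B U V : ℂ[X]) (h : (a * A + b * B) * U = -((c * A + d * B) * V)) :
    (d * V + b * U) * (c * A + d * B) = A * (-(a * d - b * c) * U) := by
  linear_combination d * h

lemma alg2 (c7 K W : ℂ[X]) (hc : derivative c7 = 1) (h : W = c7 ^ 5 * K) :
    c7 ^ 4 ∣ W ∧ c7 ^ 4 ∣ derivative W := by
  constructor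
  · rw [h]; exact ⟨c7 * K, by ring⟩
  · refine ⟨5 * K + c7 * derivative K, ?_⟩
    rw [h, derivative_mul, derivative_pow, hc]
    simp only [Nat.cast_ofNat, map_ofNat]
    ring

lemma alg3 (u v a c : ℂ[X]) (du : derivative u = a) (dv : derivative v = c) :
    (v ^ 2 * (7 * u + v) ^ 5) * derivative (u ^ 2 * (u - 7 * v) ^ 5) -
      (u ^ 2 * (u - 7 * v) ^ 5) * derivative (v ^ 2 * (7 * u + v) ^ 5) =
    14 * (a * v - c * u) * (u * v * (u - 7 * v) ^ 4 * (7 * u + v) ^ 4) *
        (u ^ 2 + 11 * u * v - v ^ 2) := by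
  simp only [derivative_mul, derivative_pow, derivative_sub, derivative_add, derivative_ofNat,
    zero_mul, zero_add, du, dv]
  simp only [Nat.cast_ofNat, map_ofNat]
  ring

lemma alg4 (U V : ℂ[X]) (d b : ℂ) (W : ℂ[X]) (hW : W = C d * V + C b * U) :
    C d * (V * derivative U - U * derivative V) = W * derivative U - U * derivative W := by
  rw [hW, derivative_add, derivative_C_mul, derivative_C_mul]
  ring

lemma alg5 (b d u7 v7 : ℂ) (hb : b ≠ 0) (hd : d ≠ 0) (hnot : ¬ (u7 = 0 ∧ v7 = 0))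
    (hW7' : d * (v7 ^ 2 * (7 * u7 + v7) ^ 5) + b * (u7 ^ 2 * (u7 - 7 * v7) ^ 5) = 0) :
    u7 ≠ 0 ∧ v7 ≠ 0 ∧ u7 - 7 * v7 ≠ 0 ∧ 7 * u7 + v7 ≠ 0 := by
  have n1 : u7 ≠ 0 := by
    intro h1
    rw [h1] at hW7'
    apply hnot
    refine ⟨h1, ?_⟩
    have : d * v7 ^ 8 = 0 := by linear_combination v7 * hW7'
    rcases mul_eq_zero.mp this with h | h
    · exact absurd h hd
    · exact (pow_eq_zero_iff (by norm_num)).mp h
  have n2 : v7 ≠ 0 := by
    intro h1
    rw [h1] at hW7'
    apply hnot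
    refine ⟨?_, h1⟩
    have : b * u7 ^ 8 = 0 := by linear_combination u7 * hW7'
    rcases mul_eq_zero.mp this with h | h
    · exact absurd h hb
    · exact (pow_eq_zero_iff (by norm_num)).mp h
  refine ⟨n1, n2, ?_, ?_⟩
  · intro h1
    have h2 : u7 = 7 * v7 := by linear_combination h1
    rw [h2] at hW7'
    have : d * 50 ^ 5 * v7 ^ 7 = 0 := by linear_combination hW7'
    rcases mul_eq_zero.mp this with h | h
    · rcases mul_eq_zero.mp h with h | h
      · exact hd h
      · norm_num at h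
    · exact n2 ((pow_eq_zero_iff (by norm_num)).mp h)
  · intro h1
    have h2 : v7 = -7 * u7 := by linear_combination h1
    rw [h2] at hW7'
    have : b * 50 ^ 5 * u7 ^ 7 = 0 := by linear_combination hW7'
    rcases mul_eq_zero.mp this with h | h
    · rcases mul_eq_zero.mp h with h | h
      · exact hb h
      · norm_num at h
    · exact n1 ((pow_eq_zero_iff (by norm_num)).mp h)

lemma alg6 (a b c d : ℂ) (hΔ : a * d - b * c ≠ 0)
    (hquad : (C a * X + C b) ^ 2 + 11 * (C a * X + C b) * (C c * X + C d) -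
      (C c * X + C d) ^ 2 = (0 : ℂ[X])) : False := by
  have q0 := congrArg (eval 0) hquad
  have q1 := congrArg (eval 1) hquad
  have q2 := congrArg (eval (-1)) hquad
  simp only [eval_sub, eval_add, eval_mul, eval_pow, eval_C, eval_X, eval_ofNat,
    eval_zero] at q0 q1 q2
  have r0 : b ^ 2 + 11 * b * d - d ^ 2 = 0 := by linear_combination q0
  have r2 : a ^ 2 + 11 * a * c - c ^ 2 = 0 := by linear_combination q1 / 2 + q2 / 2 - q0
  have r1 : 2 * a * b + 11 * (a * d + b * c) - 2 * c * d = 0 := by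
    linear_combination q1 / 2 - q2 / 2
  have h125 : 125 * (a * d - b * c) ^ 2 = 0 := by
    linear_combination (2 * a * b + 11 * (a * d + b * c) - 2 * c * d) * r1 -
      4 * (b ^ 2 + 11 * b * d - d ^ 2) * r2
  rcases mul_eq_zero.mp h125 with h | h
  · norm_num at h
  · exact hΔ ((pow_eq_zero_iff (by norm_num)).mp h)

lemma alg7 (u v : ℂ[X]) (hu1 : u.natDegree ≤ 1) (hv1 : v.natDegree ≤ 1)
    (hdvd2 : (X - 7 : ℂ[X]) ^ 4 ∣ (u ^ 2 + 11 * u * v - v ^ 2)) :
    u ^ 2 + 11 * u * v - v ^ 2 = 0 := by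
  by_contra hne
  have h7 : (7 : ℂ[X]) = C 7 := (map_ofNat C 7).symm
  have hle := natDegree_le_of_dvd hdvd2 hne
  have h4 : ((X - 7 : ℂ[X]) ^ 4).natDegree = 4 := by
    rw [h7, natDegree_pow, natDegree_X_sub_C]
  have h2 : (u ^ 2 + 11 * u * v - v ^ 2).natDegree ≤ 2 := by
    have e1 : (u ^ 2).natDegree ≤ 2 := (natDegree_pow_le).trans (by omega)
    have e2 : (v ^ 2).natDegree ≤ 2 := (natDegree_pow_le).trans (by omega)
    have e3 : (11 * u * v).natDegree ≤ 2 := by
      have h11 : (11 : ℂ[X]) = C 11 := (map_ofNat C 11).symm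
      refine natDegree_mul_le.trans ?_
      have : (11 * u).natDegree ≤ 1 := by
        rw [h11]; exact (natDegree_C_mul_le _ _).trans hu1
      omega
    exact (natDegree_sub_le _ _).trans
      (max_le ((natDegree_add_le _ _).trans (max_le e1 e3)) e2)
  omega

lemma hcop7 (p : ℂ[X]) (hp : p.eval 7 ≠ 0) : IsCoprime (X - 7 : ℂ[X]) p := by
  have h7 : (7 : ℂ[X]) = C 7 := (map_ofNat C 7).symm
  have hprime : Irreducible (X - 7 : ℂ[X]) := by rw [h7]; exact irreducible_X_sub_C 7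
  rw [hprime.coprime_iff_not_dvd, h7, dvd_iff_isRoot]
  exact hp

lemma alg8 (a b c d : ℂ) (u v : ℂ[X]) (hd : d ≠ 0) (hb : b ≠ 0) (hΔ : a * d - b * c ≠ 0)
    (hu : u = C a * X + C b) (hv : v = C c * X + C d) (W : ℂ[X])
    (hW : W = C d * (v ^ 2 * (7 * u + v) ^ 5) + C b * (u ^ 2 * (u - 7 * v) ^ 5))
    (hWdvd : (X - 7 : ℂ[X]) ^ 5 ∣ W) : False := by
  obtain ⟨K, hK⟩ := hWdvd
  have hW7 : W.eval 7 = 0 := by
    rw [hK, eval_mul, eval_pow, eval_sub, eval_X, eval_ofNat, sub_self]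
    ring
  have eu : u.eval 7 = a * 7 + b := by simp [hu]
  have ev : v.eval 7 = c * 7 + d := by simp [hv]
  have hW7' : d * ((c * 7 + d) ^ 2 * (7 * (a * 7 + b) + (c * 7 + d)) ^ 5) +
      b * ((a * 7 + b) ^ 2 * ((a * 7 + b) - 7 * (c * 7 + d)) ^ 5) = 0 := by
    rw [hW] at hW7
    simp only [eval_add, eval_mul, eval_C, eval_pow, eval_sub, eval_ofNat, eu, ev] at hW7
    exact hW7
  have hnot : ¬ (a * 7 + b = 0 ∧ c * 7 + d = 0) := by
    rintro ⟨h1, h2⟩
    apply hΔ
    linear_combination a * h2 - c * h1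
  obtain ⟨n1, n2, n3, n4⟩ := alg5 b d _ _ hb hd hnot hW7'
  have du : derivative u = C a := by simp [hu]
  have dv : derivative v = C c := by simp [hv]
  have hdX : derivative (X - 7 : ℂ[X]) = 1 := by
    rw [derivative_sub, derivative_X, derivative_ofNat, sub_zero]
  obtain ⟨d1, d2⟩ := alg2 (X - 7) K W hdX hK
  have hdvd : (X - 7 : ℂ[X]) ^ 4 ∣ C d * ((v ^ 2 * (7 * u + v) ^ 5) *
      derivative (u ^ 2 * (u - 7 * v) ^ 5) -
      (u ^ 2 * (u - 7 * v) ^ 5) * derivative (v ^ 2 * (7 * u + v) ^ 5)) := by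
    rw [alg4 _ _ d b W hW]
    exact dvd_sub (d1.mul_right _) (d2.mul_left _)
  rw [alg3 u v _ _ du dv] at hdvd
  have hav : C a * v - C c * u = C (a * d - b * c) := by
    rw [hu, hv, C_sub, C_mul, C_mul]; ring
  rw [hav] at hdvd
  have e : C d * (14 * C (a * d - b * c) * (u * v * (u - 7 * v) ^ 4 * (7 * u + v) ^ 4) *
        (u ^ 2 + 11 * u * v - v ^ 2)) =
        (C d * (14 * C (a * d - b * c)) * (u * v * (u - 7 * v) ^ 4 * (7 * u + v) ^ 4)) *
        (u ^ 2 + 11 * u * v - v ^ 2) := by ring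
  rw [e] at hdvd
  have hdvd2 : (X - 7 : ℂ[X]) ^ 4 ∣ (u ^ 2 + 11 * u * v - v ^ 2) := by
    refine IsCoprime.dvd_of_dvd_mul_left (IsCoprime.pow_left (hcop7 _ ?_)) hdvd
    simp only [eval_mul, eval_C, eval_pow, eval_sub, eval_add, eval_ofNat, eu, ev]
    exact mul_ne_zero (mul_ne_zero hd (mul_ne_zero (by norm_num) hΔ))
      (mul_ne_zero (mul_ne_zero (mul_ne_zero n1 n2) (pow_ne_zero _ n3)) (pow_ne_zero _ n4))
  have hquad := alg7 u v (hu ▸ natDegree_linear_le) (hv ▸ natDegree_linear_le) hdvd2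
  rw [hu, hv] at hquad
  exact alg6 a b c d hΔ hquad

lemma nonconj_poly (a b c d : ℂ) (hΔ : a * d - b * c ≠ 0)
    (h : (C a * (X ^ 2 * (X - 7) ^ 5) + C b * (7 * X + 1) ^ 5) *
        ((C a * X + C b) ^ 2 * (C a * X + C b - 7 * (C c * X + C d)) ^ 5) =
      -((C c * (X ^ 2 * (X - 7) ^ 5) + C d * (7 * X + 1) ^ 5) *
        ((C c * X + C d) ^ 2 * (7 * (C a * X + C b) + (C c * X + C d)) ^ 5) : ℂ[X])) : False := by
  -- value at zero
  have h0 : b * (b ^ 2 * (b - 7 * d) ^ 5) = -(d * (d ^ 2 * (7 * b + d) ^ 5)) := by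
    have := congrArg (eval 0) h
    simpa using this
  have hd : d ≠ 0 := by
    rintro rfl
    have hb : b ^ 8 = 0 := by linear_combination h0
    have : b = 0 := pow_eq_zero_iff (by norm_num) |>.mp hb
    apply hΔ
    rw [this]; ring
  have hb : b ≠ 0 := by
    rintro rfl
    have hb : d ^ 8 = 0 := by linear_combination h0
    exact hd (pow_eq_zero_iff (by norm_num) |>.mp hb)
  have hE := alg1 _ _ _ _ _ _ _ _ h
  refine alg8 a b c d _ _ hd hb hΔ rfl rfl _ rfl ?_
  have h1 : (X - 7 : ℂ[X]) ^ 5 ∣ (C d * ((C c * X + C d) ^ 2 *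
      (7 * (C a * X + C b) + (C c * X + C d)) ^ 5) + C b * ((C a * X + C b) ^ 2 *
      (C a * X + C b - 7 * (C c * X + C d)) ^ 5)) *
      (C c * (X ^ 2 * (X - 7) ^ 5) + C d * (7 * X + 1) ^ 5) := by
    rw [hE]
    exact Dvd.dvd.mul_right (Dvd.intro_left _ rfl) _
  refine IsCoprime.dvd_of_dvd_mul_right (IsCoprime.pow_left (hcop7 _ ?_)) h1
  simp only [eval_add, eval_mul, eval_C, eval_pow, eval_X, eval_sub, eval_ofNat, eval_one]
  intro h'
  apply hd
  have : d * 50 ^ 5 = 0 := by linear_combination h'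
  rcases mul_eq_zero.mp this with h | h
  · exact h
  · norm_num at h

lemma fR_eq : fR = ι (X ^ 2 * (X - 7) ^ 5) / ι ((7 * X + 1) ^ 5) := by
  unfold fR ι
  simp only [map_mul, map_pow, map_sub, map_add, map_ofNat, map_one, RatFunc.algebraMap_X]
  rw [div_pow]
  ring

theorem not_conjugate : ¬ Conjugate fR gR := by
  rintro ⟨m, hm, h⟩
  obtain ⟨a, b, hab⟩ := exists_eq_X_add_C_of_natDegree_le_one
    (show m.num.natDegree ≤ 1 by unfold deg at hm; omega)
  obtain ⟨c, d, hcd⟩ := exists_eq_X_add_C_of_natDegree_le_one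
    (show m.denom.natDegree ≤ 1 by unfold deg at hm; omega)
  have hcop := RatFunc.isCoprime_num_denom m
  have hden := RatFunc.denom_ne_zero m
  have hdeg : max m.num.natDegree m.denom.natDegree = 1 := hm
  have hΔ : a * d - b * c ≠ 0 := by
    intro hΔ
    rw [hab, hcd] at hcop hdeg
    rw [hcd] at hden
    rcases eq_or_ne c 0 with hc | hc
    · rw [hc] at hΔ hdeg hden
      have hd : d ≠ 0 := by
        rintro rfl
        apply hden
        simp
      have ha : a = 0 := by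
        have : a * d = 0 := by linear_combination hΔ
        rcases mul_eq_zero.mp this with h | h
        · exact h
        · exact absurd h hd
      rw [ha] at hdeg
      simp at hdeg
    · obtain ⟨s, t, hst⟩ := hcop
      have e := congrArg (eval (-d / c)) hst
      have e1 : (C c * X + C d : ℂ[X]).eval (-d / c) = 0 := by
        simp only [eval_add, eval_mul, eval_C, eval_X]
        field_simp
        ring
      have e2 : (C a * X + C b : ℂ[X]).eval (-d / c) = 0 := by
        simp only [eval_add, eval_mul, eval_C, eval_X]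
        field_simp
        linear_combination -hΔ
      rw [eval_add, eval_mul, eval_mul, e1, e2, eval_one] at e
      norm_num at e
  apply nonconj_poly a b c d hΔ
  -- the functional equation
  have hm' : m = ι (C a * X + C b) / ι (C c * X + C d) := by
    rw [← hab, ← hcd]
    exact (RatFunc.num_div_denom m).symm
  have hm1 : 1 ≤ deg m := by omega
  rw [comp_g m hm1] at h
  have hv : ι (C c * X + C d) ≠ 0 := by
    apply ι_ne
    rw [← hcd]; exact hden
  set u : ℂ[X] := C a * X + C b with hu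
  set v : ℂ[X] := C c * X + C d with hvd
  set A : ℂ[X] := X ^ 2 * (X - 7) ^ 5 with hA
  set B : ℂ[X] := (7 * X + 1) ^ 5 with hB
  have hu0 : u ≠ 0 := by
    intro h0
    have e0 := congrArg (eval 0) h0
    have e1 := congrArg (eval 1) h0
    simp [hu] at e0 e1
    apply hΔ
    rw [e0] at e1 ⊢
    rw [add_zero] at e1
    rw [e1]; ring
  have huv0 : u - 7 * v ≠ 0 := by
    intro h0
    have e0 := congrArg (eval 0) h0
    have e1 := congrArg (eval 1) h0
    simp [hu, hvd] at e0 e1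
    apply hΔ
    have f0 : b = 7 * d := by linear_combination e0
    have f1 : a = 7 * c := by linear_combination e1 - e0
    rw [f0, f1]; ring
  have hBne : B ≠ 0 := by
    intro h0
    have e0 := congrArg (eval 0) h0
    simp [hB] at e0
  have hRne : C c * A + C d * B ≠ 0 := by
    intro h0
    have e0 := congrArg (eval 0) h0
    have e7 := congrArg (eval (-1 / 7)) h0
    simp only [hA, hB, eval_add, eval_mul, eval_C, eval_pow, eval_X, eval_sub, eval_ofNat,
      eval_one, eval_zero] at e0 e7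
    apply hΔ
    have d0 : d = 0 := by linear_combination e0
    have c0 : c * ((-1 / 7) ^ 2 * (-1 / 7 - 7) ^ 5) = 0 := by linear_combination e7
    have c1 : c = 0 := by
      rcases mul_eq_zero.mp c0 with h | h
      · exact h
      · norm_num at h
    rw [c1, d0]; ring
  have hcomp : comp m fR = ι (C a * A + C b * B) / ι (C c * A + C d * B) := by
    unfold Pool.Agent.Helper881.Gp.comp
    rw [hab, hcd, fR_eq]
    have hB' := ι_ne hBne
    simp only [hu, hvd, map_add, map_mul, aeval_C, aeval_X]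
    have hC : ∀ z : ℂ, algebraMap ℂ (RatFunc ℂ) z = ι (C z) := by
      intro z
      unfold ι
      rw [RatFunc.algebraMap_C]
      rfl
    rw [hC, hC, hC, hC]
    have hι : ∀ p q r s : ℂ[X], ι (p * q + r * s) = ι p * ι q + ι r * ι s := by
      intro p q r s
      unfold ι
      rw [map_add, map_mul, map_mul]
    rw [hι, hι]
    have e1 : ι (C a) * (ι A / ι B) + ι (C b) =
        (ι (C a) * ι A + ι (C b) * ι B) / ι B := by field_simp
    have e2 : ι (C c) * (ι A / ι B) + ι (C d) =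
        (ι (C c) * ι A + ι (C d) * ι B) / ι B := by field_simp
    rw [e1, e2, div_div_div_cancel_right₀ hB']
  rw [hcomp, hm'] at h
  have e3 : ι u / ι v - 7 = ι (u - 7 * v) / ι v := by
    have : ι (u - 7 * v) = ι u - 7 * ι v := by
      unfold ι; rw [map_sub, map_mul, map_ofNat]
    rw [this]; field_simp
  have e4 : 7 * (ι u / ι v) + 1 = ι (7 * u + v) / ι v := by
    have : ι (7 * u + v) = 7 * ι u + ι v := by
      unfold ι; rw [map_add, map_mul, map_ofNat]
    rw [this]; field_simp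
  rw [e3, e4, div_div_div_cancel_right₀ hv, div_pow, div_pow, div_mul_div_comm] at h
  have e5 : ι u ^ 2 * ι (u - 7 * v) ^ 5 = ι (u ^ 2 * (u - 7 * v) ^ 5) := by
    unfold ι; rw [map_mul, map_pow, map_pow]
  have e6 : ι v ^ 2 * ι (7 * u + v) ^ 5 = ι (v ^ 2 * (7 * u + v) ^ 5) := by
    unfold ι; rw [map_mul, map_pow, map_pow]
  rw [e5, e6, div_div_eq_mul_div, neg_one_mul, div_eq_div_iff (ι_ne hRne)
    (ι_ne (mul_ne_zero (pow_ne_zero _ hu0) (pow_ne_zero _ huv0)))] at h
  have hmul : ∀ p q : ℂ[X], ι (p * q) = ι p * ι q := fun p q => map_mul _ p q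
  have hneg : ∀ p : ℂ[X], ι (-p) = -ι p := fun p => map_neg _ p
  have hinj : Function.Injective ι := RatFunc.algebraMap_injective ℂ
  apply hinj
  rw [hmul (C a * A + C b * B), h, hneg, hmul (C c * A + C d * B)]
  ring

/-! ### elementary equivalence in prime degree -/

lemma comp_assoc (a b c : RatFunc ℂ) (hb : 1 ≤ deg b) (hc : 1 ≤ deg c) :
    comp a (comp b c) = comp (comp a b) c := by
  obtain ⟨σ, rfl⟩ := Pool.Agent.Helper881.Cen.Hom.exists_end b hb
  obtain ⟨τ, rfl⟩ := Pool.Agent.Helper881.Cen.Hom.exists_end c hc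
  rw [Pool.Agent.Helper881.Cen.Hom.comp_hom, Pool.Agent.Helper881.Cen.Hom.comp_hom,
    Pool.Agent.Helper881.Cen.Hom.comp_hom]
  have : τ (σ RatFunc.X) = (τ.comp σ) RatFunc.X := rfl
  rw [this, Pool.Agent.Helper881.Cen.Hom.comp_hom]
  rfl

lemma deg_comp (a b : RatFunc ℂ) (hb : 1 ≤ deg b) : deg (comp a b) = deg b * deg a := by
  obtain ⟨σ, rfl⟩ := Pool.Agent.Helper881.Cen.Hom.exists_end b hb
  rw [Pool.Agent.Helper881.Cen.Hom.comp_hom, Pool.Agent.Helper881.Cen.Hom.deg_hom]

lemma deg_comp_const (a b : RatFunc ℂ) (hb : deg b = 0) : deg (comp a b) = 0 := by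
  unfold deg at hb
  have h1 : b = RatFunc.C (b.num.coeff 0 / b.denom.coeff 0) := by
    have hn : b.num = C (b.num.coeff 0) := eq_C_of_natDegree_eq_zero (by omega)
    have hd : b.denom = C (b.denom.coeff 0) := eq_C_of_natDegree_eq_zero (by omega)
    conv_lhs => rw [← RatFunc.num_div_denom b, hn, hd]
    rw [RatFunc.algebraMap_C, RatFunc.algebraMap_C, ← map_div₀]
  set k := b.num.coeff 0 / b.denom.coeff 0
  have h2 : ∀ p : ℂ[X], aeval b p = RatFunc.C (p.eval k) := by
    intro p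
    rw [h1]
    have : (RatFunc.C k : RatFunc ℂ) = algebraMap ℂ (RatFunc ℂ) k := rfl
    rw [this, aeval_algebraMap_apply]
    rfl
  unfold Pool.Agent.Helper881.Gp.comp
  rw [h2, h2, ← map_div₀]
  unfold deg
  rw [RatFunc.num_C, RatFunc.denom_C]
  simp

lemma comp_X_left (f : RatFunc ℂ) : comp RatFunc.X f = f := by
  unfold Pool.Agent.Helper881.Gp.comp
  rw [RatFunc.num_X, RatFunc.denom_X]
  simp

lemma comp_X_right (f : RatFunc ℂ) : comp f RatFunc.X = f := by
  have h := Pool.Agent.Helper881.Cen.Hom.comp_hom f (AlgHom.id ℂ (RatFunc ℂ))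
  exact h

lemma deg_X : deg (RatFunc.X : RatFunc ℂ) = 1 := by
  unfold deg
  rw [RatFunc.num_X, RatFunc.denom_X]
  simp

lemma elem_step (f g : RatFunc ℂ) (hf : deg f = 7) (h : ElemTransform f g) :
    deg g = 7 ∧ Conjugate f g := by
  obtain ⟨h₁, h₂, e1, e2⟩ := h
  have hd2 : 1 ≤ deg h₂ := by
    by_contra hcon
    have := deg_comp_const h₁ h₂ (by omega)
    rw [← e1, hf] at this
    omega
  have hprod : deg h₂ * deg h₁ = 7 := by rw [← deg_comp _ _ hd2, ← e1, hf]
  have hd1 : 1 ≤ deg h₁ := by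
    rcases Nat.eq_zero_or_pos (deg h₁) with h | h
    · rw [h] at hprod; omega
    · exact h
  refine ⟨?_, ?_⟩
  · rw [e2, deg_comp _ _ hd1, mul_comm, hprod]
  · have hdvd : deg h₂ = 1 ∨ deg h₂ = 7 := by
      have : deg h₂ ∣ 7 := ⟨_, hprod.symm⟩
      exact (Nat.dvd_prime (by norm_num)).mp this
    rcases hdvd with h | h
    · refine ⟨h₂, h, ?_⟩
      rw [e1, e2, comp_assoc _ _ _ hd1 hd2]
    · have h1 : deg h₁ = 1 := by rw [h] at hprod; omega
      obtain ⟨σ, hσ⟩ := Pool.Agent.Helper881.Cen.Hom.exists_end h₁ hd1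
      obtain ⟨s, hs⟩ := Pool.Agent.Helper881.Cen.Hom.moebius_of_deg_one σ (by rw [hσ]; exact h1)
      have hm : deg (s.symm RatFunc.X) = 1 := by
        have := Pool.Agent.Helper881.Cen.Hom.deg_hom σ (s.symm RatFunc.X)
        rw [hs, AlgEquiv.apply_symm_apply, hσ, h1, deg_X] at this
        omega
      refine ⟨s.symm RatFunc.X, hm, ?_⟩
      have k1 : comp (s.symm RatFunc.X) h₁ = RatFunc.X := by
        rw [← hσ, Pool.Agent.Helper881.Cen.Hom.comp_hom, hs, AlgEquiv.apply_symm_apply]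
      have k2 : comp h₁ (s.symm RatFunc.X) = RatFunc.X := by
        have := Pool.Agent.Helper881.Cen.Hom.comp_hom h₁ (s.symm : RatFunc ℂ →ₐ[ℂ] RatFunc ℂ)
        have e : (s.symm : RatFunc ℂ →ₐ[ℂ] RatFunc ℂ) RatFunc.X = s.symm RatFunc.X := rfl
        rw [e] at this
        rw [this, ← hσ, hs]
        exact AlgEquiv.symm_apply_apply s RatFunc.X
      rw [e1, e2, comp_assoc _ _ _ hd1 hd2, k1, comp_X_left, ← comp_assoc _ _ _ hd1 (by omega), k2,
        comp_X_right]

lemma conj_trans (f g h : RatFunc ℂ) (hf : 1 ≤ deg f) (hg : 1 ≤ deg g) (h1 : Conjugate f g)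
    (h2 : Conjugate g h) : Conjugate f h := by
  obtain ⟨m, hm, e1⟩ := h1
  obtain ⟨k, hk, e2⟩ := h2
  refine ⟨comp k m, ?_, ?_⟩
  · rw [deg_comp _ _ (by omega), hm, hk]
  · rw [← comp_assoc _ _ _ (by omega) hf, e1, comp_assoc _ _ _ hg (by omega), e2,
      ← comp_assoc _ _ _ (by omega) (by omega)]

lemma elem_conj (f g : RatFunc ℂ) (hf : deg f = 7) (h : ElemEquivalent f g) :
    deg g = 7 ∧ Conjugate f g := by
  induction h with
  | refl =>
    exact ⟨hf, RatFunc.X, deg_X, by rw [comp_X_left, comp_X_right]⟩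
  | tail _ hstep ih =>
    obtain ⟨h1, h2⟩ := ih
    obtain ⟨h3, h4⟩ := elem_step _ _ h1 hstep
    exact ⟨h3, conj_trans _ _ _ (by omega) (by omega) h2 h4⟩

lemma deg_fR : deg fR = 7 := by
  have h := iter_f 1
  have : iter fR 1 = comp fR RatFunc.X := rfl
  rw [this, comp_X_right] at h
  rw [h, deg_AB]
  norm_num

lemma deg_gR : deg gR = 7 := by
  have h := (iter_g 0).2
  have : iter gR (2 * 0 + 1) = comp gR RatFunc.X := rfl
  rw [this, comp_X_right] at h
  rw [h, deg_BA]
  norm_num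

theorem not_elem : ¬ ElemEquivalent fR gR := fun h =>
  not_conjugate (elem_conj _ _ deg_fR h).2

end

end Pool.Agent.H884R3.Ms
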