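import Mathlib
import Pool.Agent.Helper881.GpDefs

set_option autoImplicit false

/-!
Multiplier spectrum of a rational function, conjugacy, elementary equivalence.
-/

open Polynomial
open Pool.Agent.Helper881.Gp

namespace Pool.Agent.H884R3.Ms

noncomputable section

/-- the polynomial whose roots are the finite fixed points of `F`, with multiplicities -/
def fixPoly (F : RatFunc ℂ) : ℂ[X] := F.num - X * F.denom

/-- the multiplier `F' z` of `F` at a finite fixed point `z` -/
def mult (F : RatFunc ℂ) (z : ℂ) : ℂ :=
  (derivative F.num * F.denom - F.num * derivative F.denom).eval z / (F.denom.eval z) ^ 2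

/-- the multiplier of `F` at the fixed point `∞`: the derivative of `1 / F (1 / u)` at `u = 0` -/
def multInf (F : RatFunc ℂ) : ℂ := F.denom.coeff (deg F - 1) / F.num.coeff (deg F)

/-- the multiset of the multipliers of the `deg F + 1` fixed points of `F`, counted with
multiplicity; the multiplicity of `∞` as a fixed point is `deg F + 1` minus the degree of
`fixPoly F` -/
def fixMultipliers (F : RatFunc ℂ) : Multiset ℂ :=
  (fixPoly F).roots.map (mult F) +
    Multiset.replicate (deg F + 1 - (fixPoly F).natDegree) (multInf F)

/-- `f` and `g` have the same multiplier spectrum: for every `n ≥ 1` the multisets of multipliers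
at the fixed points of the `n`-th iterates agree -/
def SameSpectrum (f g : RatFunc ℂ) : Prop :=
  ∀ n : ℕ, 1 ≤ n → fixMultipliers (iter f n) = fixMultipliers (iter g n)

/-- conjugate by a Möbius transformation: `m ∘ f = g ∘ m` -/
def Conjugate (f g : RatFunc ℂ) : Prop := ∃ m : RatFunc ℂ, deg m = 1 ∧ comp m f = comp g m

/-- `g = h₂ ∘ h₁` is an elementary transformation of `f = h₁ ∘ h₂` -/
def ElemTransform (f g : RatFunc ℂ) : Prop :=
  ∃ h₁ h₂ : RatFunc ℂ, f = comp h₁ h₂ ∧ g = comp h₂ h₁

/-- a finite chain of elementary transformations leads from `f` to `g` -/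
def ElemEquivalent (f g : RatFunc ℂ) : Prop := Relation.ReflTransGen ElemTransform f g

end

end Pool.Agent.H884R3.Ms
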