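import Pool.Agent.H884R3.MsSpec

set_option autoImplicit false

open Polynomial Filter Topology
open Pool.Agent.Helper881.Gp

namespace Pool.Agent.H884R3.Ms

noncomputable section

/-- `f` is a Lattès map: there are a lattice `ℤ ω₁ + ℤ ω₂`, an affine map `z ↦ a z + b` with
`a ω₁, a ω₂` in the lattice and a nonconstant meromorphic function `θ` with periods `ω₁, ω₂` such
that `f (θ z) = θ (a z + b)` (as meromorphic functions) -/
def Lattes (f : RatFunc ℂ) : Prop :=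
  ∃ (ω₁ ω₂ a b : ℂ) (θ : ℂ → ℂ), LinearIndependent ℝ ![ω₁, ω₂] ∧
    (∃ m₁ n₁ m₂ n₂ : ℤ, a * ω₁ = (m₁ : ℂ) * ω₁ + (n₁ : ℂ) * ω₂ ∧
      a * ω₂ = (m₂ : ℂ) * ω₁ + (n₂ : ℂ) * ω₂) ∧
    MeromorphicOn θ Set.univ ∧
    (∀ z : ℂ, θ (z + ω₁) = θ z ∧ θ (z + ω₂) = θ z) ∧
    (¬ ∃ c : ℂ, ∀ᶠ z in codiscrete ℂ, θ z = c) ∧
    (∀ᶠ z in codiscrete ℂ, RatFunc.eval (RingHom.id ℂ) (θ z) f = θ (a * z + b))

lemma codiscrete_nhdsNE {p : ℂ → Prop} (h : ∀ᶠ z in codiscrete ℂ, p z) (x : ℂ) :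
    ∀ᶠ z in 𝓝[≠] x, p z := by
  have h1 : {z | p z} ∈ codiscreteWithin (Set.univ : Set ℂ) := h
  rw [mem_codiscreteWithin_iff_forall_mem_nhdsNE] at h1
  have h2 := h1 x (Set.mem_univ x)
  rw [Set.compl_univ, Set.union_empty] at h2
  exact h2

lemma eval_fR (w : ℂ) : RatFunc.eval (RingHom.id ℂ) w fR =
    w ^ 2 * (w - 7) ^ 5 / (7 * w + 1) ^ 5 := by
  have h1 : fR = ι (X ^ 2 * (X - 7) ^ 5) / ι ((7 * X + 1) ^ 5) := by
    unfold fR ι
    simp only [map_mul, map_pow, map_sub, map_add, map_ofNat, map_one, RatFunc.algebraMap_X]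
    rw [div_pow]
    ring
  have hc := AB_coprime 1
  have e1 : An 1 = X ^ 2 * (X - 7) ^ 5 := by
    rw [An_succ, An_zero, Bn_zero, mul_one]
  have e2 : Bn 1 = (7 * X + 1) ^ 5 := by
    rw [Bn_succ, An_zero, Bn_zero]; ring
  have hB := Bn_ne 1
  rw [e1, e2] at hc
  rw [e2] at hB
  obtain ⟨c, hc0, hn, hd⟩ := bridge _ _ hc hB
  unfold RatFunc.eval
  rw [h1, hn, hd, eval₂_id, eval₂_id]
  simp only [eval_mul, eval_pow, eval_sub, eval_add, eval_X, eval_C, eval_ofNat,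
    eval_one]
  rw [mul_div_mul_left _ _ hc0]

/-- orders at a pole -/
lemma pole_step (θ : ℂ → ℂ) (x : ℂ) (k : ℤ) (hθ : MeromorphicAt θ x) (hk : k < 0)
    (ho : meromorphicOrderAt θ x = (k : WithTop ℤ)) :
    meromorphicOrderAt (fun z => θ z ^ 2 * (θ z - 7) ^ 5 / (7 * θ z + 1) ^ 5) x =
      ((2 * k : ℤ) : WithTop ℤ) := by
  have hconst : ∀ c : ℂ, (0 : WithTop ℤ) ≤ meromorphicOrderAt (fun _ : ℂ => c) x := by
    intro c
    exact AnalyticAt.meromorphicOrderAt_nonneg analyticAt_const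
  have hk' : (k : WithTop ℤ) < 0 := by exact_mod_cast hk
  have h1 : meromorphicOrderAt (fun z => θ z - 7) x = (k : WithTop ℤ) := by
    have h := meromorphicOrderAt_add_eq_left_of_lt (f₁ := θ) (f₂ := fun _ : ℂ => (-7 : ℂ))
      (MeromorphicAt.const _ x) (by rw [ho]; exact lt_of_lt_of_le hk' (hconst _))
    have e : θ + (fun _ : ℂ => (-7 : ℂ)) = fun z => θ z - 7 := by
      funext z; simp [sub_eq_add_neg]
    rw [← e, h, ho]
  have h2 : meromorphicOrderAt (fun z => 7 * θ z + 1) x = (k : WithTop ℤ) := by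
    have h7 : meromorphicOrderAt ((fun _ : ℂ => (7 : ℂ)) * θ) x = (k : WithTop ℤ) := by
      rw [meromorphicOrderAt_mul_of_ne_zero analyticAt_const (by norm_num), ho]
    have h := meromorphicOrderAt_add_eq_left_of_lt (f₁ := (fun _ : ℂ => (7 : ℂ)) * θ)
      (f₂ := fun _ : ℂ => (1 : ℂ))
      (MeromorphicAt.const _ x) (by rw [h7]; exact lt_of_lt_of_le hk' (hconst _))
    have e : (fun _ : ℂ => (7 : ℂ)) * θ + (fun _ : ℂ => (1 : ℂ)) = fun z => 7 * θ z + 1 := by
      funext z; simp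
    rw [← e, h, h7]
  have m1 : MeromorphicAt (fun z => θ z - 7) x := hθ.sub (MeromorphicAt.const _ x)
  have m2 : MeromorphicAt (fun z => 7 * θ z + 1) x :=
    ((MeromorphicAt.const _ x).mul hθ).add (MeromorphicAt.const _ x)
  have e : (fun z => θ z ^ 2 * (θ z - 7) ^ 5 / (7 * θ z + 1) ^ 5) =
      (θ ^ 2 * (fun z => θ z - 7) ^ 5) * ((fun z => 7 * θ z + 1) ^ 5)⁻¹ := by
    funext z
    simp [div_eq_mul_inv]
  rw [e, meromorphicOrderAt_mul ((hθ.pow 2).mul (m1.pow 5)) (m2.pow 5).inv,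
    meromorphicOrderAt_mul (hθ.pow 2) (m1.pow 5), meromorphicOrderAt_inv,
    meromorphicOrderAt_pow hθ, meromorphicOrderAt_pow m1, meromorphicOrderAt_pow m2, ho, h1, h2]
  have : ((2 : ℕ) : WithTop ℤ) * (k : WithTop ℤ) + ((5 : ℕ) : WithTop ℤ) * (k : WithTop ℤ) +
      -(((5 : ℕ) : WithTop ℤ) * (k : WithTop ℤ)) = ((2 * k + 5 * k - 5 * k : ℤ) : WithTop ℤ) := by
    norm_cast
  rw [this]
  congr 1
  ring

/-- the closed fundamental parallelogram -/
def para (ω₁ ω₂ : ℂ) : Set ℂ :=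
  (fun p : ℝ × ℝ => (p.1 : ℂ) * ω₁ + (p.2 : ℂ) * ω₂) '' (Set.Icc 0 1 ×ˢ Set.Icc 0 1)

lemma para_compact (ω₁ ω₂ : ℂ) : IsCompact (para ω₁ ω₂) := by
  apply IsCompact.image (isCompact_Icc.prod isCompact_Icc)
  fun_prop

lemma para_cover {α : Type*} (ω₁ ω₂ : ℂ) (hω : LinearIndependent ℝ ![ω₁, ω₂]) (h : ℂ → α)
    (h1 : ∀ z, h (z + ω₁) = h z) (h2 : ∀ z, h (z + ω₂) = h z) (z : ℂ) :
    ∃ w ∈ para ω₁ ω₂, h z = h w := by
  have hspan : Submodule.span ℝ (Set.range ![ω₁, ω₂]) = ⊤ :=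
    hω.span_eq_top_of_card_eq_finrank (by simp [Complex.finrank_real_complex])
  have hz : z ∈ Submodule.span ℝ (Set.range ![ω₁, ω₂]) := by rw [hspan]; trivial
  rw [Matrix.range_cons, Matrix.range_cons, Matrix.range_empty, Set.union_empty,
    Set.singleton_union, Submodule.mem_span_pair] at hz
  obtain ⟨s, t, hst⟩ := hz
  have p1 : Function.Periodic h ω₁ := h1
  have p2 : Function.Periodic h ω₂ := h2
  refine ⟨(Int.fract s : ℝ) * ω₁ + (Int.fract t : ℝ) * ω₂, ?_, ?_⟩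
  · exact ⟨(Int.fract s, Int.fract t), ⟨⟨Int.fract_nonneg s, (Int.fract_lt_one s).le⟩,
      ⟨Int.fract_nonneg t, (Int.fract_lt_one t).le⟩⟩, rfl⟩
  · have e : z = ((Int.fract s : ℝ) * ω₁ + (Int.fract t : ℝ) * ω₂) + (⌊s⌋ : ℤ) * ω₁ +
        (⌊t⌋ : ℤ) * ω₂ := by
      rw [← hst]
      have es : (s : ℂ) = ((Int.fract s : ℝ) : ℂ) + ((⌊s⌋ : ℤ) : ℂ) := by
        have := Int.fract_add_floor s
        exact_mod_cast this.symm
      have et : (t : ℂ) = ((Int.fract t : ℝ) : ℂ) + ((⌊t⌋ : ℤ) : ℂ) := by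
        have := Int.fract_add_floor t
        exact_mod_cast this.symm
      rw [Complex.real_smul, Complex.real_smul, es, et]
      ring
    conv_lhs => rw [e]
    rw [p2.int_mul ⌊t⌋ _, p1.int_mul ⌊s⌋ _]

/-- the orders of a periodic meromorphic function are bounded below -/
lemma order_bound (θ : ℂ → ℂ) (ω₁ ω₂ : ℂ) (hω : LinearIndependent ℝ ![ω₁, ω₂])
    (hθ : MeromorphicOn θ Set.univ) (hper : ∀ z : ℂ, θ (z + ω₁) = θ z ∧ θ (z + ω₂) = θ z) :
    ∃ M : ℤ, ∀ z, (M : WithTop ℤ) ≤ meromorphicOrderAt θ z := by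
  have hp : ∀ ω : ℂ, (∀ z, θ (z + ω) = θ z) →
      ∀ z, meromorphicOrderAt θ (z + ω) = meromorphicOrderAt θ z := by
    intro ω h z
    rw [← meromorphicOrderAt_comp_add_const_eq_meromorphicOrderAt]
    congr 1
    funext w
    exact h w
  have hK : ∃ M : ℤ, ∀ z ∈ para ω₁ ω₂, (M : WithTop ℤ) ≤ meromorphicOrderAt θ z := by
    apply (para_compact ω₁ ω₂).induction_on (p := fun S : Set ℂ =>
      ∃ M : ℤ, ∀ z ∈ S, (M : WithTop ℤ) ≤ meromorphicOrderAt θ z)
    · exact ⟨0, fun z hz => absurd hz (Set.notMem_empty z)⟩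
    · rintro s t hst ⟨M, hM⟩
      exact ⟨M, fun z hz => hM z (hst hz)⟩
    · rintro s t ⟨M, hM⟩ ⟨N, hN⟩
      refine ⟨min M N, fun z hz => ?_⟩
      rcases hz with hz | hz
      · exact le_trans (by exact_mod_cast min_le_left M N) (hM z hz)
      · exact le_trans (by exact_mod_cast min_le_right M N) (hN z hz)
    · intro x _
      have hx := (hθ x (Set.mem_univ x)).eventually_analyticAt
      obtain ⟨M, hM⟩ : ∃ M : ℤ, (M : WithTop ℤ) ≤ meromorphicOrderAt θ x := by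
        cases h : meromorphicOrderAt θ x with
        | top => exact ⟨0, le_top⟩
        | coe m => exact ⟨m, le_refl _⟩
      refine ⟨{z | ((min M 0 : ℤ) : WithTop ℤ) ≤ meromorphicOrderAt θ z}, ?_, min M 0,
        fun z hz => hz⟩
      apply mem_nhdsWithin_of_mem_nhds
      have h2 : ∀ᶠ z in 𝓝[≠] x, ((min M 0 : ℤ) : WithTop ℤ) ≤ meromorphicOrderAt θ z := by
        filter_upwards [hx] with z hz
        exact le_trans (by exact_mod_cast min_le_right M 0) hz.meromorphicOrderAt_nonneg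
      have h3 : ((min M 0 : ℤ) : WithTop ℤ) ≤ meromorphicOrderAt θ x :=
        le_trans (by exact_mod_cast min_le_left M 0) hM
      rw [eventually_nhdsWithin_iff] at h2
      filter_upwards [h2] with z hz
      rcases eq_or_ne z x with rfl | hne
      · exact h3
      · exact hz hne
  obtain ⟨M, hM⟩ := hK
  refine ⟨M, fun z => ?_⟩
  obtain ⟨w, hw, hzw⟩ := para_cover ω₁ ω₂ hω (meromorphicOrderAt θ)
    (hp ω₁ fun z => (hper z).1) (hp ω₂ fun z => (hper z).2) z
  rw [hzw]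
  exact hM w hw

/-- a nonconstant doubly periodic meromorphic function has a pole -/
lemma exists_pole (θ : ℂ → ℂ) (ω₁ ω₂ : ℂ) (hω : LinearIndependent ℝ ![ω₁, ω₂])
    (hθ : MeromorphicOn θ Set.univ) (hper : ∀ z : ℂ, θ (z + ω₁) = θ z ∧ θ (z + ω₂) = θ z)
    (hnc : ¬ ∃ c : ℂ, ∀ᶠ z in codiscrete ℂ, θ z = c) :
    ∃ z, meromorphicOrderAt θ z < 0 := by
  by_contra hcon
  push Not at hcon
  set g := toMeromorphicNFOn θ Set.univ with hg
  have hNF : MeromorphicNFOn g Set.univ := meromorphicNFOn_toMeromorphicNFOn θ Set.univ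
  have han : ∀ z, AnalyticAt ℂ g z := by
    intro z
    rw [← (hNF (Set.mem_univ z)).meromorphicOrderAt_nonneg_iff_analyticAt, hg,
      meromorphicOrderAt_toMeromorphicNFOn hθ (Set.mem_univ z)]
    exact hcon z
  have hdiff : Differentiable ℂ g := fun z => (han z).differentiableAt
  have hcont : Continuous g := hdiff.continuous
  have hgθ : ∀ z, g =ᶠ[𝓝[≠] z] θ := fun z => hθ.toMeromorphicNFOn_eq_self_on_nhdsNE (Set.mem_univ z)
  have hgp : ∀ ω : ℂ, (∀ z, θ (z + ω) = θ z) → ∀ z, g (z + ω) = g z := by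
    intro ω h z
    have t1 : Tendsto (fun y => y + ω) (𝓝[≠] z) (𝓝[≠] (z + ω)) := by
      apply tendsto_nhdsWithin_of_tendsto_nhds_of_eventually_within
      · exact ((continuous_id.add continuous_const).tendsto z).mono_left nhdsWithin_le_nhds
      · filter_upwards [self_mem_nhdsWithin] with y hy
        intro h'
        exact hy (add_right_cancel h')
    have e1 : ∀ᶠ y in 𝓝[≠] z, g (y + ω) = g y := by
      filter_upwards [t1.eventually (hgθ (z + ω)), hgθ z] with y h1 h2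
      rw [h1, h2, h]
    have l1 : Tendsto (fun y => g (y + ω)) (𝓝[≠] z) (𝓝 (g (z + ω))) :=
      ((hcont.comp (continuous_id.add continuous_const)).tendsto z).mono_left nhdsWithin_le_nhds
    have l2 : Tendsto (fun y => g (y + ω)) (𝓝[≠] z) (𝓝 (g z)) :=
      ((hcont.tendsto z).mono_left nhdsWithin_le_nhds).congr'
        (by filter_upwards [e1] with y hy using hy.symm)
    exact tendsto_nhds_unique l1 l2
  have hbdd : Bornology.IsBounded (Set.range g) := by
    have hsub : Set.range g ⊆ g '' para ω₁ ω₂ := by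
      rintro _ ⟨z, rfl⟩
      obtain ⟨w, hw, hzw⟩ := para_cover ω₁ ω₂ hω g (hgp ω₁ fun z => (hper z).1)
        (hgp ω₂ fun z => (hper z).2) z
      exact ⟨w, hw, hzw.symm⟩
    exact ((para_compact ω₁ ω₂).image hcont).isBounded.subset hsub
  apply hnc
  refine ⟨g 0, ?_⟩
  have he : θ =ᶠ[codiscreteWithin (Set.univ : Set ℂ)] g := toMeromorphicNFOn_eqOn_codiscrete hθ
  filter_upwards [he] with z hz
  rw [hz]
  exact hdiff.apply_eq_apply_of_bounded hbdd z 0

theorem not_lattes : ¬ Lattes fR := by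
  rintro ⟨ω₁, ω₂, a, b, θ, hω, -, hθ, hper, hnc, hfe⟩
  obtain ⟨M, hM⟩ := order_bound θ ω₁ ω₂ hω hθ hper
  obtain ⟨z0, hz0⟩ := exists_pole θ ω₁ ω₂ hω hθ hper hnc
  -- one step
  have hstep : ∀ z : ℂ, ∀ k : ℤ, k < 0 → meromorphicOrderAt θ z = (k : WithTop ℤ) →
      meromorphicOrderAt θ (a * z + b) = ((2 * k : ℤ) : WithTop ℤ) := by
    intro z k hk ho
    have h1 := pole_step θ z k (hθ z (Set.mem_univ z)) hk ho
    have h2 : meromorphicOrderAt (θ ∘ (fun y => a * y + b)) z = ((2 * k : ℤ) : WithTop ℤ) := by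
      rw [← h1]
      apply meromorphicOrderAt_congr
      filter_upwards [codiscrete_nhdsNE hfe z] with y hy
      show θ (a * y + b) = _
      rw [← hy, eval_fR]
    have ha : a ≠ 0 := by
      rintro rfl
      have e : (θ ∘ (fun y : ℂ => (0 : ℂ) * y + b)) = fun _ => θ b := by
        funext y; simp
      rw [e] at h2
      have h3 : (0 : WithTop ℤ) ≤ meromorphicOrderAt (fun _ : ℂ => θ b) z :=
        AnalyticAt.meromorphicOrderAt_nonneg analyticAt_const
      rw [h2] at h3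
      have h4 : (0 : ℤ) ≤ 2 * k := by exact_mod_cast h3
      omega
    have h3 : AnalyticAt ℂ (fun y : ℂ => a * y + b) z := by fun_prop
    have h4 : deriv (fun y : ℂ => a * y + b) z ≠ 0 := by
      have : HasDerivAt (fun y : ℂ => a * y + b) a z := by
        simpa using ((hasDerivAt_id z).const_mul a).add_const b
      rw [this.deriv]; exact ha
    rw [meromorphicOrderAt_comp_of_deriv_ne_zero h3 h4] at h2
    exact h2
  -- iterate
  have hiter : ∀ n : ℕ, ∃ z : ℂ, ∃ k : ℤ, k ≤ -(n + 1 : ℤ) ∧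
      meromorphicOrderAt θ z = (k : WithTop ℤ) := by
    intro n
    induction n with
    | zero =>
      cases h : meromorphicOrderAt θ z0 with
      | top => rw [h] at hz0; exact absurd hz0 (by simp)
      | coe k =>
        refine ⟨z0, k, ?_, h⟩
        rw [h] at hz0
        have : k < 0 := by exact_mod_cast hz0
        push_cast
        omega
    | succ n ih =>
      obtain ⟨z, k, hk, ho⟩ := ih
      refine ⟨a * z + b, 2 * k, ?_, hstep z k (by omega) ho⟩
      push_cast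
      omega
  obtain ⟨z, k, hk, ho⟩ := hiter (M.natAbs)
  have h1 := hM z
  rw [ho] at h1
  have h2 : M ≤ k := by exact_mod_cast h1
  omega

end

end Pool.Agent.H884R3.Ms
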