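import Pool.Agent.H884R3.MsRoots

set_option autoImplicit false

open Polynomial

namespace Pool.Agent.H884R3.Ms

noncomputable section

/-! degrees of `P_n`, `Q_n` and of `Phi` -/
lemma PQ_degree (n : ℕ) : (Pn n).natDegree = 7 ^ n ∧
    (1 ≤ n → (Qn n).natDegree + 2 ≤ 7 ^ n) := by
  obtain ⟨h1, h2⟩ := expand_AB n
  obtain ⟨a1, a2, a3, a4⟩ := AB_degree n
  have e1 : (Pn n).natDegree = 7 ^ n := by
    have h := congrArg natDegree h1
    rw [natDegree_expand, natDegree_pow, a2] at h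
    omega
  have e2 : (Qn n).natDegree = (Bn n).natDegree := by
    have h := congrArg natDegree h2
    rw [natDegree_expand, natDegree_pow] at h
    omega
  exact ⟨e1, fun hn => by rw [e2]; exact a3 hn⟩

lemma natDegree_sub_aux (P Q : ℂ[X]) (D : ℕ) (h1 : P.natDegree = D) (h2 : Q.natDegree + 2 ≤ D) :
    (P - X * Q).natDegree = D := by
  rw [← h1]
  apply natDegree_sub_eq_left_of_natDegree_lt
  have : (X * Q).natDegree ≤ 1 + Q.natDegree := by
    refine natDegree_mul_le.trans ?_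
    rw [natDegree_X]
  omega

lemma natDegree_add_aux (P Q : ℂ[X]) (D : ℕ) (h1 : P.natDegree = D) (h2 : Q.natDegree + 2 ≤ D) :
    (Q + X * P).natDegree = D + 1 := by
  have hP : P ≠ 0 := by
    rintro rfl
    rw [natDegree_zero] at h1
    omega
  have h3 : (X * P).natDegree = D + 1 := by
    rw [natDegree_X_mul hP, h1]
  rw [natDegree_add_eq_right_of_natDegree_lt (by omega), h3]

lemma Phi_natDegree (n : ℕ) (hn : 1 ≤ n) : (Phi n).natDegree = 7 ^ n :=
  natDegree_sub_aux _ _ _ (PQ_degree n).1 ((PQ_degree n).2 hn)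

lemma Phi_ne_zero (n : ℕ) (hn : 1 ≤ n) : Phi n ≠ 0 := by
  intro h
  have := Phi_natDegree n hn
  rw [h, natDegree_zero] at this
  exact absurd this.symm (by positivity)

lemma Psi_ne_zero (n : ℕ) (hn : 1 ≤ n) : Psi n ≠ 0 := by
  intro h
  have := natDegree_add_aux (Pn n) (Qn n) (7 ^ n) (PQ_degree n).1 ((PQ_degree n).2 hn)
  unfold Psi at h
  rw [h, natDegree_zero] at this
  exact absurd this.symm (Nat.succ_ne_zero _)

lemma PQ_coprime_eval (n : ℕ) (z : ℂ) : (Pn n).eval z ≠ 0 ∨ (Qn n).eval z ≠ 0 := by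
  by_contra hcon
  push Not at hcon
  obtain ⟨h1, h2⟩ := AB_pow n z
  obtain ⟨u, v, huv⟩ := AB_coprime n
  have := congrArg (eval (z ^ 5)) huv
  rw [eval_add, eval_mul, eval_mul, h1, h2, hcon.1, hcon.2, eval_one] at this
  norm_num at this

section Kappa

variable {κ : ℂ}

/-- the involution `T z = (κ - z) / (κ z + 1)` -/
def T (κ z : ℂ) : ℂ := (κ - z) / (κ * z + 1)

/-- behaviour of `E^n` under `T`, `n` odd -/
lemma T_rel (hκ : κ ^ 2 + κ - 1 = 0) (m : ℕ) : ∃ c : ℂ, c ≠ 0 ∧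
    (∀ z : ℂ, κ * z + 1 ≠ 0 →
      (κ * z + 1) ^ 7 ^ (2 * m + 1) * (Pn (2 * m + 1)).eval (T κ z) =
        c * (κ * (Pn (2 * m + 1)).eval z + (Qn (2 * m + 1)).eval z) ∧
      (κ * z + 1) ^ 7 ^ (2 * m + 1) * (Qn (2 * m + 1)).eval (T κ z) =
        c * ((Pn (2 * m + 1)).eval z - κ * (Qn (2 * m + 1)).eval z)) ∧
    (κ ^ 7 ^ (2 * m + 1) * (Pn (2 * m + 1)).eval (-1 / κ) = c * κ ∧
      κ ^ 7 ^ (2 * m + 1) * (Qn (2 * m + 1)).eval (-1 / κ) = c) := by
  obtain ⟨h0, h1, h2⟩ := kap_ne hκ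
  obtain ⟨c, hc, h⟩ := kap_iter hκ m
  refine ⟨c, hc, fun z hz => ?_, ?_⟩
  · have e := h (z, 1)
    simp only [mul_one, PQ_eval] at e
    rw [PQ_homog _ _ _ hz] at e
    exact ⟨congrArg Prod.fst e, congrArg Prod.snd e⟩
  · have e := h (1, 0)
    have e10 : ∀ n : ℕ, es^[n] ((1 : ℂ), (0 : ℂ)) = (1, 0) := by
      intro n
      induction n with
      | zero => rfl
      | succ n ih =>
        rw [Function.iterate_succ_apply', ih]
        unfold es
        norm_num
    simp only [e10, mul_one, mul_zero, add_zero, zero_sub, sub_zero] at e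
    rw [PQ_homog _ _ _ h0] at e
    exact ⟨congrArg Prod.fst e, congrArg Prod.snd e⟩

lemma Phi_kap_ne (hκ : κ ^ 2 + κ - 1 = 0) (m : ℕ) : (Phi (2 * m + 1)).eval (-1 / κ) ≠ 0 := by
  obtain ⟨h0, h1, h2⟩ := kap_ne hκ
  obtain ⟨c, hc, -, e1, e2⟩ := T_rel hκ m
  intro h
  unfold Phi at h
  rw [eval_sub, eval_mul, eval_X] at h
  have h3 : c * (κ ^ 2 + 1) = 0 := by
    have e3 : κ * (-1 / κ) = -1 := by field_simp
    linear_combination -κ * e1 - e2 + κ ^ 7 ^ (2 * m + 1) * κ * h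
      + κ ^ 7 ^ (2 * m + 1) * eval (-1 / κ) (Qn (2 * m + 1)) * e3
  rcases mul_eq_zero.1 h3 with h4 | h4
  · exact hc h4
  · exact h1 h4

lemma kz_ne_of_root (hκ : κ ^ 2 + κ - 1 = 0) (m : ℕ) {ρ : ℂ} (hρ : ρ ∈ (Phi (2 * m + 1)).roots) :
    κ * ρ + 1 ≠ 0 := by
  obtain ⟨h0, h1, h2⟩ := kap_ne hκ
  intro h
  have : ρ = -1 / κ := by
    field_simp
    linear_combination h
  rw [mem_roots (Phi_ne_zero _ (by omega)), IsRoot, this] at hρ
  exact Phi_kap_ne hκ m hρ

lemma Psi_roots (hκ : κ ^ 2 + κ - 1 = 0) (m : ℕ) :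
    (Psi (2 * m + 1)).roots = (-1 / κ) ::ₘ (Phi (2 * m + 1)).roots.map (T κ) := by
  obtain ⟨h0, h1, h2⟩ := kap_ne hκ
  obtain ⟨c, hc, hT, -⟩ := T_rel hκ m
  set Φ := Phi (2 * m + 1) with hΦ
  have hΦ0 : Φ ≠ 0 := Phi_ne_zero _ (by omega)
  have hcard : Multiset.card Φ.roots = 7 ^ (2 * m + 1) := by
    rw [← Phi_natDegree (2 * m + 1) (by omega)]
    exact (splits_iff_card_roots.mp (IsAlgClosed.splits Φ))
  set K : ℂ := (c * (κ ^ 2 + 1))⁻¹ * Φ.leadingCoeff * κ *
    (Φ.roots.map (fun ρ => -(κ * ρ + 1))).prod with hK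
  have hKne : K ≠ 0 := by
    rw [hK]
    refine mul_ne_zero (mul_ne_zero (mul_ne_zero (inv_ne_zero (mul_ne_zero hc h1))
      (leadingCoeff_ne_zero.mpr hΦ0)) h0) ?_
    apply Multiset.prod_ne_zero
    intro hmem
    rw [Multiset.mem_map] at hmem
    obtain ⟨ρ, hρ, hρ'⟩ := hmem
    exact kz_ne_of_root hκ m hρ (neg_eq_zero.mp hρ')
  have hpoly : Psi (2 * m + 1) =
      C K * ((((-1 / κ) ::ₘ Φ.roots.map (T κ))).map (fun a => X - C a)).prod := by
    apply eq_of_infinite_eval_eq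
    apply Set.Infinite.mono (s := ({-1 / κ} : Set ℂ)ᶜ)
    · intro z hz
      have hz' : κ * z + 1 ≠ 0 := by
        intro h
        apply hz
        rw [Set.mem_singleton_iff]
        field_simp
        linear_combination h
      obtain ⟨t1, t2⟩ := hT z hz'
      rw [Set.mem_ofPred_eq, Multiset.map_cons, Multiset.prod_cons, eval_mul, eval_mul, eval_C,
        eval_sub, eval_X, eval_C, eval_multiset_prod, Multiset.map_map, Multiset.map_map]
      have e1 : c * (κ ^ 2 + 1) * (Psi (2 * m + 1)).eval z =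
          (κ * z + 1) * ((κ * z + 1) ^ 7 ^ (2 * m + 1) * Φ.eval (T κ z)) := by
        have e2 : T κ z * (κ * z + 1) = κ - z := by
          unfold T; field_simp
        rw [hΦ]
        unfold Phi Psi
        rw [eval_add, eval_sub, eval_mul, eval_mul, eval_X, eval_X]
        linear_combination -(κ * z + 1) * t1 + (κ - z) * t2
          + (κ * z + 1) ^ 7 ^ (2 * m + 1) * eval (T κ z) (Qn (2 * m + 1)) * e2
      have e3 : (κ * z + 1) ^ 7 ^ (2 * m + 1) * Φ.eval (T κ z) =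
          Φ.leadingCoeff * ((Φ.roots.map (fun ρ => -(κ * ρ + 1))).prod *
            (Φ.roots.map (fun ρ => z - T κ ρ)).prod) := by
        rw [(IsAlgClosed.splits Φ).eval_eq_prod_roots, ← Multiset.prod_map_mul]
        have e4 : (κ * z + 1) ^ 7 ^ (2 * m + 1) =
            (Φ.roots.map (fun _ => κ * z + 1)).prod := by
          rw [Multiset.map_const', Multiset.prod_replicate, hcard]
        rw [e4, mul_left_comm, ← Multiset.prod_map_mul]
        congr 2
        apply Multiset.map_congr rfl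
        intro ρ hρ
        have hρ' := kz_ne_of_root hκ m hρ
        unfold T
        field_simp
        ring
      have e5 : (Φ.roots.map ((Polynomial.eval z ∘ (fun a => X - C a)) ∘ T κ)).prod =
          (Φ.roots.map (fun ρ => z - T κ ρ)).prod := by
        congr 1
        apply Multiset.map_congr rfl
        intro ρ _
        simp
      rw [e5]
      have e6 : κ * (z - -1 / κ) = κ * z + 1 := by field_simp; ring
      have e7 : (Psi (2 * m + 1)).eval z = (c * (κ ^ 2 + 1))⁻¹ *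
          ((κ * z + 1) * ((κ * z + 1) ^ 7 ^ (2 * m + 1) * Φ.eval (T κ z))) := by
        rw [← e1, inv_mul_cancel_left₀ (mul_ne_zero hc h1)]
      rw [e7, e3, hK, ← e6]
      ring
    · exact (Set.finite_singleton _).infinite_compl
  rw [hpoly, roots_C_mul _ hKne, roots_multiset_prod_X_sub_C]

end Kappa

/-! ### multipliers -/

/-- multiplier of `A / B` at a fixed point `z` -/
def mu (A B : ℂ[X]) (z : ℂ) : ℂ :=
  (derivative A * B - A * derivative B).eval z / (B.eval z) ^ 2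

lemma mu_pow5 (A B P Q : ℂ[X]) (hA : expand ℂ 5 A = P ^ 5) (hB : expand ℂ 5 B = Q ^ 5) (z : ℂ)
    (hz : z ≠ 0) (hQ : Q.eval z ≠ 0) (hfix : P.eval z = z * Q.eval z) :
    mu A B (z ^ 5) = mu P Q z := by
  have a0 : A.eval (z ^ 5) = (P.eval z) ^ 5 := by
    have := congrArg (eval z) hA
    rwa [expand_eval, eval_pow] at this
  have b0 : B.eval (z ^ 5) = (Q.eval z) ^ 5 := by
    have := congrArg (eval z) hB
    rwa [expand_eval, eval_pow] at this
  have a1 : (derivative A).eval (z ^ 5) * (5 * z ^ 4) =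
      5 * P.eval z ^ 4 * (derivative P).eval z := by
    have := congrArg (fun p => eval z (derivative p)) hA
    simp only [derivative_expand, derivative_pow] at this
    simpa [expand_eval] using this
  have b1 : (derivative B).eval (z ^ 5) * (5 * z ^ 4) =
      5 * Q.eval z ^ 4 * (derivative Q).eval z := by
    have := congrArg (fun p => eval z (derivative p)) hB
    simp only [derivative_expand, derivative_pow] at this
    simpa [expand_eval] using this
  unfold mu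
  rw [eval_sub, eval_mul, eval_mul, eval_sub, eval_mul, eval_mul, a0, b0, hfix]
  rw [hfix] at a1
  have a2 : (derivative A).eval (z ^ 5) = Q.eval z ^ 4 * (derivative P).eval z := by
    have : (5 * z ^ 4 : ℂ) ≠ 0 := mul_ne_zero (by norm_num) (pow_ne_zero _ hz)
    apply mul_right_cancel₀ this
    rw [a1]; ring
  have b2 : (derivative B).eval (z ^ 5) = Q.eval z ^ 4 * (derivative Q).eval z / z ^ 4 := by
    field_simp
    linear_combination b1 / 5
  rw [a2, b2]
  field_simp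
  try ring

lemma mu_zero (A B : ℂ[X]) (h0 : A.eval 0 = 0) (h1 : (derivative A).eval 0 = 0) : mu A B 0 = 0 := by
  unfold mu
  rw [eval_sub, eval_mul, eval_mul, h0, h1]
  simp

lemma A_at_zero (n : ℕ) : (An n).eval 0 = 0 ∧ (1 ≤ n → (derivative (An n)).eval 0 = 0) := by
  induction n with
  | zero => exact ⟨by rw [An_zero, eval_X], by omega⟩
  | succ n ih =>
    rw [An_succ]
    refine ⟨by simp [ih.1], fun _ => ?_⟩
    rw [derivative_mul, derivative_pow, eval_add, eval_mul, eval_mul, eval_mul, eval_pow, ih.1]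
    simp [ih.1]

lemma P_at_zero (n : ℕ) : (Pn n).eval 0 = 0 ∧ (1 ≤ n → (derivative (Pn n)).eval 0 = 0) := by
  induction n with
  | zero => exact ⟨by rw [Pn_zero, eval_X], by omega⟩
  | succ n ih =>
    rw [Pn_succ]
    refine ⟨by simp [ih.1], fun _ => ?_⟩
    rw [derivative_mul, derivative_pow, eval_add, eval_mul, eval_mul, eval_mul, eval_pow, ih.1]
    simp [ih.1]

lemma wronskian_succ (n : ℕ) :
    derivative (Pn (n + 1)) * Qn (n + 1) - Pn (n + 1) * derivative (Qn (n + 1)) =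
      14 * Pn n * Qn n * (Pn n ^ 10 + 11 * Pn n ^ 5 * Qn n ^ 5 - Qn n ^ 10) *
        (derivative (Pn n) * Qn n - Pn n * derivative (Qn n)) := by
  rw [Pn_succ, Qn_succ]
  simp only [derivative_mul, derivative_pow, derivative_sub, derivative_add, derivative_ofNat,
    zero_mul, zero_add]
  simp only [Nat.cast_ofNat, map_ofNat]
  ring

lemma wronskian_kap {κ : ℂ} (hκ : κ ^ 2 + κ - 1 = 0) (n : ℕ) :
    (derivative (Pn (n + 1)) * Qn (n + 1) - Pn (n + 1) * derivative (Qn (n + 1))).eval (-1 / κ)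
      = 0 := by
  obtain ⟨h0, h1, h2⟩ := kap_ne hκ
  induction n with
  | zero =>
    rw [wronskian_succ, Pn_zero, Qn_zero]
    simp only [eval_mul, eval_sub, eval_add, eval_pow, eval_X, eval_one, eval_ofNat]
    have hk5 : κ ^ 5 = 5 * κ - 3 := by
      linear_combination (κ ^ 3 - κ ^ 2 + 2 * κ - 3) * hκ
    have : (-1 / κ) ^ 10 + 11 * (-1 / κ) ^ 5 * 1 ^ 5 - 1 ^ 10 = 0 := by
      have hk10 : κ ^ 10 = (5 * κ - 3) ^ 2 := by rw [← hk5]; ring
      rw [div_pow, div_pow, hk10, hk5]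
      have h5 : 5 * κ - 3 ≠ 0 := by rw [← hk5]; exact pow_ne_zero _ h0
      field_simp
      linear_combination (-25) * hκ
    rw [this]; ring
  | succ n ih =>
    rw [wronskian_succ, eval_mul, ih, mul_zero]

lemma mu_kap {κ : ℂ} (hκ : κ ^ 2 + κ - 1 = 0) (n : ℕ) (hn : 1 ≤ n) :
    mu (-Qn n) (Pn n) (-1 / κ) = 0 := by
  obtain ⟨k, rfl⟩ := Nat.exists_eq_add_of_le' hn
  have h := wronskian_kap hκ k
  unfold mu
  have e : derivative (-Qn (k + 1)) * Pn (k + 1) - -Qn (k + 1) * derivative (Pn (k + 1)) =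
      derivative (Pn (k + 1)) * Qn (k + 1) - Pn (k + 1) * derivative (Qn (k + 1)) := by
    rw [derivative_neg]; ring
  rw [e, h, zero_div]

lemma mu_T {κ : ℂ} (hκ : κ ^ 2 + κ - 1 = 0) (m : ℕ) (ρ : ℂ)
    (hρ : ρ ∈ (Phi (2 * m + 1)).roots) :
    mu (-Qn (2 * m + 1)) (Pn (2 * m + 1)) (T κ ρ) = mu (Pn (2 * m + 1)) (Qn (2 * m + 1)) ρ := by
  obtain ⟨h0, h1, h2⟩ := kap_ne hκ
  obtain ⟨c, hc, hT, -⟩ := T_rel hκ m
  have hkρ := kz_ne_of_root hκ m hρ
  have hfix : (Pn (2 * m + 1)).eval ρ = ρ * (Qn (2 * m + 1)).eval ρ := by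
    rw [mem_roots (Phi_ne_zero _ (by omega)), IsRoot] at hρ
    unfold Phi at hρ
    rw [eval_sub, eval_mul, eval_X] at hρ
    linear_combination hρ
  have hcop := PQ_coprime_eval (2 * m + 1) ρ
  set P := Pn (2 * m + 1) with hP
  set Q := Qn (2 * m + 1) with hQ
  have hQρ : Q.eval ρ ≠ 0 := by
    rcases hcop with h | h
    · intro h'
      apply h
      rw [hfix, h', mul_zero]
    · exact h
  have hPT : P.eval (T κ ρ) ≠ 0 := by
    intro h
    have h3 := (hT ρ hkρ).1
    rw [h, mul_zero, hfix] at h3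
    have h4 : c * ((κ * ρ + 1) * Q.eval ρ) = 0 := by linear_combination -h3
    rcases mul_eq_zero.1 h4 with h5 | h5
    · exact hc h5
    · rcases mul_eq_zero.1 h5 with h6 | h6
      · exact hkρ h6
      · exact hQρ h6
  have hden : κ * P.eval ρ + Q.eval ρ ≠ 0 := by
    rw [hfix]
    have : κ * (ρ * Q.eval ρ) + Q.eval ρ = (κ * ρ + 1) * Q.eval ρ := by ring
    rw [this]
    exact mul_ne_zero hkρ hQρ
  -- derivative of T
  have dT : HasDerivAt (T κ) (-(κ ^ 2 + 1) / (κ * ρ + 1) ^ 2) ρ := by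
    have d1 : HasDerivAt (fun z : ℂ => κ - z) (-1) ρ := by
      simpa using (hasDerivAt_id ρ).const_sub κ
    have d2 : HasDerivAt (fun z : ℂ => κ * z + 1) κ ρ := by
      simpa using ((hasDerivAt_id ρ).const_mul κ).add_const 1
    have d3 := d1.div d2 hkρ
    refine d3.congr_deriv ?_
    congr 1
    ring
  have dQP : HasDerivAt (fun w : ℂ => -(Q.eval w) / P.eval w)
      ((-(derivative Q).eval (T κ ρ) * P.eval (T κ ρ) - -(Q.eval (T κ ρ)) *
        (derivative P).eval (T κ ρ)) / (P.eval (T κ ρ)) ^ 2) (T κ ρ) :=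
    ((Q.hasDerivAt (T κ ρ)).neg).div (P.hasDerivAt (T κ ρ)) hPT
  have d4 := dQP.comp ρ dT
  have d5 : HasDerivAt (fun z : ℂ => (κ * Q.eval z - P.eval z) / (κ * P.eval z + Q.eval z))
      (((κ * (derivative Q).eval ρ - (derivative P).eval ρ) * (κ * P.eval ρ + Q.eval ρ) -
        (κ * Q.eval ρ - P.eval ρ) * (κ * (derivative P).eval ρ + (derivative Q).eval ρ)) /
        (κ * P.eval ρ + Q.eval ρ) ^ 2) ρ :=
    (((Q.hasDerivAt ρ).const_mul κ).sub (P.hasDerivAt ρ)).div
      (((P.hasDerivAt ρ).const_mul κ).add (Q.hasDerivAt ρ)) hden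
  have hev : (fun z : ℂ => (κ * Q.eval z - P.eval z) / (κ * P.eval z + Q.eval z)) =ᶠ[nhds ρ]
      ((fun w : ℂ => -(Q.eval w) / P.eval w) ∘ T κ) := by
    have hopen : {z : ℂ | κ * z + 1 ≠ 0} ∈ nhds ρ := by
      apply IsOpen.mem_nhds _ hkρ
      exact isOpen_ne_fun (by fun_prop) continuous_const
    filter_upwards [hopen] with z hz
    obtain ⟨t1, t2⟩ := hT z hz
    have hp : (κ * z + 1) ^ 7 ^ (2 * m + 1) ≠ 0 := pow_ne_zero _ hz
    show _ = -(Q.eval (T κ z)) / P.eval (T κ z)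
    calc (κ * Q.eval z - P.eval z) / (κ * P.eval z + Q.eval z)
        = (c * (κ * Q.eval z - P.eval z)) / (c * (κ * P.eval z + Q.eval z)) := by
          rw [mul_div_mul_left _ _ hc]
      _ = (-((κ * z + 1) ^ 7 ^ (2 * m + 1) * Q.eval (T κ z))) /
          ((κ * z + 1) ^ 7 ^ (2 * m + 1) * P.eval (T κ z)) := by
          rw [t1, t2]; congr 1; ring
      _ = -(Q.eval (T κ z)) / P.eval (T κ z) := by
          rw [← mul_neg, mul_div_mul_left _ _ hp]
  have d6 := d4.congr_of_eventuallyEq hev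
  have huniq := d5.unique d6
  unfold mu
  rw [derivative_neg, eval_sub, eval_mul, eval_mul, eval_neg, eval_neg, eval_sub, eval_mul,
    eval_mul]
  set M := (-(derivative Q).eval (T κ ρ) * P.eval (T κ ρ) - -(Q.eval (T κ ρ)) *
        (derivative P).eval (T κ ρ)) / (P.eval (T κ ρ)) ^ 2 with hM
  have hsq : (κ * ρ + 1) ^ 2 ≠ 0 := pow_ne_zero _ hkρ
  have e1 : κ * P.eval ρ + Q.eval ρ = (κ * ρ + 1) * Q.eval ρ := by rw [hfix]; ring
  have e2 : ((κ * (derivative Q).eval ρ - (derivative P).eval ρ) * (κ * P.eval ρ + Q.eval ρ) -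
        (κ * Q.eval ρ - P.eval ρ) * (κ * (derivative P).eval ρ + (derivative Q).eval ρ)) =
        -(κ ^ 2 + 1) * ((derivative P).eval ρ * Q.eval ρ - P.eval ρ * (derivative Q).eval ρ) := by
    ring
  rw [e2, e1, mul_pow] at huniq
  field_simp at huniq
  rw [eq_div_iff (pow_ne_zero _ hQρ)]
  linear_combination huniq

end

end Pool.Agent.H884R3.Ms
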