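import Pool.Agent.H884R3.MsDefs

set_option autoImplicit false

open Polynomial

namespace Pool.Agent.H884R3.Ms

noncomputable section

/-- homogeneous form of `f(w) = w² ((w-7)/(7w+1))⁵` -/
def fs {R : Type*} [CommRing R] (p : R × R) : R × R :=
  (p.1 ^ 2 * (p.1 - 7 * p.2) ^ 5, p.2 ^ 2 * (7 * p.1 + p.2) ^ 5)

/-- homogeneous form of `E(z) = z² (z⁵-7)/(7z⁵+1)` -/
def es {R : Type*} [CommRing R] (p : R × R) : R × R :=
  (p.1 ^ 2 * (p.1 ^ 5 - 7 * p.2 ^ 5), p.2 ^ 2 * (7 * p.1 ^ 5 + p.2 ^ 5))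

lemma fs_map {R S : Type*} [CommRing R] [CommRing S] (φ : R →+* S) (p : R × R) :
    fs (φ p.1, φ p.2) = (φ (fs p).1, φ (fs p).2) := by
  have h7 : φ 7 = 7 := map_ofNat φ 7
  simp [fs, h7]

lemma es_map {R S : Type*} [CommRing R] [CommRing S] (φ : R →+* S) (p : R × R) :
    es (φ p.1, φ p.2) = (φ (es p).1, φ (es p).2) := by
  have h7 : φ 7 = 7 := map_ofNat φ 7
  simp [es, h7]

lemma fs_iter_map {R S : Type*} [CommRing R] [CommRing S] (φ : R →+* S) (n : ℕ) (p : R × R) :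
    fs^[n] (φ p.1, φ p.2) = (φ (fs^[n] p).1, φ (fs^[n] p).2) := by
  induction n with
  | zero => rfl
  | succ n ih => rw [Function.iterate_succ_apply', Function.iterate_succ_apply', ih, fs_map]

lemma es_iter_map {R S : Type*} [CommRing R] [CommRing S] (φ : R →+* S) (n : ℕ) (p : R × R) :
    es^[n] (φ p.1, φ p.2) = (φ (es^[n] p).1, φ (es^[n] p).2) := by
  induction n with
  | zero => rfl
  | succ n ih => rw [Function.iterate_succ_apply', Function.iterate_succ_apply', ih, es_map]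

lemma fs_pow {R : Type*} [CommRing R] (p : R × R) :
    fs (p.1 ^ 5, p.2 ^ 5) = ((es p).1 ^ 5, (es p).2 ^ 5) := by
  unfold fs es
  apply Prod.ext <;> simp only <;> ring

lemma fs_iter_pow {R : Type*} [CommRing R] (n : ℕ) (p : R × R) :
    fs^[n] (p.1 ^ 5, p.2 ^ 5) = ((es^[n] p).1 ^ 5, (es^[n] p).2 ^ 5) := by
  induction n with
  | zero => rfl
  | succ n ih => rw [Function.iterate_succ_apply', Function.iterate_succ_apply', ih, fs_pow]

lemma es_smul {R : Type*} [CommRing R] (a : R) (p : R × R) :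
    es (a * p.1, a * p.2) = (a ^ 7 * (es p).1, a ^ 7 * (es p).2) := by
  unfold es
  apply Prod.ext <;> simp only <;> ring

lemma es_iter_smul {R : Type*} [CommRing R] (n : ℕ) (a : R) (p : R × R) :
    es^[n] (a * p.1, a * p.2) = (a ^ 7 ^ n * (es^[n] p).1, a ^ 7 ^ n * (es^[n] p).2) := by
  induction n with
  | zero => simp
  | succ n ih =>
    have e : (a ^ 7 ^ n) ^ 7 = a ^ 7 ^ (n + 1) := by rw [← pow_mul, ← pow_succ]
    rw [Function.iterate_succ_apply', Function.iterate_succ_apply', ih, es_smul, e]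

lemma es_zeta {R : Type*} [CommRing R] (a : R) (ha : a ^ 5 = 1) (p : R × R) :
    es (a * p.1, p.2) = (a ^ 2 * (es p).1, (es p).2) := by
  unfold es
  apply Prod.ext
  · simp only [mul_pow, ha]; ring
  · simp only [mul_pow, ha]; ring

lemma es_iter_zeta {R : Type*} [CommRing R] (n : ℕ) (a : R) (ha : a ^ 5 = 1) (p : R × R) :
    es^[n] (a * p.1, p.2) = (a ^ 2 ^ n * (es^[n] p).1, (es^[n] p).2) := by
  induction n with
  | zero => simp
  | succ n ih =>
    have h5 : (a ^ 2 ^ n) ^ 5 = 1 := by rw [← pow_mul, mul_comm, pow_mul, ha, one_pow]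
    have e : (a ^ 2 ^ n) ^ 2 = a ^ 2 ^ (n + 1) := by rw [← pow_mul, ← pow_succ]
    rw [Function.iterate_succ_apply', Function.iterate_succ_apply', ih, es_zeta _ h5, e]

/-- numerator and denominator of the iterates of `f` -/
def An (n : ℕ) : ℂ[X] := (fs^[n] ((X : ℂ[X]), (1 : ℂ[X]))).1
def Bn (n : ℕ) : ℂ[X] := (fs^[n] ((X : ℂ[X]), (1 : ℂ[X]))).2
/-- numerator and denominator of the iterates of `E` -/
def Pn (n : ℕ) : ℂ[X] := (es^[n] ((X : ℂ[X]), (1 : ℂ[X]))).1
def Qn (n : ℕ) : ℂ[X] := (es^[n] ((X : ℂ[X]), (1 : ℂ[X]))).2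

lemma An_zero : An 0 = X := rfl
lemma Bn_zero : Bn 0 = 1 := rfl
lemma Pn_zero : Pn 0 = X := rfl
lemma Qn_zero : Qn 0 = 1 := rfl

lemma An_succ (n : ℕ) : An (n + 1) = An n ^ 2 * (An n - 7 * Bn n) ^ 5 := by
  unfold An Bn; rw [Function.iterate_succ_apply']; rfl
lemma Bn_succ (n : ℕ) : Bn (n + 1) = Bn n ^ 2 * (7 * An n + Bn n) ^ 5 := by
  unfold An Bn; rw [Function.iterate_succ_apply']; rfl
lemma Pn_succ (n : ℕ) : Pn (n + 1) = Pn n ^ 2 * (Pn n ^ 5 - 7 * Qn n ^ 5) := by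
  unfold Pn Qn; rw [Function.iterate_succ_apply']; rfl
lemma Qn_succ (n : ℕ) : Qn (n + 1) = Qn n ^ 2 * (7 * Pn n ^ 5 + Qn n ^ 5) := by
  unfold Pn Qn; rw [Function.iterate_succ_apply']; rfl

lemma expand_AB (n : ℕ) : expand ℂ 5 (An n) = Pn n ^ 5 ∧ expand ℂ 5 (Bn n) = Qn n ^ 5 := by
  have h1 := fs_iter_map (expand ℂ 5 : ℂ[X] →ₐ[ℂ] ℂ[X]).toRingHom n ((X : ℂ[X]), (1 : ℂ[X]))
  have h2 := fs_iter_pow n ((X : ℂ[X]), (1 : ℂ[X]))
  have e1 : (expand ℂ 5 : ℂ[X] →ₐ[ℂ] ℂ[X]).toRingHom X = X ^ 5 := by simp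
  have e2 : (expand ℂ 5 : ℂ[X] →ₐ[ℂ] ℂ[X]).toRingHom 1 = 1 ^ 5 := by simp
  simp only [e1, e2] at h1
  simp only at h2
  rw [h2] at h1
  constructor
  · have := congrArg Prod.fst h1
    exact this.symm
  · have := congrArg Prod.snd h1
    exact this.symm

/-! degrees -/
lemma AB_degree (n : ℕ) : (An n).Monic ∧ (An n).natDegree = 7 ^ n ∧
    (1 ≤ n → (Bn n).natDegree + 2 ≤ 7 ^ n) ∧ (Bn n).natDegree < 7 ^ n := by
  induction n with
  | zero => exact ⟨monic_X, by simp [An_zero], by omega, by simp [Bn_zero]⟩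
  | succ n ih =>
    obtain ⟨h1, h2, h3, h4⟩ := ih
    have h7B : (7 * Bn n : ℂ[X]).natDegree ≤ (Bn n).natDegree := by
      have : (7 : ℂ[X]) = C 7 := (map_ofNat C 7).symm
      rw [this]; exact natDegree_C_mul_le _ _
    have h7A : (7 * An n : ℂ[X]).natDegree ≤ 7 ^ n := by
      have : (7 : ℂ[X]) = C 7 := (map_ofNat C 7).symm
      rw [this, ← h2]; exact natDegree_C_mul_le _ _
    have hlt : (7 * Bn n : ℂ[X]).degree < (An n).degree := by
      rw [degree_eq_natDegree h1.ne_zero, h2]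
      rcases eq_or_ne (7 * Bn n : ℂ[X]) 0 with h0 | h0
      · rw [h0, degree_zero]; exact WithBot.bot_lt_coe _
      · rw [degree_eq_natDegree h0]
        exact_mod_cast lt_of_le_of_lt h7B h4
    have hm : (An n - 7 * Bn n).Monic := h1.sub_of_left hlt
    have hd : (An n - 7 * Bn n).natDegree = 7 ^ n := by
      rw [← h2]; exact natDegree_eq_of_degree_eq (degree_sub_eq_left_of_degree_lt hlt)
    have hA : (An (n + 1)).Monic := by
      rw [An_succ]; exact (h1.pow 2).mul (hm.pow 5)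
    have hAd : (An (n + 1)).natDegree = 7 ^ (n + 1) := by
      rw [An_succ, (h1.pow 2).natDegree_mul (hm.pow 5), h1.natDegree_pow, hm.natDegree_pow, h2, hd]
      ring
    have hBd : (Bn (n + 1)).natDegree ≤ 2 * (Bn n).natDegree + 5 * 7 ^ n := by
      rw [Bn_succ]
      refine natDegree_mul_le.trans (add_le_add natDegree_pow_le (natDegree_pow_le.trans ?_))
      refine Nat.mul_le_mul_left 5 ((natDegree_add_le _ _).trans (max_le h7A h4.le))
    have hpow : 7 ^ (n + 1) = 2 * 7 ^ n + 5 * 7 ^ n := by ring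
    have h5 : (Bn (n + 1)).natDegree + 2 ≤ 7 ^ (n + 1) := by
      omega
    exact ⟨hA, hAd, fun _ => h5, by omega⟩

lemma AB_coprime (n : ℕ) : IsCoprime (An n) (Bn n) := by
  induction n with
  | zero => rw [Bn_zero]; exact isCoprime_one_right
  | succ n ih =>
    rw [An_succ, Bn_succ]
    have h50 : IsUnit (50 : ℂ[X]) := by
      have : (50 : ℂ[X]) = C 50 := (map_ofNat C 50).symm
      rw [this]; exact isUnit_C.mpr (by norm_num)
    have h7 : IsUnit (7 : ℂ[X]) := by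
      have : (7 : ℂ[X]) = C 7 := (map_ofNat C 7).symm
      rw [this]; exact isUnit_C.mpr (by norm_num)
    have c1 : IsCoprime (An n) (7 * An n + Bn n) := by
      have := ih.add_mul_left_right 7
      rwa [mul_comm (An n) 7, add_comm] at this
    have c2 : IsCoprime (An n - 7 * Bn n) (Bn n) := by
      have := ih.add_mul_left_left (-7)
      have e : An n + Bn n * (-7) = An n - 7 * Bn n := by ring
      rwa [e] at this
    have c3 : IsCoprime (An n - 7 * Bn n) (7 * An n + Bn n) := by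
      have h1 : IsCoprime (An n - 7 * Bn n) (50 * Bn n) :=
        (isCoprime_mul_unit_left_right h50 _ _).mpr c2
      have := h1.add_mul_left_right 7
      have e : 50 * Bn n + (An n - 7 * Bn n) * 7 = 7 * An n + Bn n := by ring
      rwa [e] at this
    exact IsCoprime.mul_left
      (IsCoprime.mul_right (ih.pow) (c1.pow))
      (IsCoprime.mul_right (c2.pow) (c3.pow))
end

end Pool.Agent.H884R3.Ms
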