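import Pool.Agent.H884R3.MsPoly

set_option autoImplicit false

open Polynomial

namespace Pool.Agent.H884R3.Ms

noncomputable section

/-! ### fifth roots of unity -/

lemma prod5 (ξ x y : ℂ) (h5 : ξ ^ 5 = 1) (h1 : ξ ≠ 1) :
    (x - y) * (x - ξ * y) * (x - ξ ^ 2 * y) * (x - ξ ^ 3 * y) * (x - ξ ^ 4 * y)
      = x ^ 5 - y ^ 5 := by
  have h : 1 + ξ + ξ ^ 2 + ξ ^ 3 + ξ ^ 4 = 0 := by
    have : (ξ - 1) * (1 + ξ + ξ ^ 2 + ξ ^ 3 + ξ ^ 4) = 0 := by linear_combination h5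
    rcases mul_eq_zero.1 this with h | h
    · exact absurd (sub_eq_zero.1 h) h1
    · exact h
  linear_combination (-x ^ 4 * y + ξ * (1 + ξ ^ 2) * x ^ 3 * y ^ 2
    - ξ ^ 3 * (1 + ξ ^ 2) * x ^ 2 * y ^ 3 + ξ ^ 6 * x * y ^ 4) * h
    - (ξ ^ 5 + 1) * y ^ 5 * h5

/-- a product over the fifth roots of unity -/
lemma prod5' (η ω x y : ℂ) (hη : η ^ 5 = 1) (hω : ω ^ 5 = 1) (h1 : ω ≠ η) :
    ∏ k ∈ Finset.range 5, (η ^ k * x - ω ^ k * y) = x ^ 5 - y ^ 5 := by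
  have hξ5 : (ω * η ^ 4) ^ 5 = 1 := by
    rw [mul_pow, hω, ← pow_mul, mul_comm 4 5, pow_mul, hη]; ring
  have hξ1 : ω * η ^ 4 ≠ 1 := by
    intro h
    apply h1
    calc ω = ω * η ^ 5 := by rw [hη, mul_one]
      _ = (ω * η ^ 4) * η := by ring
      _ = η := by rw [h, one_mul]
  have h := prod5 (ω * η ^ 4) x y hξ5 hξ1
  rw [← h]
  have e0 : ∀ k : ℕ, η ^ k * x - ω ^ k * y = η ^ k * (x - (ω * η ^ 4) ^ k * y) := by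
    intro k
    have : η ^ k * (ω * η ^ 4) ^ k = ω ^ k := by
      rw [← mul_pow]
      have : η * (ω * η ^ 4) = ω := by linear_combination ω * hη
      rw [this]
    linear_combination y * this
  rw [Finset.prod_congr rfl (fun k _ => e0 k), Finset.prod_mul_distrib]
  have e1 : ∏ k ∈ Finset.range 5, η ^ k = 1 := by
    simp only [Finset.prod_range_succ, Finset.prod_range_zero, one_mul]
    linear_combination (η ^ 5 + 1) * hη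
  rw [e1, one_mul]
  simp only [Finset.prod_range_succ, Finset.prod_range_zero, one_mul, pow_zero, pow_one]

/-- if `F (z⁵) = ∏ G (ω^k z)` then the roots of `F` are the fifth powers of the roots of `G` -/
lemma roots5 (ω : ℂ) (h5 : ω ^ 5 = 1) (h1 : ω ≠ 1) (F G : ℂ[X]) (hG : G ≠ 0)
    (h : ∀ z : ℂ, F.eval (z ^ 5) = ∏ k ∈ Finset.range 5, G.eval (ω ^ k * z)) :
    F.roots = G.roots.map (fun ρ => ρ ^ 5) := by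
  have hg : G.leadingCoeff ≠ 0 := leadingCoeff_ne_zero.mpr hG
  have hFe : F = C (G.leadingCoeff ^ 5) *
      ((G.roots.map (fun ρ => ρ ^ 5)).map (fun a => X - C a)).prod := by
    apply Polynomial.funext
    intro w
    obtain ⟨z, rfl⟩ : ∃ z : ℂ, z ^ 5 = w := IsAlgClosed.exists_pow_nat_eq w (by norm_num)
    rw [h z]
    simp only [(IsAlgClosed.splits G).eval_eq_prod_roots]
    rw [Finset.prod_mul_distrib, Finset.prod_const, Finset.card_range, eval_mul, eval_C]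
    congr 1
    rw [eval_multiset_prod, Multiset.map_map, Multiset.map_map]
    simp only [Finset.prod_range_succ, Finset.prod_range_zero, one_mul]
    rw [← Multiset.prod_map_mul, ← Multiset.prod_map_mul, ← Multiset.prod_map_mul,
      ← Multiset.prod_map_mul]
    congr 1
    apply Multiset.map_congr rfl
    intro ρ _
    simp only [Function.comp, eval_sub, eval_X, eval_C]
    have := prod5' ω 1 z ρ h5 (one_pow 5) (Ne.symm h1)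
    rw [← this]
    simp only [Finset.prod_range_succ, Finset.prod_range_zero, one_mul, one_pow]
  rw [hFe, roots_C_mul _ (pow_ne_zero 5 hg), roots_multiset_prod_X_sub_C]

/-! ### evaluation -/

lemma PQ_eval (n : ℕ) (z : ℂ) : es^[n] (z, (1 : ℂ)) = ((Pn n).eval z, (Qn n).eval z) := by
  have h := es_iter_map (evalRingHom z) n ((X : ℂ[X]), (1 : ℂ[X]))
  simp only [coe_evalRingHom, eval_X, eval_one] at h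
  exact h

lemma AB_eval (n : ℕ) (z : ℂ) : fs^[n] (z, (1 : ℂ)) = ((An n).eval z, (Bn n).eval z) := by
  have h := fs_iter_map (evalRingHom z) n ((X : ℂ[X]), (1 : ℂ[X]))
  simp only [coe_evalRingHom, eval_X, eval_one] at h
  exact h

lemma AB_pow (n : ℕ) (z : ℂ) :
    (An n).eval (z ^ 5) = (Pn n).eval z ^ 5 ∧ (Bn n).eval (z ^ 5) = (Qn n).eval z ^ 5 := by
  have h := fs_iter_pow n (z, (1 : ℂ))
  simp only [one_pow, PQ_eval, AB_eval] at h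
  exact ⟨congrArg Prod.fst h, congrArg Prod.snd h⟩

lemma PQ_zeta (n : ℕ) (a : ℂ) (ha : a ^ 5 = 1) (z : ℂ) :
    (Pn n).eval (a * z) = a ^ 2 ^ n * (Pn n).eval z ∧ (Qn n).eval (a * z) = (Qn n).eval z := by
  have h := es_iter_zeta n a ha (z, (1 : ℂ))
  simp only [PQ_eval] at h
  exact ⟨congrArg Prod.fst h, congrArg Prod.snd h⟩

lemma PQ_homog (n : ℕ) (x y : ℂ) (hy : y ≠ 0) :
    es^[n] (x, y) = (y ^ 7 ^ n * (Pn n).eval (x / y), y ^ 7 ^ n * (Qn n).eval (x / y)) := by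
  have h := es_iter_smul n y (x / y, (1 : ℂ))
  simp only [PQ_eval, mul_one, mul_div_cancel₀ _ hy] at h
  exact h

/-- fixed points of `E^n` -/
def Phi (n : ℕ) : ℂ[X] := Pn n - X * Qn n
/-- fixed points of `-1 / E^n` -/
def Psi (n : ℕ) : ℂ[X] := Qn n + X * Pn n

lemma two_pow_odd (m : ℕ) : 2 ^ (2 * m + 1) % 5 = 2 ∨ 2 ^ (2 * m + 1) % 5 = 3 := by
  induction m with
  | zero => left; norm_num
  | succ m ih =>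
    have : 2 ^ (2 * (m + 1) + 1) = 4 * 2 ^ (2 * m + 1) := by ring
    rw [this]; omega

lemma omega_facts (ω : ℂ) (h5 : ω ^ 5 = 1) (h1 : ω ≠ 1) (m : ℕ) :
    ω ≠ ω ^ 2 ^ (2 * m + 1) ∧ ω * ω ^ 2 ^ (2 * m + 1) ≠ 1 := by
  have hω0 : ω ≠ 0 := by rintro rfl; norm_num at h5
  have key : ω ^ 2 ^ (2 * m + 1) = ω ^ 2 ∨ ω ^ 2 ^ (2 * m + 1) = ω ^ 3 := by
    have h := Nat.div_add_mod (2 ^ (2 * m + 1)) 5
    rcases two_pow_odd m with h2 | h3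
    · left
      rw [h2] at h
      rw [← h, pow_add, pow_mul, h5, one_pow, one_mul]
    · right
      rw [h3] at h
      rw [← h, pow_add, pow_mul, h5, one_pow, one_mul]
  rcases key with h | h
  · rw [h]
    constructor
    · intro h'
      apply h1
      have : ω * (ω - 1) = 0 := by linear_combination -h'
      rcases mul_eq_zero.1 this with h0 | h0
      · exact absurd h0 hω0
      · linear_combination h0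
    · intro h'
      have h3 : ω ^ 3 = 1 := by linear_combination h'
      apply h1
      have h2 : ω ^ 2 = 1 := by linear_combination h5 - ω ^ 2 * h3
      linear_combination h3 - ω * h2
  · rw [h]
    constructor
    · intro h'
      apply h1
      have h2 : ω ^ 2 = 1 := by
        have : ω * (ω ^ 2 - 1) = 0 := by linear_combination -h'
        rcases mul_eq_zero.1 this with h0 | h0
        · exact absurd h0 hω0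
        · linear_combination h0
      linear_combination h5 - (ω ^ 3 + ω) * h2
    · intro h'
      apply h1
      have h4 : ω ^ 4 = 1 := by linear_combination h'
      linear_combination h5 - ω * h4

lemma exists_omega : ∃ ω : ℂ, ω ^ 5 = 1 ∧ ω ≠ 1 := by
  have h := Complex.isPrimitiveRoot_exp 5 (by norm_num)
  exact ⟨_, h.pow_eq_one, h.ne_one (by norm_num)⟩

lemma Phi_prod (m : ℕ) (ω : ℂ) (h5 : ω ^ 5 = 1) (h1 : ω ≠ 1) (z : ℂ) :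
    (An (2 * m + 1) - X * Bn (2 * m + 1)).eval (z ^ 5) =
      ∏ k ∈ Finset.range 5, (Phi (2 * m + 1)).eval (ω ^ k * z) := by
  have hη : (ω ^ 2 ^ (2 * m + 1)) ^ 5 = 1 := by rw [← pow_mul, mul_comm, pow_mul, h5, one_pow]
  have h := prod5' (ω ^ 2 ^ (2 * m + 1)) ω ((Pn (2 * m + 1)).eval z)
    (z * (Qn (2 * m + 1)).eval z) hη h5 (omega_facts ω h5 h1 m).1
  have e : ∀ k : ℕ, (Phi (2 * m + 1)).eval (ω ^ k * z) =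
      (ω ^ 2 ^ (2 * m + 1)) ^ k * (Pn (2 * m + 1)).eval z -
        ω ^ k * (z * (Qn (2 * m + 1)).eval z) := by
    intro k
    have hk : (ω ^ k) ^ 5 = 1 := by rw [← pow_mul, mul_comm, pow_mul, h5, one_pow]
    unfold Phi
    rw [eval_sub, eval_mul, eval_X, (PQ_zeta _ _ hk z).1, (PQ_zeta _ _ hk z).2, pow_right_comm]
    ring
  rw [Finset.prod_congr rfl (fun k _ => e k), h, eval_sub, eval_mul, eval_X, (AB_pow _ z).1,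
    (AB_pow _ z).2]
  ring

lemma Psi_prod (m : ℕ) (ω : ℂ) (h5 : ω ^ 5 = 1) (h1 : ω ≠ 1) (z : ℂ) :
    (Bn (2 * m + 1) + X * An (2 * m + 1)).eval (z ^ 5) =
      ∏ k ∈ Finset.range 5, (Psi (2 * m + 1)).eval (ω ^ k * z) := by
  have hη : (ω * ω ^ 2 ^ (2 * m + 1)) ^ 5 = 1 := by
    rw [mul_pow, h5, one_mul, ← pow_mul, mul_comm, pow_mul, h5, one_pow]
  have h := prod5' 1 (ω * ω ^ 2 ^ (2 * m + 1)) ((Qn (2 * m + 1)).eval z)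
    (-(z * (Pn (2 * m + 1)).eval z)) (one_pow 5) hη (omega_facts ω h5 h1 m).2
  have e : ∀ k : ℕ, (Psi (2 * m + 1)).eval (ω ^ k * z) =
      1 ^ k * (Qn (2 * m + 1)).eval z -
        (ω * ω ^ 2 ^ (2 * m + 1)) ^ k * (-(z * (Pn (2 * m + 1)).eval z)) := by
    intro k
    have hk : (ω ^ k) ^ 5 = 1 := by rw [← pow_mul, mul_comm, pow_mul, h5, one_pow]
    unfold Psi
    rw [eval_add, eval_mul, eval_X, (PQ_zeta _ _ hk z).1, (PQ_zeta _ _ hk z).2, pow_right_comm,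
      mul_pow]
    ring
  rw [Finset.prod_congr rfl (fun k _ => e k), h, eval_add, eval_mul, eval_X, (AB_pow _ z).1,
    (AB_pow _ z).2]
  ring

/-! ### the extra symmetry -/

section Kappa

variable {κ : ℂ}

lemma es_k1 (hκ : κ ^ 2 + κ - 1 = 0) (p : ℂ × ℂ) :
    es (κ * p.2 - p.1, κ * p.1 + p.2) =
      (κ ^ 2 * (κ ^ 5 - 7) * (κ * (es p).1 + (es p).2),
        κ ^ 2 * (κ ^ 5 - 7) * ((es p).1 - κ * (es p).2)) := by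
  obtain ⟨x, y⟩ := p
  unfold es
  apply Prod.ext
  · simp only
    linear_combination (-κ ^ 6*x ^ 7 + 7*κ ^ 6*x ^ 2*y ^ 5 + κ ^ 5*x ^ 7 - 14*κ ^ 5*x ^ 5*y ^ 2 - 7*κ ^ 5*x ^ 2*y ^ 5 - 2*κ ^ 4*x ^ 7 + 14*κ ^ 4*x ^ 6*y + 14*κ ^ 4*x ^ 5*y ^ 2 - 35*κ ^ 4*x ^ 4*y ^ 3 + 14*κ ^ 4*x ^ 2*y ^ 5 - 7*κ ^ 4*x*y ^ 6 - 4*κ ^ 3*x ^ 7 - 14*κ ^ 3*x ^ 6*y + 42*κ ^ 3*x ^ 5*y ^ 2 + 35*κ ^ 3*x ^ 4*y ^ 3 - 70*κ ^ 3*x ^ 3*y ^ 4 + 7*κ ^ 3*x*y ^ 6 + 2*κ ^ 2*x ^ 7 - 7*κ ^ 2*x ^ 6*y - 28*κ ^ 2*x ^ 5*y ^ 2 + 70*κ ^ 2*x ^ 4*y ^ 3 + 35*κ ^ 2*x ^ 3*y ^ 4 - 56*κ ^ 2*x ^ 2*y ^ 5 - 14*κ ^ 2*x*y ^ 6 + κ*x ^ 7 - 7*κ*x ^ 6*y + 35*κ*x ^ 3*y ^ 4 + 7*κ*x ^ 2*y ^ 5 - 14*κ*x*y ^ 6 + x ^ 7 + 7*x ^ 2*y ^ 5) * hκ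
  · simp only
    linear_combination (7*κ ^ 6*x ^ 5*y ^ 2 + κ ^ 6*y ^ 7 - 7*κ ^ 5*x ^ 5*y ^ 2 + 14*κ ^ 5*x ^ 2*y ^ 5 - κ ^ 5*y ^ 7 + 7*κ ^ 4*x ^ 6*y + 14*κ ^ 4*x ^ 5*y ^ 2 - 35*κ ^ 4*x ^ 3*y ^ 4 - 14*κ ^ 4*x ^ 2*y ^ 5 + 14*κ ^ 4*x*y ^ 6 + 2*κ ^ 4*y ^ 7 - 7*κ ^ 3*x ^ 6*y + 70*κ ^ 3*x ^ 4*y ^ 3 + 35*κ ^ 3*x ^ 3*y ^ 4 - 42*κ ^ 3*x ^ 2*y ^ 5 - 14*κ ^ 3*x*y ^ 6 + 4*κ ^ 3*y ^ 7 + 14*κ ^ 2*x ^ 6*y - 56*κ ^ 2*x ^ 5*y ^ 2 - 35*κ ^ 2*x ^ 4*y ^ 3 + 70*κ ^ 2*x ^ 3*y ^ 4 + 28*κ ^ 2*x ^ 2*y ^ 5 - 7*κ ^ 2*x*y ^ 6 - 2*κ ^ 2*y ^ 7 + 14*κ*x ^ 6*y + 7*κ*x ^ 5*y ^ 2 - 35*κ*x ^ 4*y ^ 3 - 7*κ*x*y ^ 6 - κ*y ^ 7 + 7*x ^ 5*y ^ 2 - y ^ 7) * hκ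

lemma es_k2 (hκ : κ ^ 2 + κ - 1 = 0) (p : ℂ × ℂ) :
    es (κ * p.1 + p.2, p.1 - κ * p.2) =
      (-(κ ^ 2 * (κ ^ 5 - 7)) * (κ * (es p).2 - (es p).1),
        -(κ ^ 2 * (κ ^ 5 - 7)) * (κ * (es p).1 + (es p).2)) := by
  obtain ⟨x, y⟩ := p
  unfold es
  apply Prod.ext
  · simp only
    linear_combination (7*κ ^ 6*x ^ 5*y ^ 2 + κ ^ 6*y ^ 7 - 7*κ ^ 5*x ^ 5*y ^ 2 + 14*κ ^ 5*x ^ 2*y ^ 5 - κ ^ 5*y ^ 7 + 7*κ ^ 4*x ^ 6*y + 14*κ ^ 4*x ^ 5*y ^ 2 - 35*κ ^ 4*x ^ 3*y ^ 4 - 14*κ ^ 4*x ^ 2*y ^ 5 + 14*κ ^ 4*x*y ^ 6 + 2*κ ^ 4*y ^ 7 - 7*κ ^ 3*x ^ 6*y + 70*κ ^ 3*x ^ 4*y ^ 3 + 35*κ ^ 3*x ^ 3*y ^ 4 - 42*κ ^ 3*x ^ 2*y ^ 5 - 14*κ ^ 3*x*y ^ 6 + 4*κ ^ 3*y ^ 7 + 14*κ ^ 2*x ^ 6*y - 56*κ ^ 2*x ^ 5*y ^ 2 - 35*κ ^ 2*x ^ 4*y ^ 3 + 70*κ ^ 2*x ^ 3*y ^ 4 + 28*κ ^ 2*x ^ 2*y ^ 5 - 7*κ ^ 2*x*y ^ 6 - 2*κ ^ 2*y ^ 7 + 14*κ*x ^ 6*y + 7*κ*x ^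 5*y ^ 2 - 35*κ*x ^ 4*y ^ 3 - 7*κ*x*y ^ 6 - κ*y ^ 7 + 7*x ^ 5*y ^ 2 - y ^ 7) * hκ
  · simp only
    linear_combination (κ ^ 6*x ^ 7 - 7*κ ^ 6*x ^ 2*y ^ 5 - κ ^ 5*x ^ 7 + 14*κ ^ 5*x ^ 5*y ^ 2 + 7*κ ^ 5*x ^ 2*y ^ 5 + 2*κ ^ 4*x ^ 7 - 14*κ ^ 4*x ^ 6*y - 14*κ ^ 4*x ^ 5*y ^ 2 + 35*κ ^ 4*x ^ 4*y ^ 3 - 14*κ ^ 4*x ^ 2*y ^ 5 + 7*κ ^ 4*x*y ^ 6 + 4*κ ^ 3*x ^ 7 + 14*κ ^ 3*x ^ 6*y - 42*κ ^ 3*x ^ 5*y ^ 2 - 35*κ ^ 3*x ^ 4*y ^ 3 + 70*κ ^ 3*x ^ 3*y ^ 4 - 7*κ ^ 3*x*y ^ 6 - 2*κ ^ 2*x ^ 7 + 7*κ ^ 2*x ^ 6*y + 28*κ ^ 2*x ^ 5*y ^ 2 - 70*κ ^ 2*x ^ 4*y ^ 3 - 35*κ ^ 2*x ^ 3*y ^ 4 + 56*κ ^ 2*x ^ 2*y ^ 5 + 14*κ ^ 2*x*y ^ 6 - κ*x ^ 7 + 7*κ*x ^ 6*y - 35*κ*x ^ 3*y ^ 4 - 7*κ*x ^ 2*y ^ 5 + 14*κ*x*y ^ 6 - x ^ 7 - 7*x ^ 2*y ^ 5) * hκ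

lemma kap_ne (hκ : κ ^ 2 + κ - 1 = 0) :
    κ ≠ 0 ∧ κ ^ 2 + 1 ≠ 0 ∧ κ ^ 2 * (κ ^ 5 - 7) ≠ 0 := by
  have h0 : κ ≠ 0 := by rintro rfl; norm_num at hκ
  refine ⟨h0, ?_, ?_⟩
  · intro h
    have h2 : κ = 2 := by linear_combination hκ - h
    rw [h2] at hκ; norm_num at hκ
  · intro h
    have h2 : 20 * κ - 15 = 0 := by
      linear_combination h - (κ ^ 5 - κ ^ 4 + 2 * κ ^ 3 - 3 * κ ^ 2 + 5 * κ - 15) * hκ
    have h3 : κ = 3 / 4 := by linear_combination h2 / 20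
    rw [h3] at hκ; norm_num at hκ

lemma kap_iter (hκ : κ ^ 2 + κ - 1 = 0) (m : ℕ) : ∃ c : ℂ, c ≠ 0 ∧ ∀ p : ℂ × ℂ,
    es^[2 * m + 1] (κ * p.2 - p.1, κ * p.1 + p.2) =
      (c * (κ * (es^[2 * m + 1] p).1 + (es^[2 * m + 1] p).2),
        c * ((es^[2 * m + 1] p).1 - κ * (es^[2 * m + 1] p).2)) := by
  obtain ⟨h0, h1, h2⟩ := kap_ne hκ
  induction m with
  | zero =>
    refine ⟨_, h2, fun p => ?_⟩
    exact es_k1 hκ p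
  | succ m ih =>
    obtain ⟨c, hc, ih⟩ := ih
    set c0 := κ ^ 2 * (κ ^ 5 - 7) with hc0
    refine ⟨(c ^ 7 * (-c0)) ^ 7 * c0, ?_, fun p => ?_⟩
    · exact mul_ne_zero (pow_ne_zero _ (mul_ne_zero (pow_ne_zero _ hc) (neg_ne_zero.mpr h2))) h2
    · have e : 2 * (m + 1) + 1 = (2 * m + 1) + 1 + 1 := by ring
      rw [e, Function.iterate_succ_apply', Function.iterate_succ_apply', ih,
        Function.iterate_succ_apply' _ (2 * m + 1 + 1), Function.iterate_succ_apply' _ (2 * m + 1)]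
      set q := es^[2 * m + 1] p with hq
      have s1 := es_smul c (κ * q.1 + q.2, q.1 - κ * q.2)
      simp only at s1
      rw [s1, es_k2 hκ q]
      simp only
      have s2 := es_smul (c ^ 7 * (-c0)) (κ * (es q).2 - (es q).1, κ * (es q).1 + (es q).2)
      simp only at s2
      rw [← mul_assoc, ← mul_assoc, s2, es_k1 hκ (es q), ← hc0]
      simp only [← mul_assoc]

end Kappa

end

end Pool.Agent.H884R3.Ms
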