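import Pool.Agent.H884R3.MsMult
import Pool.Agent.Helper881.CenHom

set_option autoImplicit false

open Polynomial
open Pool.Agent.Helper881.Gp

namespace Pool.Agent.H884R3.Ms

noncomputable section

/-- the map `f(z) = z² ((z - 7) / (7 z + 1))⁵` -/
def fR : RatFunc ℂ := RatFunc.X ^ 2 * ((RatFunc.X - 7) / (7 * RatFunc.X + 1)) ^ 5

/-- the map `g = -1 / f` -/
def gR : RatFunc ℂ := -1 / (RatFunc.X ^ 2 * ((RatFunc.X - 7) / (7 * RatFunc.X + 1)) ^ 5)

/-- polynomial as a rational function -/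
def ι (p : ℂ[X]) : RatFunc ℂ := algebraMap ℂ[X] (RatFunc ℂ) p

lemma ι_ne {p : ℂ[X]} (h : p ≠ 0) : ι p ≠ 0 :=
  (map_ne_zero_iff _ (RatFunc.algebraMap_injective ℂ)).mpr h

lemma bridge (A B : ℂ[X]) (hAB : IsCoprime A B) (hB : B ≠ 0) :
    ∃ c : ℂ, c ≠ 0 ∧ (ι A / ι B).num = C c * A ∧ (ι A / ι B).denom = C c * B := by
  set F := ι A / ι B with hF
  have h1 : F.num * B = A * F.denom := (RatFunc.num_mul_eq_mul_denom_iff hB).mpr hF
  have h2 : B ∣ F.denom := hAB.symm.dvd_of_dvd_mul_left ⟨F.num, by rw [← h1, mul_comm]⟩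
  have h3 : F.denom ∣ B :=
    (RatFunc.isCoprime_num_denom F).symm.dvd_of_dvd_mul_left ⟨A, by rw [h1, mul_comm]⟩
  obtain ⟨u, hu⟩ := associated_of_dvd_dvd h2 h3
  obtain ⟨c, hc, hcu⟩ := Polynomial.isUnit_iff.mp u.isUnit
  refine ⟨c, hc.ne_zero, ?_, ?_⟩
  · apply mul_right_cancel₀ hB
    rw [h1, ← hu, ← hcu]; ring
  · rw [← hu, ← hcu, mul_comm]

lemma deg_div (A B : ℂ[X]) (hAB : IsCoprime A B) (hB : B ≠ 0) :
    deg (ι A / ι B) = max A.natDegree B.natDegree := by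
  obtain ⟨c, hc, h1, h2⟩ := bridge A B hAB hB
  unfold deg
  rw [h1, h2, natDegree_C_mul hc, natDegree_C_mul hc]

lemma mult_div (A B : ℂ[X]) (hAB : IsCoprime A B) (hB : B ≠ 0) (z : ℂ) :
    mult (ι A / ι B) z = mu A B z := by
  obtain ⟨c, hc, h1, h2⟩ := bridge A B hAB hB
  unfold mult mu
  have e1 : derivative (C c * A) * (C c * B) - C c * A * derivative (C c * B) =
      C (c ^ 2) * (derivative A * B - A * derivative B) := by
    rw [derivative_C_mul, derivative_C_mul, C_pow]; ring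
  rw [h1, h2, e1, eval_mul, eval_C, eval_mul, eval_C, mul_pow,
    mul_div_mul_left _ _ (pow_ne_zero 2 hc)]

lemma multInf_div (A B : ℂ[X]) (hAB : IsCoprime A B) (hB : B ≠ 0) :
    multInf (ι A / ι B) = B.coeff (max A.natDegree B.natDegree - 1) /
      A.coeff (max A.natDegree B.natDegree) := by
  have hd := deg_div A B hAB hB
  obtain ⟨c, hc, h1, h2⟩ := bridge A B hAB hB
  unfold multInf
  rw [hd, h1, h2, coeff_C_mul, coeff_C_mul, mul_div_mul_left _ _ hc]

lemma fixMult_div (A B : ℂ[X]) (hAB : IsCoprime A B) (hB : B ≠ 0) :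
    fixMultipliers (ι A / ι B) = (A - X * B).roots.map (mu A B) +
      Multiset.replicate (max A.natDegree B.natDegree + 1 - (A - X * B).natDegree)
        (B.coeff (max A.natDegree B.natDegree - 1) / A.coeff (max A.natDegree B.natDegree)) := by
  have hd := deg_div A B hAB hB
  have hm : mult (ι A / ι B) = mu A B := funext (fun z => mult_div A B hAB hB z)
  have hi := multInf_div A B hAB hB
  obtain ⟨c, hc, h1, h2⟩ := bridge A B hAB hB
  have hfix : fixPoly (ι A / ι B) = C c * (A - X * B) := by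
    unfold fixPoly; rw [h1, h2]; ring
  unfold fixMultipliers
  rw [hfix, roots_C_mul _ hc, natDegree_C_mul hc, hd, hm, hi]

lemma Bn_ne (n : ℕ) : Bn n ≠ 0 := by
  intro h
  have := AB_coprime n
  rw [h, isCoprime_zero_right] at this
  have h2 := natDegree_eq_zero_of_isUnit this
  rw [(AB_degree n).2.1] at h2
  exact absurd h2 (by positivity)

lemma An_ne (n : ℕ) : An n ≠ 0 := (AB_degree n).1.ne_zero

lemma comp_f (y : RatFunc ℂ) (hy : 1 ≤ deg y) : comp fR y = y ^ 2 * ((y - 7) / (7 * y + 1)) ^ 5 := by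
  obtain ⟨σ, rfl⟩ := Pool.Agent.Helper881.Cen.Hom.exists_end y hy
  rw [Pool.Agent.Helper881.Cen.Hom.comp_hom]
  simp only [fR, map_mul, map_pow, map_div₀, map_sub, map_add, map_ofNat, map_one]

lemma comp_g (y : RatFunc ℂ) (hy : 1 ≤ deg y) :
    comp gR y = -1 / (y ^ 2 * ((y - 7) / (7 * y + 1)) ^ 5) := by
  obtain ⟨σ, rfl⟩ := Pool.Agent.Helper881.Cen.Hom.exists_end y hy
  rw [Pool.Agent.Helper881.Cen.Hom.comp_hom]
  simp only [gR, map_mul, map_pow, map_div₀, map_sub, map_add, map_ofNat, map_one, map_neg]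

lemma deg_AB (n : ℕ) : deg (ι (An n) / ι (Bn n)) = 7 ^ n := by
  rw [deg_div _ _ (AB_coprime n) (Bn_ne n), (AB_degree n).2.1, max_eq_left (AB_degree n).2.2.2.le]

lemma deg_BA (n : ℕ) : deg (ι (-Bn n) / ι (An n)) = 7 ^ n := by
  rw [deg_div _ _ (AB_coprime n).symm.neg_left (An_ne n), natDegree_neg, (AB_degree n).2.1,
    max_eq_right (AB_degree n).2.2.2.le]

lemma ι_succ (n : ℕ) : ι (An (n + 1)) = ι (An n) ^ 2 * (ι (An n) - 7 * ι (Bn n)) ^ 5 ∧
    ι (Bn (n + 1)) = ι (Bn n) ^ 2 * (7 * ι (An n) + ι (Bn n)) ^ 5 := by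
  rw [An_succ, Bn_succ]
  unfold ι
  simp only [map_mul, map_pow, map_sub, map_add, map_ofNat]
  trivial

lemma step_f (n : ℕ) : (ι (An n) / ι (Bn n)) ^ 2 *
    ((ι (An n) / ι (Bn n) - 7) / (7 * (ι (An n) / ι (Bn n)) + 1)) ^ 5 =
      ι (An (n + 1)) / ι (Bn (n + 1)) := by
  have hB := ι_ne (Bn_ne n)
  have hB1 := ι_ne (Bn_ne (n + 1))
  obtain ⟨e1, e2⟩ := ι_succ n
  rw [e2] at hB1 ⊢
  rw [e1]
  have h7 : 7 * ι (An n) + ι (Bn n) ≠ 0 := by
    intro h
    apply hB1
    rw [h]; ring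
  have e3 : ι (An n) / ι (Bn n) - 7 = (ι (An n) - 7 * ι (Bn n)) / ι (Bn n) := by
    field_simp
  have e4 : 7 * (ι (An n) / ι (Bn n)) + 1 = (7 * ι (An n) + ι (Bn n)) / ι (Bn n) := by
    field_simp
  rw [e3, e4, div_div_div_cancel_right₀ hB]
  field_simp

lemma step_g (n : ℕ) : -1 / ((ι (-Bn n) / ι (An n)) ^ 2 *
    ((ι (-Bn n) / ι (An n) - 7) / (7 * (ι (-Bn n) / ι (An n)) + 1)) ^ 5) =
      ι (An (n + 1)) / ι (Bn (n + 1)) := by
  have hB := ι_ne (Bn_ne n)
  have hA := ι_ne (An_ne n)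
  have hA1 := ι_ne (An_ne (n + 1))
  have hB1 := ι_ne (Bn_ne (n + 1))
  obtain ⟨e1, e2⟩ := ι_succ n
  rw [e2] at hB1 ⊢
  rw [e1] at hA1 ⊢
  have h7 : 7 * ι (An n) + ι (Bn n) ≠ 0 := by
    intro h
    apply hB1
    rw [h]; ring
  have h8 : ι (An n) - 7 * ι (Bn n) ≠ 0 := by
    intro h
    apply hA1
    rw [h]; ring
  have hneg : ι (-Bn n) = -ι (Bn n) := map_neg _ _
  rw [hneg]
  have e3 : -ι (Bn n) / ι (An n) - 7 = -(7 * ι (An n) + ι (Bn n)) / ι (An n) := by
    field_simp; ring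
  have e4 : 7 * (-ι (Bn n) / ι (An n)) + 1 = (ι (An n) - 7 * ι (Bn n)) / ι (An n) := by
    field_simp; ring
  rw [e3, e4, div_div_div_cancel_right₀ hA]
  field_simp
  try ring

lemma iter_f (n : ℕ) : iter fR n = ι (An n) / ι (Bn n) := by
  induction n with
  | zero =>
    show RatFunc.X = _
    rw [An_zero, Bn_zero]
    unfold ι
    rw [map_one, div_one, RatFunc.algebraMap_X]
  | succ n ih =>
    have h : iter fR (n + 1) = comp fR (iter fR n) := Function.iterate_succ_apply' _ _ _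
    rw [h, ih, comp_f _ (by rw [deg_AB]; exact Nat.one_le_pow _ _ (by norm_num)), step_f]

lemma step_g' (n : ℕ) : -1 / ((ι (An n) / ι (Bn n)) ^ 2 *
    ((ι (An n) / ι (Bn n) - 7) / (7 * (ι (An n) / ι (Bn n)) + 1)) ^ 5) =
      ι (-Bn (n + 1)) / ι (An (n + 1)) := by
  have hneg : ι (-Bn (n + 1)) = -ι (Bn (n + 1)) := map_neg _ _
  rw [step_f, hneg, div_div_eq_mul_div, neg_one_mul]

lemma iter_g (m : ℕ) : iter gR (2 * m) = ι (An (2 * m)) / ι (Bn (2 * m)) ∧
    iter gR (2 * m + 1) = ι (-Bn (2 * m + 1)) / ι (An (2 * m + 1)) := by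
  have key : ∀ m : ℕ, iter gR (2 * m) = ι (An (2 * m)) / ι (Bn (2 * m)) →
      iter gR (2 * m + 1) = ι (-Bn (2 * m + 1)) / ι (An (2 * m + 1)) := by
    intro m ih
    have h : iter gR (2 * m + 1) = comp gR (iter gR (2 * m)) := Function.iterate_succ_apply' _ _ _
    rw [h, ih, comp_g _ (by rw [deg_AB]; exact Nat.one_le_pow _ _ (by norm_num)), step_g']
  have key2 : ∀ m : ℕ, iter gR (2 * m) = ι (An (2 * m)) / ι (Bn (2 * m)) := by
    intro m
    induction m with
    | zero =>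
      show RatFunc.X = _
      rw [mul_zero, An_zero, Bn_zero]
      unfold ι
      rw [map_one, div_one, RatFunc.algebraMap_X]
    | succ m ih =>
      have h : iter gR (2 * m + 1 + 1) = comp gR (iter gR (2 * m + 1)) :=
        Function.iterate_succ_apply' _ _ _
      have e : 2 * (m + 1) = 2 * m + 1 + 1 := by ring
      rw [e, h, key m ih, comp_g _ (by rw [deg_BA]; exact Nat.one_le_pow _ _ (by norm_num)),
        step_g]
  exact ⟨key2 m, key m (key2 m)⟩

lemma exists_kappa : ∃ κ : ℂ, κ ^ 2 + κ - 1 = 0 := by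
  refine ⟨(((Real.sqrt 5 - 1) / 2 : ℝ) : ℂ), ?_⟩
  have h : (((Real.sqrt 5 - 1) / 2 : ℝ)) ^ 2 + ((Real.sqrt 5 - 1) / 2) - 1 = 0 := by
    have := Real.sq_sqrt (show (0 : ℝ) ≤ 5 by norm_num)
    nlinarith
  exact_mod_cast h

lemma spectrum_odd (m : ℕ) : fixMultipliers (iter fR (2 * m + 1)) =
    fixMultipliers (iter gR (2 * m + 1)) := by
  obtain ⟨κ, hκ⟩ := exists_kappa
  obtain ⟨ω, hω5, hω1⟩ := exists_omega
  rw [iter_f, (iter_g m).2, fixMult_div _ _ (AB_coprime _) (Bn_ne _),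
    fixMult_div _ _ (AB_coprime _).symm.neg_left (An_ne _), natDegree_neg]
  obtain ⟨hmon, hdA, hdB, hdB'⟩ := AB_degree (2 * m + 1)
  have hdB2 := hdB (by omega)
  rw [max_eq_left (by rw [hdA]; exact hdB'.le), max_eq_right (by rw [hdA]; exact hdB'.le), hdA,
    natDegree_sub_aux _ _ _ hdA hdB2]
  -- finite parts
  have hf : (An (2 * m + 1) - X * Bn (2 * m + 1)).roots.map (mu (An (2 * m + 1)) (Bn (2 * m + 1)))
      = (Phi (2 * m + 1)).roots.map (mu (Pn (2 * m + 1)) (Qn (2 * m + 1))) := by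
    rw [roots5 ω hω5 hω1 _ _ (Phi_ne_zero _ (by omega)) (Phi_prod m ω hω5 hω1), Multiset.map_map]
    apply Multiset.map_congr rfl
    intro ρ hρ
    show mu (An (2 * m + 1)) (Bn (2 * m + 1)) (ρ ^ 5) = _
    rcases eq_or_ne ρ 0 with rfl | hρ0
    · rw [zero_pow (by norm_num), mu_zero _ _ (A_at_zero _).1 ((A_at_zero _).2 (by omega)),
        mu_zero _ _ (P_at_zero _).1 ((P_at_zero _).2 (by omega))]
    · have hfix : (Pn (2 * m + 1)).eval ρ = ρ * (Qn (2 * m + 1)).eval ρ := by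
        rw [mem_roots (Phi_ne_zero _ (by omega)), IsRoot] at hρ
        unfold Phi at hρ
        rw [eval_sub, eval_mul, eval_X] at hρ
        linear_combination hρ
      have hQ : (Qn (2 * m + 1)).eval ρ ≠ 0 := by
        rcases PQ_coprime_eval (2 * m + 1) ρ with h | h
        · intro h'
          apply h
          rw [hfix, h', mul_zero]
        · exact h
      exact mu_pow5 _ _ _ _ (expand_AB _).1 (expand_AB _).2 ρ hρ0 hQ hfix
  have hg : (-Bn (2 * m + 1) - X * An (2 * m + 1)).roots.map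
      (mu (-Bn (2 * m + 1)) (An (2 * m + 1)))
      = 0 ::ₘ (Phi (2 * m + 1)).roots.map (mu (Pn (2 * m + 1)) (Qn (2 * m + 1))) := by
    have e0 : -Bn (2 * m + 1) - X * An (2 * m + 1) = -(Bn (2 * m + 1) + X * An (2 * m + 1)) := by
      ring
    rw [e0, roots_neg,
      roots5 ω hω5 hω1 _ _ (Psi_ne_zero _ (by omega)) (Psi_prod m ω hω5 hω1), Multiset.map_map]
    have e1 : (Psi (2 * m + 1)).roots.map
        (mu (-Bn (2 * m + 1)) (An (2 * m + 1)) ∘ fun ρ => ρ ^ 5) =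
        (Psi (2 * m + 1)).roots.map (mu (-Qn (2 * m + 1)) (Pn (2 * m + 1))) := by
      apply Multiset.map_congr rfl
      intro ρ hρ
      show mu (-Bn (2 * m + 1)) (An (2 * m + 1)) (ρ ^ 5) = _
      have hfix : (-Qn (2 * m + 1)).eval ρ = ρ * (Pn (2 * m + 1)).eval ρ := by
        rw [mem_roots (Psi_ne_zero _ (by omega)), IsRoot] at hρ
        unfold Psi at hρ
        rw [eval_add, eval_mul, eval_X] at hρ
        rw [eval_neg]
        linear_combination -hρ
      have hP : (Pn (2 * m + 1)).eval ρ ≠ 0 := by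
        rcases PQ_coprime_eval (2 * m + 1) ρ with h | h
        · exact h
        · intro h'
          apply h
          rw [h', mul_zero, eval_neg] at hfix
          exact neg_eq_zero.mp hfix
      have hρ0 : ρ ≠ 0 := by
        rintro rfl
        exact hP (P_at_zero _).1
      refine mu_pow5 _ _ _ _ ?_ (expand_AB _).1 ρ hρ0 hP hfix
      rw [map_neg, (expand_AB _).2]
      ring
    rw [e1, Psi_roots hκ m, Multiset.map_cons, mu_kap hκ _ (by omega), Multiset.map_map]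
    congr 1
    apply Multiset.map_congr rfl
    intro ρ hρ
    exact mu_T hκ m ρ hρ
  rw [hf, hg]
  have e2 : (-Bn (2 * m + 1) - X * An (2 * m + 1)).natDegree = 7 ^ (2 * m + 1) + 1 := by
    have e0 : -Bn (2 * m + 1) - X * An (2 * m + 1) = -(Bn (2 * m + 1) + X * An (2 * m + 1)) := by
      ring
    rw [e0, natDegree_neg]
    exact natDegree_add_aux _ _ _ hdA hdB2
  have e3 : (Bn (2 * m + 1)).coeff (7 ^ (2 * m + 1) - 1) = 0 :=
    coeff_eq_zero_of_natDegree_lt (by omega)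
  rw [e2, e3, Nat.sub_self, Multiset.replicate_zero, add_zero, zero_div,
    Nat.add_sub_cancel_left, Multiset.replicate_one, ← Multiset.singleton_add, add_comm]

theorem sameSpectrum : SameSpectrum fR gR := by
  intro n hn
  rcases Nat.even_or_odd' n with ⟨m, rfl | rfl⟩
  · rw [iter_f, (iter_g m).1]
  · exact spectrum_odd m

end

end Pool.Agent.H884R3.Ms
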