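import Pool.Agent.H884R3.Defs

set_option autoImplicit false

open Set Metric Filter Topology

namespace Pool.Agent.H884R3

/-- a loop in the punctured plane from a continuous nonvanishing function -/
noncomputable def mkLoop (g : Circle → ℂ) (hg : Continuous g) (h0 : ∀ z, g z ≠ 0) :
    C(Circle, {z : ℂ // z ≠ 0}) := ⟨fun z => ⟨g z, h0 z⟩, by fun_prop⟩

lemma homotopic_of_family (g₀ g₁ : C(Circle, {z : ℂ // z ≠ 0})) (H : unitInterval × Circle → ℂ)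
    (hH : Continuous H) (hne : ∀ p, H p ≠ 0) (h0 : ∀ z, H (0, z) = (g₀ z : ℂ))
    (h1 : ∀ z, H (1, z) = (g₁ z : ℂ)) : g₀.Homotopic g₁ := by
  refine ⟨⟨⟨fun p => ⟨H p, hne p⟩, by fun_prop⟩, fun z => ?_, fun z => ?_⟩⟩
  · exact Subtype.ext (h0 z)
  · exact Subtype.ext (h1 z)

lemma homotopic_of_segment (g₀ g₁ : C(Circle, {z : ℂ // z ≠ 0}))
    (h : ∀ z : Circle, ∀ t : ℝ, 0 ≤ t → t ≤ 1 →
      ((1 - t : ℝ) : ℂ) * (g₀ z : ℂ) + (t : ℂ) * (g₁ z : ℂ) ≠ 0) : g₀.Homotopic g₁ := by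
  refine homotopic_of_family g₀ g₁
    (fun p => ((1 - (p.1 : ℝ) : ℝ) : ℂ) * (g₀ p.2 : ℂ) + ((p.1 : ℝ) : ℂ) * (g₁ p.2 : ℂ)) ?_ ?_ ?_ ?_
  · fun_prop
  · intro p
    exact h p.2 p.1 p.1.2.1 p.1.2.2
  · intro z; simp
  · intro z; simp

/-- segment criterion by distance -/
lemma homotopic_of_dist_lt (g₀ g₁ : C(Circle, {z : ℂ // z ≠ 0}))
    (h : ∀ z : Circle, ‖(g₀ z : ℂ) - (g₁ z : ℂ)‖ < ‖(g₁ z : ℂ)‖) : g₀.Homotopic g₁ := by
  refine homotopic_of_segment g₀ g₁ fun z t ht0 ht1 h0 => ?_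
  have h1 : (g₁ z : ℂ) = -(((1 - t : ℝ) : ℂ) * ((g₀ z : ℂ) - (g₁ z : ℂ))) := by
    have : ((1 - t : ℝ) : ℂ) = 1 - (t : ℂ) := by push_cast; ring
    rw [this] at h0 ⊢
    linear_combination h0
  have h2 := h z
  have h3 : ‖(g₁ z : ℂ)‖ ≤ ‖(g₀ z : ℂ) - (g₁ z : ℂ)‖ := by
    rw [h1, norm_neg, norm_mul, Complex.norm_real, Real.norm_eq_abs, abs_of_nonneg (by linarith)]
    rw [← h1]
    have := norm_nonneg ((g₀ z : ℂ) - (g₁ z : ℂ))
    nlinarith
  linarith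

/-- multiplication of a loop by a nonzero constant -/
lemma homotopic_const_mul (c : ℂ) (hc : c ≠ 0) (g : C(Circle, {z : ℂ // z ≠ 0})) :
    (mkLoop (fun z => c * (g z : ℂ)) (by fun_prop)
      (fun z => mul_ne_zero hc (g z).2)).Homotopic g := by
  refine homotopic_of_family _ _
    (fun p => Complex.exp (((1 - (p.1 : ℝ) : ℝ) : ℂ) * Complex.log c) * (g p.2 : ℂ)) ?_ ?_ ?_ ?_
  · fun_prop
  · intro p
    exact mul_ne_zero (Complex.exp_ne_zero _) (g p.2).2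
  · intro z
    simp [mkLoop, Complex.exp_log hc]
  · intro z; simp

/-- a real-linear map of the plane in complex coordinates -/
lemma clm_eq (L : ℂ →L[ℝ] ℂ) (z : ℂ) :
    L z = ((L 1 - Complex.I * L Complex.I) / 2) * z +
      ((L 1 + Complex.I * L Complex.I) / 2) * (starRingEnd ℂ) z := by
  have h1 : L z = (z.re : ℂ) * L 1 + (z.im : ℂ) * L Complex.I := by
    have : z = z.re • (1 : ℂ) + z.im • Complex.I := by
      simp [Complex.re_add_im]
    conv_lhs => rw [this]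
    rw [map_add, map_smul, map_smul, Complex.real_smul, Complex.real_smul]
  rw [h1]
  have h2 : (z.re : ℂ) = (z + (starRingEnd ℂ) z) / 2 := by
    rw [Complex.re_eq_add_conj]
  have h3 : (z.im : ℂ) = -Complex.I * (z - (starRingEnd ℂ) z) / 2 := by
    rw [Complex.im_eq_sub_conj]
    field_simp
    rw [Complex.I_sq]
    ring
  rw [h2, h3]
  ring

lemma det_eq (L : ℂ →L[ℝ] ℂ) :
    L.det = ‖(L 1 - Complex.I * L Complex.I) / 2‖ ^ 2 - ‖(L 1 + Complex.I * L Complex.I) / 2‖ ^ 2 := by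
  have h1 : L.det = (L 1).re * (L Complex.I).im - (L Complex.I).re * (L 1).im := by
    rw [ContinuousLinearMap.det, ← LinearMap.det_toMatrix Complex.basisOneI, Matrix.det_fin_two]
    simp [LinearMap.toMatrix_apply]
  rw [h1, ← Complex.normSq_eq_norm_sq, ← Complex.normSq_eq_norm_sq, Complex.normSq_apply,
    Complex.normSq_apply]
  simp
  ring

/-- the plane map is continuous near `w` and real-differentiable at `w` with positive Jacobian -/
def PosDiff (g : ℂ → ℂ) (w : ℂ) : Prop :=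
  (∀ᶠ v in 𝓝 w, ContinuousAt g v) ∧ ∃ L : ℂ →L[ℝ] ℂ, HasFDerivAt g L w ∧ 0 < L.det

lemma norm_circle (z : Circle) : ‖(z : ℂ)‖ = 1 := Circle.norm_coe z

lemma PosDiff.posAt {g : ℂ → ℂ} {w : ℂ} (h : PosDiff g w) : PosAt g w := by
  obtain ⟨hc, L, hL, hdet⟩ := h
  set a := (L 1 - Complex.I * L Complex.I) / 2 with ha
  set b := (L 1 + Complex.I * L Complex.I) / 2 with hb
  have hab : ‖b‖ < ‖a‖ := by
    rw [det_eq, ← ha, ← hb] at hdet
    have h1 := norm_nonneg a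
    have h2 := norm_nonneg b
    nlinarith
  have hLz : ∀ z, L z = a * z + b * (starRingEnd ℂ) z := clm_eq L
  have ha0 : a ≠ 0 := by
    intro h
    rw [h, norm_zero] at hab
    exact absurd (norm_nonneg b) (not_le.mpr hab)
  -- lower bound
  have hlow : ∀ z : ℂ, (‖a‖ - ‖b‖) * ‖z‖ ≤ ‖L z‖ := by
    intro z
    rw [hLz]
    have h1 : ‖a * z‖ = ‖a‖ * ‖z‖ := norm_mul _ _
    have h2 : ‖b * (starRingEnd ℂ) z‖ = ‖b‖ * ‖z‖ := by rw [norm_mul, RCLike.norm_conj]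
    have h3 : ‖a * z‖ ≤ ‖a * z + b * (starRingEnd ℂ) z‖ + ‖b * (starRingEnd ℂ) z‖ := by
      have := norm_sub_le (a * z + b * (starRingEnd ℂ) z) (b * (starRingEnd ℂ) z)
      simpa using this
    nlinarith
  have hδ : 0 < (‖a‖ - ‖b‖) / 2 := by linarith
  have hlit := (hasFDerivAt_iff_isLittleO_nhds_zero.mp hL).def hδ
  -- combine
  have hc' : ∀ᶠ v in 𝓝 (0 : ℂ), ContinuousAt g (w + v) := by
    have : Tendsto (fun v : ℂ => w + v) (𝓝 0) (𝓝 w) := by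
      have h : Continuous fun v : ℂ => w + v := by fun_prop
      simpa using h.tendsto 0
    exact this.eventually hc
  obtain ⟨r₀, hr₀, hball⟩ := Metric.eventually_nhds_iff.mp (hlit.and hc')
  refine ⟨r₀, hr₀, fun r hr hrr => ?_⟩
  have hrz : ∀ z : Circle, ‖(r : ℂ) * (z : ℂ)‖ = r := by
    intro z
    rw [norm_mul, norm_circle, Complex.norm_real, Real.norm_eq_abs, abs_of_pos hr, mul_one]
  have hmem : ∀ z : Circle, dist ((r : ℂ) * (z : ℂ)) 0 < r₀ := by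
    intro z
    rw [dist_zero_right, hrz]
    exact hrr
  have hcont : Continuous (fun z : Circle => g (w + (r : ℂ) * (z : ℂ)) - g w) := by
    refine Continuous.sub ?_ continuous_const
    rw [continuous_iff_continuousAt]
    intro z
    have h1 := (hball (hmem z)).2
    have h2 : ContinuousAt (fun z : Circle => w + (r : ℂ) * (z : ℂ)) z := by fun_prop
    exact ContinuousAt.comp (f := fun z : Circle => w + (r : ℂ) * (z : ℂ)) h1 h2
  have hest : ∀ z : Circle, ‖g (w + (r : ℂ) * (z : ℂ)) - g w - L ((r : ℂ) * (z : ℂ))‖ ≤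
      (‖a‖ - ‖b‖) / 2 * r := by
    intro z
    have h1 := (hball (hmem z)).1
    rw [hrz] at h1
    exact h1
  have hLr : ∀ z : Circle, (‖a‖ - ‖b‖) * r ≤ ‖L ((r : ℂ) * (z : ℂ))‖ := by
    intro z
    have h1 := hlow ((r : ℂ) * (z : ℂ))
    rwa [hrz] at h1
  have hLne : ∀ z : Circle, L ((r : ℂ) * (z : ℂ)) ≠ 0 := by
    intro z h0
    have h1 := hLr z
    rw [h0, norm_zero] at h1
    nlinarith
  have hgne : ∀ z : Circle, g (w + (r : ℂ) * (z : ℂ)) - g w ≠ 0 := by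
    intro z h0
    have h1 := hest z
    rw [h0, zero_sub, norm_neg] at h1
    have h2 := hLr z
    nlinarith
  refine ⟨mkLoop _ hcont hgne, fun z => rfl, ?_⟩
  let γ₁ : C(Circle, {z : ℂ // z ≠ 0}) :=
    mkLoop (fun z => L ((r : ℂ) * (z : ℂ))) (by fun_prop) hLne
  have hra : (r : ℂ) * a ≠ 0 := mul_ne_zero (by exact_mod_cast hr.ne') ha0
  let γ₂ : C(Circle, {z : ℂ // z ≠ 0}) :=
    mkLoop (fun z => ((r : ℂ) * a) * (unitLoop z : ℂ)) (by fun_prop)
      (fun z => mul_ne_zero hra (unitLoop z).2)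
  have s1 : (mkLoop _ hcont hgne).Homotopic γ₁ := by
    refine homotopic_of_dist_lt _ _ fun z => ?_
    have h1 := hest z
    have h2 := hLr z
    show ‖(g (w + (r : ℂ) * (z : ℂ)) - g w) - L ((r : ℂ) * (z : ℂ))‖ < ‖L ((r : ℂ) * (z : ℂ))‖
    nlinarith
  have s2 : γ₁.Homotopic γ₂ := by
    refine homotopic_of_dist_lt _ _ fun z => ?_
    show ‖L ((r : ℂ) * (z : ℂ)) - ((r : ℂ) * a) * (z : ℂ)‖ < ‖((r : ℂ) * a) * (z : ℂ)‖
    have h1 : L ((r : ℂ) * (z : ℂ)) - ((r : ℂ) * a) * (z : ℂ) =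
        b * (starRingEnd ℂ) ((r : ℂ) * (z : ℂ)) := by
      rw [hLz]; ring
    rw [h1, norm_mul, RCLike.norm_conj, hrz, norm_mul, norm_mul, norm_circle, Complex.norm_real,
      Real.norm_eq_abs, abs_of_pos hr]
    nlinarith
  exact (s1.trans s2).trans (homotopic_const_mul _ hra unitLoop)

lemma PosDiff.comp {g h : ℂ → ℂ} {w : ℂ} (hg : PosDiff g (h w)) (hh : PosDiff h w) :
    PosDiff (fun v => g (h v)) w := by
  obtain ⟨hc1, L1, hL1, hd1⟩ := hg
  obtain ⟨hc2, L2, hL2, hd2⟩ := hh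
  refine ⟨?_, L1.comp L2, hL1.comp w hL2, ?_⟩
  · have h1 : ContinuousAt h w := hL2.continuousAt
    filter_upwards [h1.eventually hc1, hc2] with v hv1 hv2
    exact ContinuousAt.comp (f := h) hv1 hv2
  · have : (L1.comp L2).det = L1.det * L2.det := by
      simp [ContinuousLinearMap.det, LinearMap.det_comp]
    rw [this]
    exact mul_pos hd1 hd2

lemma PosDiff.congr {g h : ℂ → ℂ} {w : ℂ} (hg : PosDiff g w) (he : h =ᶠ[𝓝 w] g) :
    PosDiff h w := by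
  obtain ⟨hc, L, hL, hd⟩ := hg
  refine ⟨?_, L, hL.congr_of_eventuallyEq he, hd⟩
  filter_upwards [hc, he.eventually_nhds] with v hv1 hv2
  exact hv1.congr (Filter.EventuallyEq.symm hv2)

/-- a holomorphic function with nonvanishing derivative -/
lemma posDiff_of_hasDerivAt {g : ℂ → ℂ} {g' w : ℂ} (hc : ∀ᶠ v in 𝓝 w, ContinuousAt g v)
    (hd : HasDerivAt g g' w) (h0 : g' ≠ 0) : PosDiff g w := by
  refine ⟨hc, _, hd.complexToReal_fderiv', ?_⟩
  rw [det_eq]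
  simp
  have : 0 < ‖g'‖ := norm_pos_iff.mpr h0
  have h1 : g' - Complex.I * (Complex.I * g') = 2 * g' := by
    rw [← mul_assoc, Complex.I_mul_I]; ring
  have h2 : g' + Complex.I * (Complex.I * g') = 0 := by
    rw [← mul_assoc, Complex.I_mul_I]; ring
  rw [h1, h2]
  simp
  positivity

/-- the local inverse of a map with positive Jacobian -/
lemma PosDiff.symm (e : OpenPartialHomeomorph ℂ ℂ) {w : ℂ} (hw : w ∈ e.target)
    (h : PosDiff e (e.symm w)) : PosDiff e.symm w := by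
  obtain ⟨hc, L, hL, hd⟩ := h
  have hdet : L.det ≠ 0 := hd.ne'
  let L' : ℂ ≃L[ℝ] ℂ := L.toContinuousLinearEquivOfDetNeZero hdet
  have hL' : HasFDerivAt e (L' : ℂ →L[ℝ] ℂ) (e.symm w) := by
    have : (L' : ℂ →L[ℝ] ℂ) = L := by ext <;> rfl
    rw [this]; exact hL
  refine ⟨?_, (L'.symm : ℂ →L[ℝ] ℂ), e.hasFDerivAt_symm hw hL', ?_⟩
  · filter_upwards [e.open_target.mem_nhds hw] with v hv
    exact e.continuousAt_symm hv
  · have h1 : ((L'.symm : ℂ →L[ℝ] ℂ)).det * (L' : ℂ →L[ℝ] ℂ).det = 1 := by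
      simp only [ContinuousLinearMap.det]
      rw [← LinearMap.det_comp]
      have : ((L'.symm : ℂ →L[ℝ] ℂ) : ℂ →ₗ[ℝ] ℂ).comp ((L' : ℂ →L[ℝ] ℂ) : ℂ →ₗ[ℝ] ℂ) =
          LinearMap.id := by
        ext <;> simp
      rw [this, LinearMap.det_id]
    have h2 : (L' : ℂ →L[ℝ] ℂ).det = L.det := rfl
    rw [h2] at h1
    by_contra hneg
    push Not at hneg
    nlinarith

lemma PosAt.sub_const {g : ℂ → ℂ} {w : ℂ} (h : PosAt g w) (c : ℂ) :
    PosAt (fun v => g v - c) w := by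
  obtain ⟨r₀, hr₀, h1⟩ := h
  refine ⟨r₀, hr₀, fun r hr hrr => ?_⟩
  obtain ⟨γ, hγ, hγ'⟩ := h1 r hr hrr
  refine ⟨γ, fun z => ?_, hγ'⟩
  rw [hγ z]; ring

lemma PosAt.congr {g h : ℂ → ℂ} {w : ℂ} (hg : PosAt g w) (he : h =ᶠ[𝓝 w] g) : PosAt h w := by
  obtain ⟨r₀, hr₀, h1⟩ := hg
  obtain ⟨δ, hδ, h2⟩ := Metric.eventually_nhds_iff.mp he
  refine ⟨min r₀ δ, lt_min hr₀ hδ, fun r hr hrr => ?_⟩
  obtain ⟨γ, hγ, hγ'⟩ := h1 r hr (lt_of_lt_of_le hrr (min_le_left _ _))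
  refine ⟨γ, fun z => ?_, hγ'⟩
  rw [hγ z, he.self_of_nhds, h2]
  rw [dist_eq_norm, add_sub_cancel_left, norm_mul, norm_circle, Complex.norm_real,
    Real.norm_eq_abs, abs_of_pos hr, mul_one]
  exact lt_of_lt_of_le hrr (min_le_right _ _)

end Pool.Agent.H884R3
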