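import Pool.Agent.H884R3.Sph

set_option autoImplicit false
set_option linter.unusedSimpArgs false

open Set Metric Filter Topology

namespace Pool.Agent.H884R3

lemma I3 : Complex.I ^ 3 = -Complex.I := by
  rw [pow_succ, Complex.I_sq]; ring

/-- the self-map `F` of the sphere, read in stereographic coordinates, is differentiable with
positive Jacobian at `x` -/
def PosS (F : S2 → S2) (x : S2) : Prop :=
  x.1 2 ≠ 1 ∧ (F x).1 2 ≠ 1 ∧ PosDiff (fun v => stF (F (stereoInv v))) (stF x)

lemma isOpen_fin : IsOpen {p : S2 | p.1 2 ≠ 1} :=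
  isOpen_ne_fun (continuous_coord 2) continuous_const

lemma PosS.comp {F G : S2 → S2} {x : S2} (hF : Continuous F) (h1 : PosS F x)
    (h2 : PosS G (F x)) : PosS (fun y => G (F y)) x := by
  obtain ⟨a1, a2, a3⟩ := h1
  obtain ⟨b1, b2, b3⟩ := h2
  refine ⟨a1, b2, ?_⟩
  have h0 : stF (F (stereoInv (stF x))) = stF (F x) := by rw [stereoInv_stF a1]
  have key : PosDiff (fun v => (fun u => stF (G (stereoInv u))) (stF (F (stereoInv v)))) (stF x) := by
    refine PosDiff.comp (g := fun u => stF (G (stereoInv u)))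
      (h := fun v => stF (F (stereoInv v))) ?_ a3
    rw [h0]; exact b3
  refine key.congr ?_
  have hev : ∀ᶠ v in 𝓝 (stF x), (F (stereoInv v)).1 2 ≠ 1 := by
    have hc : Continuous fun v => F (stereoInv v) := hF.comp continuous_stereoInv
    refine hc.continuousAt.eventually (isOpen_fin.mem_nhds ?_)
    show (F (stereoInv (stF x))).1 2 ≠ 1
    rw [stereoInv_stF a1]; exact a2
  filter_upwards [hev] with v hv
  show stF (G (F (stereoInv v))) = stF (G (stereoInv (stF (F (stereoInv v)))))
  rw [stereoInv_stF hv]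

lemma cx_ne_zero_of {x : S2} (h : stF x ≠ 0) : cx x ≠ 0 := by
  intro h0; apply h; unfold stF; rw [h0, zero_div]

lemma stF_ne_zero {x : S2} (hx : x.1 2 ≠ 1) (h : cx x ≠ 0) : stF x ≠ 0 := by
  unfold stF
  refine div_ne_zero h ?_
  have : 1 - x.1 2 ≠ 0 := fun h1 => hx (by linarith)
  exact Complex.ofReal_ne_zero.mpr this

lemma cx_ne_zero_fin {x : S2} (h : cx x ≠ 0) : x.1 2 ≠ 1 := by
  intro h1
  apply h
  have h2 := norm_cx_sq x
  rw [h1] at h2
  have h3 : ‖cx x‖ ^ 2 = 0 := by rw [h2]; norm_num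
  exact norm_eq_zero.mp (by nlinarith [norm_nonneg (cx x)])

lemma posS_QQ {x : S2} (h : cx x ≠ 0) : PosS QQ x := by
  have hx := cx_ne_zero_fin h
  refine ⟨hx, by rw [QQ_2]; exact hx, ?_⟩
  have h1 : (fun v => stF (QQ (stereoInv v))) = DD := by
    funext v; rw [QQ_stereoInv, stF_stereoInv]
  rw [h1]
  exact posDiff_DD (stF_ne_zero hx h)

lemma posS_mob (A : S2 → S2) (α β γ δ : ℂ) (hdet : α * δ - β * γ ≠ 0)
    (h : ∀ w, γ * w + δ ≠ 0 → A (stereoInv w) = stereoInv ((α * w + β) / (γ * w + δ)))
    (h' : ∀ w, γ * w + δ = 0 → (A (stereoInv w)).1 2 = 1) {x : S2} (hx : x.1 2 ≠ 1)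
    (hAx : (A x).1 2 ≠ 1) : PosS A x := by
  refine ⟨hx, hAx, ?_⟩
  have h1 : γ * stF x + δ ≠ 0 := by
    intro h2
    apply hAx
    have := h' _ h2
    rwa [stereoInv_stF hx] at this
  have hev : ∀ᶠ v in 𝓝 (stF x), γ * v + δ ≠ 0 := by
    have hc : Continuous fun v : ℂ => γ * v + δ := by fun_prop
    exact hc.continuousAt.eventually (isOpen_ne.mem_nhds h1)
  have hd : ∀ v : ℂ, γ * v + δ ≠ 0 →
      HasDerivAt (fun v => (α * v + β) / (γ * v + δ))
        ((α * (γ * v + δ) - (α * v + β) * γ) / (γ * v + δ) ^ 2) v := by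
    intro v hv
    have d1 : HasDerivAt (fun v : ℂ => α * v + β) α v := by
      simpa using ((hasDerivAt_id v).const_mul α).add_const β
    have d2 : HasDerivAt (fun v : ℂ => γ * v + δ) γ v := by
      simpa using ((hasDerivAt_id v).const_mul γ).add_const δ
    exact d1.div d2 hv
  have key : PosDiff (fun v => (α * v + β) / (γ * v + δ)) (stF x) := by
    refine posDiff_of_hasDerivAt ?_ (hd _ h1) ?_
    · filter_upwards [hev] with v hv
      exact (hd v hv).continuousAt
    · refine div_ne_zero ?_ (pow_ne_zero _ h1)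
      intro h2; apply hdet; linear_combination h2
  refine key.congr ?_
  filter_upwards [hev] with v hv
  rw [h v hv, stF_stereoInv]

lemma coords_c (w : ℂ) : w * (starRingEnd ℂ) w + 1 ≠ 0 ∧
    (((stereoInv w).1 0 : ℝ) : ℂ) = (w + (starRingEnd ℂ) w) / (w * (starRingEnd ℂ) w + 1) ∧
    (((stereoInv w).1 1 : ℝ) : ℂ) =
      -Complex.I * (w - (starRingEnd ℂ) w) / (w * (starRingEnd ℂ) w + 1) ∧
    (((stereoInv w).1 2 : ℝ) : ℂ) =
      (w * (starRingEnd ℂ) w - 1) / (w * (starRingEnd ℂ) w + 1) := by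
  have h1 : w * (starRingEnd ℂ) w = ((‖w‖ ^ 2 : ℝ) : ℂ) := by
    rw [Complex.mul_conj, Complex.normSq_eq_norm_sq]
  have h0 : (‖w‖ ^ 2 + 1 : ℝ) ≠ 0 := by positivity
  refine ⟨?_, ?_, ?_, ?_⟩
  · rw [h1]; exact_mod_cast h0
  · rw [h1, stereoInv_0, Complex.add_conj]; push_cast; ring
  · rw [h1, stereoInv_1, Complex.sub_conj]
    push_cast
    have : -Complex.I * (2 * (w.im : ℂ) * Complex.I) = 2 * w.im := by
      linear_combination (-2 * (w.im : ℂ)) * Complex.I_sq
    rw [this]
  · rw [h1, stereoInv_2]; push_cast; ring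

lemma posS_rot_aux (A : S2 → S2) (k α β γ δ : ℂ) (hk : k ≠ 0) (hdet : α * δ - β * γ ≠ 0)
    (hz : ∀ w, (1 - (((A (stereoInv w)).1 2 : ℝ) : ℂ)) * (w * (starRingEnd ℂ) w + 1) =
      k * ((γ * w + δ) * (starRingEnd ℂ) (γ * w + δ)))
    (hxy : ∀ w, cx (A (stereoInv w)) * (w * (starRingEnd ℂ) w + 1) =
      k * ((α * w + β) * (starRingEnd ℂ) (γ * w + δ))) {x : S2} (hx : x.1 2 ≠ 1)
    (hAx : (A x).1 2 ≠ 1) : PosS A x := by
  refine posS_mob A α β γ δ hdet ?_ ?_ hx hAx
  · intro w hw
    obtain ⟨h0, -, -, -⟩ := coords_c w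
    have hw' : (starRingEnd ℂ) (γ * w + δ) ≠ 0 := by
      intro h; exact hw ((map_eq_zero _).mp h)
    apply eq_stereoInv
    · intro h1
      have h2 := hz w
      rw [h1] at h2
      simp only [Complex.ofReal_one, sub_self, zero_mul] at h2
      exact mul_ne_zero hk (mul_ne_zero hw hw') h2.symm
    · have h2 := hz w
      have h3 := hxy w
      apply mul_right_cancel₀ h0
      rw [h3]
      push_cast
      rw [mul_assoc, h2]
      generalize (starRingEnd ℂ) (γ * w + δ) = c at *
      generalize γ * w + δ = D at *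
      field_simp
  · intro w hw
    obtain ⟨h0, -, -, -⟩ := coords_c w
    have h2 := hz w
    rw [hw, zero_mul, mul_zero] at h2
    have h3 := (mul_eq_zero.mp h2).resolve_right h0
    have h4 : ((((A (stereoInv w)).1 2 : ℝ)) : ℂ) = 1 := by linear_combination -h3
    exact_mod_cast h4

/-- the property we need of rotations -/
def RotPos (A : S2 → S2) : Prop := ∀ x : S2, x.1 2 ≠ 1 → (A x).1 2 ≠ 1 → PosS A x

lemma rotPos_id : RotPos (fun x => x) := by
  intro x hx hAx
  refine posS_rot_aux _ 2 1 0 0 1 (by norm_num) (by norm_num) ?_ ?_ hx hAx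
  · intro w
    obtain ⟨h0, h1, h2, h3⟩ := coords_c w
    simp only [h3]; field_simp
    simp only [map_add, map_mul, map_neg, map_one, map_zero, Complex.conj_I]
    try ring_nf
    try simp only [Complex.I_sq, I3]
    try ring_nf
  · intro w
    obtain ⟨h0, h1, h2, h3⟩ := coords_c w
    simp only [cx, h1, h2]; field_simp
    simp only [map_add, map_mul, map_neg, map_one, map_zero, Complex.conj_I]
    try ring_nf
    try simp only [Complex.I_sq, I3]
    try ring_nf

lemma rotPos_rot1 : RotPos rot1 := by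
  intro x hx hAx
  refine posS_rot_aux _ 1 1 (-1) 1 1 (by norm_num) (by norm_num) ?_ ?_ hx hAx
  · intro w
    obtain ⟨h0, h1, h2, h3⟩ := coords_c w
    simp only [rot1_2, Complex.ofReal_neg, h1]; field_simp
    simp only [map_add, map_mul, map_neg, map_one, map_zero, Complex.conj_I]
    try ring_nf
    try simp only [Complex.I_sq, I3]
    try ring_nf
  · intro w
    obtain ⟨h0, h1, h2, h3⟩ := coords_c w
    simp only [cx, rot1_0, rot1_1, h2, h3]; field_simp
    simp only [map_add, map_mul, map_neg, map_one, map_zero, Complex.conj_I]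
    try ring_nf
    try simp only [Complex.I_sq, I3]
    try ring_nf

lemma rotPos_rot2 : RotPos rot2 := by
  intro x hx hAx
  refine posS_rot_aux _ 1 (-Complex.I) (-Complex.I * Complex.I) 1 (-Complex.I) (by norm_num) ?_ ?_ ?_ hx hAx
  · have : -Complex.I * -Complex.I - -Complex.I * Complex.I * 1 = -2 := by
      linear_combination (2 : ℂ) * Complex.I_sq
    rw [this]; norm_num
  · intro w
    obtain ⟨h0, h1, h2, h3⟩ := coords_c w
    simp only [rot2_2, h2]; field_simp
    simp only [map_add, map_mul, map_neg, map_one, map_zero, Complex.conj_I]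
    try ring_nf
    try simp only [Complex.I_sq, I3]
    try ring_nf
  · intro w
    obtain ⟨h0, h1, h2, h3⟩ := coords_c w
    simp only [cx, rot2_0, rot2_1, Complex.ofReal_neg, h1, h3]; field_simp
    simp only [map_add, map_mul, map_neg, map_one, map_zero, Complex.conj_I]
    try ring_nf
    try simp only [Complex.I_sq, I3]
    try ring_nf

lemma rotPos_rot2s : RotPos rot2.symm := by
  intro x hx hAx
  refine posS_rot_aux _ 1 Complex.I (-Complex.I * Complex.I) 1 Complex.I (by norm_num) ?_ ?_ ?_ hx hAx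
  · have : Complex.I * Complex.I - -Complex.I * Complex.I * 1 = -2 := by
      linear_combination (2 : ℂ) * Complex.I_sq
    rw [this]; norm_num
  · intro w
    obtain ⟨h0, h1, h2, h3⟩ := coords_c w
    simp only [rot2s_2, Complex.ofReal_neg, h2]; field_simp
    simp only [map_add, map_mul, map_neg, map_one, map_zero, Complex.conj_I]
    try ring_nf
    try simp only [Complex.I_sq, I3]
    try ring_nf
  · intro w
    obtain ⟨h0, h1, h2, h3⟩ := coords_c w
    simp only [cx, rot2s_0, rot2s_1, h1, h3]; field_simp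
    simp only [map_add, map_mul, map_neg, map_one, map_zero, Complex.conj_I]
    try ring_nf
    try simp only [Complex.I_sq, I3]
    try ring_nf

lemma rotPos_tau : RotPos tau := by
  intro x hx hAx
  refine posS_rot_aux _ 2 0 1 1 0 (by norm_num) (by norm_num) ?_ ?_ hx hAx
  · intro w
    obtain ⟨h0, h1, h2, h3⟩ := coords_c w
    simp only [tau_2, Complex.ofReal_neg, h3]; field_simp
    simp only [map_add, map_mul, map_neg, map_one, map_zero, Complex.conj_I]
    try ring_nf
    try simp only [Complex.I_sq, I3]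
    try ring_nf
  · intro w
    obtain ⟨h0, h1, h2, h3⟩ := coords_c w
    simp only [cx, tau_0, tau_1, Complex.ofReal_neg, h1, h2]; field_simp
    simp only [map_add, map_mul, map_neg, map_one, map_zero, Complex.conj_I]
    try ring_nf
    try simp only [Complex.I_sq, I3]
    try ring_nf

lemma rotPos_tau_rot1 : RotPos (fun x => tau (rot1 x)) := by
  intro x hx hAx
  refine posS_rot_aux _ 1 1 1 1 (-1) (by norm_num) (by norm_num) ?_ ?_ hx hAx
  · intro w
    obtain ⟨h0, h1, h2, h3⟩ := coords_c w
    simp only [tau_2, rot1_2, Complex.ofReal_neg, h1]; field_simp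
    simp only [map_add, map_mul, map_neg, map_one, map_zero, Complex.conj_I]
    try ring_nf
    try simp only [Complex.I_sq, I3]
    try ring_nf
  · intro w
    obtain ⟨h0, h1, h2, h3⟩ := coords_c w
    simp only [cx, tau_0, tau_1, rot1_0, rot1_1, Complex.ofReal_neg, h2, h3]; field_simp
    simp only [map_add, map_mul, map_neg, map_one, map_zero, Complex.conj_I]
    try ring_nf
    try simp only [Complex.I_sq, I3]
    try ring_nf

lemma rotPos_rot1_tau : RotPos (fun x => rot1 (tau x)) := by
  intro x hx hAx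
  refine posS_rot_aux _ 1 (-1) 1 1 1 (by norm_num) (by norm_num) ?_ ?_ hx hAx
  · intro w
    obtain ⟨h0, h1, h2, h3⟩ := coords_c w
    simp only [rot1_2, tau_0, Complex.ofReal_neg, h1]; field_simp
    simp only [map_add, map_mul, map_neg, map_one, map_zero, Complex.conj_I]
    try ring_nf
    try simp only [Complex.I_sq, I3]
    try ring_nf
  · intro w
    obtain ⟨h0, h1, h2, h3⟩ := coords_c w
    simp only [cx, tau_1, tau_2, rot1_0, rot1_1, Complex.ofReal_neg, h2, h3]; field_simp
    simp only [map_add, map_mul, map_neg, map_one, map_zero, Complex.conj_I]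
    try ring_nf
    try simp only [Complex.I_sq, I3]
    try ring_nf

lemma tau_rot2 : (fun x => tau (rot2 x)) = rot2.symm := by
  funext x
  apply ext3 <;> simp

lemma tau_rot2s : (fun x => tau (rot2.symm x)) = rot2 := by
  funext x
  apply ext3 <;> simp

lemma rotPos_tau_rot2 : RotPos (fun x => tau (rot2 x)) := by
  rw [tau_rot2]; exact rotPos_rot2s

lemma rotPos_tau_rot2s : RotPos (fun x => tau (rot2.symm x)) := by
  rw [tau_rot2s]; exact rotPos_rot2

end Pool.Agent.H884R3
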