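import Pool.Agent.H884R3.Maps

set_option autoImplicit false

open Set Metric Filter Topology

namespace Pool.Agent.H884R3

lemma mem_sphere_iff3 (v : E3) : v ∈ Metric.sphere (0 : E3) 1 ↔ v 0 ^ 2 + v 1 ^ 2 + v 2 ^ 2 = 1 := by
  rw [mem_sphere_zero_iff_norm, EuclideanSpace.norm_eq, Real.sqrt_eq_one]
  simp only [Fin.sum_univ_three, Real.norm_eq_abs, sq_abs]

/-- the point with given coordinates -/
noncomputable def mk3 (x y z : ℝ) (h : x ^ 2 + y ^ 2 + z ^ 2 = 1) : S2 :=
  ⟨!₂[x, y, z], (mem_sphere_iff3 _).mpr (by simpa using h)⟩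

@[simp] lemma mk3_0 (x y z : ℝ) (h : x ^ 2 + y ^ 2 + z ^ 2 = 1) : (mk3 x y z h).1 0 = x := by
  simp [mk3]
@[simp] lemma mk3_1 (x y z : ℝ) (h : x ^ 2 + y ^ 2 + z ^ 2 = 1) : (mk3 x y z h).1 1 = y := by
  simp [mk3]
@[simp] lemma mk3_2 (x y z : ℝ) (h : x ^ 2 + y ^ 2 + z ^ 2 = 1) : (mk3 x y z h).1 2 = z := by
  simp [mk3]

lemma coord_sq (p : S2) : p.1 0 ^ 2 + p.1 1 ^ 2 + p.1 2 ^ 2 = 1 := (mem_sphere_iff3 _).mp p.2

lemma ext3 {p q : S2} (h0 : p.1 0 = q.1 0) (h1 : p.1 1 = q.1 1) (h2 : p.1 2 = q.1 2) : p = q := by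
  apply Subtype.ext
  ext i
  fin_cases i
  · exact h0
  · exact h1
  · exact h2

lemma continuous_mk3 {X : Type*} [TopologicalSpace X] {a b c : X → ℝ} (ha : Continuous a)
    (hb : Continuous b) (hc : Continuous c) (h : ∀ x, a x ^ 2 + b x ^ 2 + c x ^ 2 = 1) :
    Continuous fun x => mk3 (a x) (b x) (c x) (h x) := by
  refine Continuous.subtype_mk ?_ _
  refine (PiLp.continuous_toLp 2 _).comp ?_
  refine continuous_pi fun i => ?_
  fin_cases i
  · exact ha
  · exact hb
  · exact hc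

@[fun_prop] lemma continuous_coord (i : Fin 3) : Continuous fun p : S2 => p.1 i := by
  fun_prop

/-- the complex number formed by the first two coordinates -/
noncomputable def cx (p : S2) : ℂ := (p.1 0 : ℂ) + (p.1 1 : ℂ) * Complex.I

lemma continuous_cx : Continuous cx := by unfold cx; fun_prop

@[simp] lemma cx_re (p : S2) : (cx p).re = p.1 0 := by simp [cx]
@[simp] lemma cx_im (p : S2) : (cx p).im = p.1 1 := by simp [cx]

lemma norm_sq_eq (w : ℂ) : ‖w‖ ^ 2 = w.re ^ 2 + w.im ^ 2 := by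
  rw [← Complex.normSq_eq_norm_sq, Complex.normSq_apply]; ring

lemma norm_cx_sq (p : S2) : ‖cx p‖ ^ 2 = 1 - p.1 2 ^ 2 := by
  rw [norm_sq_eq, cx_re, cx_im]
  linarith [coord_sq p]

/-- the suspension of angle doubling -/
noncomputable def QQ (p : S2) : S2 :=
  mk3 (DD (cx p)).re (DD (cx p)).im (p.1 2) (by
    rw [← norm_sq_eq, norm_DD, norm_cx_sq]; ring)

lemma continuous_QQ : Continuous QQ := by
  unfold QQ
  refine continuous_mk3 ?_ ?_ ?_ _
  · exact Complex.continuous_re.comp (continuous_DD.comp continuous_cx)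
  · exact Complex.continuous_im.comp (continuous_DD.comp continuous_cx)
  · exact continuous_coord 2

@[simp] lemma QQ_2 (p : S2) : (QQ p).1 2 = p.1 2 := by simp [QQ]

lemma cx_QQ (p : S2) : cx (QQ p) = DD (cx p) := by
  apply Complex.ext <;> simp [QQ]

/-- rotation `(x,y,z) ↦ (z,y,-x)` -/
noncomputable def rot1 : S2 ≃ₜ S2 where
  toFun p := mk3 (p.1 2) (p.1 1) (-p.1 0) (by linarith [coord_sq p])
  invFun p := mk3 (-p.1 2) (p.1 1) (p.1 0) (by linarith [coord_sq p])
  left_inv p := by apply ext3 <;> simp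
  right_inv p := by apply ext3 <;> simp
  continuous_toFun := continuous_mk3 (by fun_prop) (by fun_prop) (by fun_prop)
    (fun p => by linarith [coord_sq p])
  continuous_invFun := continuous_mk3 (by fun_prop) (by fun_prop) (by fun_prop)
    (fun p => by linarith [coord_sq p])

/-- rotation `(x,y,z) ↦ (x,-z,y)` -/
noncomputable def rot2 : S2 ≃ₜ S2 where
  toFun p := mk3 (p.1 0) (-p.1 2) (p.1 1) (by linarith [coord_sq p])
  invFun p := mk3 (p.1 0) (p.1 2) (-p.1 1) (by linarith [coord_sq p])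
  left_inv p := by apply ext3 <;> simp
  right_inv p := by apply ext3 <;> simp
  continuous_toFun := continuous_mk3 (by fun_prop) (by fun_prop) (by fun_prop)
    (fun p => by linarith [coord_sq p])
  continuous_invFun := continuous_mk3 (by fun_prop) (by fun_prop) (by fun_prop)
    (fun p => by linarith [coord_sq p])

/-- rotation `(x,y,z) ↦ (x,-y,-z)` -/
noncomputable def tau : S2 ≃ₜ S2 where
  toFun p := mk3 (p.1 0) (-p.1 1) (-p.1 2) (by linarith [coord_sq p])
  invFun p := mk3 (p.1 0) (-p.1 1) (-p.1 2) (by linarith [coord_sq p])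
  left_inv p := by apply ext3 <;> simp
  right_inv p := by apply ext3 <;> simp
  continuous_toFun := continuous_mk3 (by fun_prop) (by fun_prop) (by fun_prop)
    (fun p => by linarith [coord_sq p])
  continuous_invFun := continuous_mk3 (by fun_prop) (by fun_prop) (by fun_prop)
    (fun p => by linarith [coord_sq p])

@[simp] lemma rot1_0 (p : S2) : (rot1 p).1 0 = p.1 2 := by simp [rot1]
@[simp] lemma rot1_1 (p : S2) : (rot1 p).1 1 = p.1 1 := by simp [rot1]
@[simp] lemma rot1_2 (p : S2) : (rot1 p).1 2 = -p.1 0 := by simp [rot1]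
@[simp] lemma rot2_0 (p : S2) : (rot2 p).1 0 = p.1 0 := by simp [rot2]
@[simp] lemma rot2_1 (p : S2) : (rot2 p).1 1 = -p.1 2 := by simp [rot2]
@[simp] lemma rot2_2 (p : S2) : (rot2 p).1 2 = p.1 1 := by simp [rot2]
@[simp] lemma rot2s_0 (p : S2) : (rot2.symm p).1 0 = p.1 0 := by simp [rot2]
@[simp] lemma rot2s_1 (p : S2) : (rot2.symm p).1 1 = p.1 2 := by simp [rot2]
@[simp] lemma rot2s_2 (p : S2) : (rot2.symm p).1 2 = -p.1 1 := by simp [rot2]
@[simp] lemma tau_0 (p : S2) : (tau p).1 0 = p.1 0 := by simp [tau]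
@[simp] lemma tau_1 (p : S2) : (tau p).1 1 = -p.1 1 := by simp [tau]
@[simp] lemma tau_2 (p : S2) : (tau p).1 2 = -p.1 2 := by simp [tau]

lemma DD_conj (w : ℂ) : DD ((starRingEnd ℂ) w) = (starRingEnd ℂ) (DD w) := by
  unfold DD
  rw [map_div₀, map_pow, RCLike.norm_conj, Complex.conj_ofReal]

lemma cx_tau (p : S2) : cx (tau p) = (starRingEnd ℂ) (cx p) := by
  apply Complex.ext <;> simp

lemma tau_QQ (p : S2) : QQ (tau p) = tau (QQ p) := by
  have h : cx (QQ (tau p)) = cx (tau (QQ p)) := by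
    rw [cx_QQ, cx_tau, cx_tau, cx_QQ, DD_conj]
  apply ext3
  · have := congrArg Complex.re h; simpa using this
  · have := congrArg Complex.im h; simpa using this
  · simp

/-- the map -/
noncomputable def ff (p : S2) : S2 := rot2 (QQ (rot1 (QQ p)))

lemma continuous_ff : Continuous ff :=
  rot2.continuous.comp (continuous_QQ.comp (rot1.continuous.comp continuous_QQ))

/-! ### stereographic projection -/

lemma stereoInv_0 (w : ℂ) : (stereoInv w).1 0 = 2 * w.re / (‖w‖ ^ 2 + 1) := by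
  simp [stereoInv, stereoVec]
lemma stereoInv_1 (w : ℂ) : (stereoInv w).1 1 = 2 * w.im / (‖w‖ ^ 2 + 1) := by
  simp [stereoInv, stereoVec]
lemma stereoInv_2 (w : ℂ) : (stereoInv w).1 2 = (‖w‖ ^ 2 - 1) / (‖w‖ ^ 2 + 1) := by
  simp [stereoInv, stereoVec]

lemma stereoInv_2_ne (w : ℂ) : (stereoInv w).1 2 ≠ 1 := by
  rw [stereoInv_2]
  have h : ‖w‖ ^ 2 + 1 ≠ 0 := by positivity
  rw [Ne, div_eq_one_iff_eq h]
  intro h1; linarith

lemma one_sub_stereoInv_2 (w : ℂ) : 1 - (stereoInv w).1 2 = 2 / (‖w‖ ^ 2 + 1) := by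
  rw [stereoInv_2]
  have h : ‖w‖ ^ 2 + 1 ≠ 0 := by positivity
  field_simp; ring

lemma cx_stereoInv (w : ℂ) : cx (stereoInv w) = (2 / (‖w‖ ^ 2 + 1) : ℝ) * w := by
  apply Complex.ext
  · rw [cx_re, stereoInv_0, Complex.re_ofReal_mul]; ring
  · rw [cx_im, stereoInv_1, Complex.im_ofReal_mul]; ring

/-- stereographic projection -/
noncomputable def stF (p : S2) : ℂ := cx p / ((1 - p.1 2 : ℝ) : ℂ)

lemma stF_stereoInv (w : ℂ) : stF (stereoInv w) = w := by
  unfold stF
  rw [one_sub_stereoInv_2, cx_stereoInv]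
  have h : ((2 / (‖w‖ ^ 2 + 1) : ℝ) : ℂ) ≠ 0 := by
    have : (0 : ℝ) < 2 / (‖w‖ ^ 2 + 1) := by positivity
    exact_mod_cast this.ne'
  field_simp

lemma eq_stereoInv {p : S2} {v : ℂ} (h : p.1 2 ≠ 1) (hc : cx p = v * ((1 - p.1 2 : ℝ) : ℂ)) :
    p = stereoInv v := by
  have h0 : 1 - p.1 2 ≠ 0 := fun h1 => h (by linarith)
  have hre : p.1 0 = v.re * (1 - p.1 2) := by
    have := congrArg Complex.re hc
    rwa [cx_re, Complex.re_mul_ofReal] at this
  have him : p.1 1 = v.im * (1 - p.1 2) := by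
    have := congrArg Complex.im hc
    rwa [cx_im, Complex.im_mul_ofReal] at this
  have hs := coord_sq p
  have hn : ‖v‖ ^ 2 * (1 - p.1 2) = 1 + p.1 2 := by
    have h1 : ‖v‖ ^ 2 * (1 - p.1 2) * (1 - p.1 2) = (1 + p.1 2) * (1 - p.1 2) := by
      rw [norm_sq_eq]
      rw [hre, him] at hs
      nlinarith
    exact mul_right_cancel₀ h0 h1
  have hn1 : (‖v‖ ^ 2 + 1) * (1 - p.1 2) = 2 := by linarith
  have hne : ‖v‖ ^ 2 + 1 ≠ 0 := by positivity
  apply ext3
  · rw [stereoInv_0, hre, eq_div_iff hne]; linear_combination v.re * hn1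
  · rw [stereoInv_1, him, eq_div_iff hne]; linear_combination v.im * hn1
  · rw [stereoInv_2, eq_div_iff hne]; linarith

lemma stereoInv_stF {p : S2} (h : p.1 2 ≠ 1) : stereoInv (stF p) = p := by
  refine (eq_stereoInv h ?_).symm
  have h0 : ((1 - p.1 2 : ℝ) : ℂ) ≠ 0 := by
    have : 1 - p.1 2 ≠ 0 := fun h1 => h (by linarith)
    exact Complex.ofReal_ne_zero.mpr this
  unfold stF
  field_simp

lemma continuous_stereoInv : Continuous stereoInv := by
  have h : ∀ w : ℂ, (2 * w.re / (‖w‖ ^ 2 + 1)) ^ 2 + (2 * w.im / (‖w‖ ^ 2 + 1)) ^ 2 +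
      ((‖w‖ ^ 2 - 1) / (‖w‖ ^ 2 + 1)) ^ 2 = 1 := by
    intro w
    have := coord_sq (stereoInv w)
    rwa [stereoInv_0, stereoInv_1, stereoInv_2] at this
  have h1 : stereoInv = fun w => mk3 _ _ _ (h w) := by
    funext w
    apply ext3
    · rw [stereoInv_0, mk3_0]
    · rw [stereoInv_1, mk3_1]
    · rw [stereoInv_2, mk3_2]
  rw [h1]
  have hne : ∀ w : ℂ, ‖w‖ ^ 2 + 1 ≠ 0 := fun w => by positivity
  refine continuous_mk3 ?_ ?_ ?_ _
  · exact Continuous.div (by fun_prop) (by fun_prop) hne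
  · exact Continuous.div (by fun_prop) (by fun_prop) hne
  · exact Continuous.div (by fun_prop) (by fun_prop) hne

lemma continuousAt_stF {p : S2} (h : p.1 2 ≠ 1) : ContinuousAt stF p := by
  unfold stF
  have h0 : ((1 - p.1 2 : ℝ) : ℂ) ≠ 0 := by
    have : 1 - p.1 2 ≠ 0 := fun h1 => h (by linarith)
    exact Complex.ofReal_ne_zero.mpr this
  exact ContinuousAt.div continuous_cx.continuousAt (by fun_prop) h0

/-- stereographic projection as a partial homeomorphism -/
noncomputable def st : OpenPartialHomeomorph S2 ℂ where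
  toFun := stF
  invFun := stereoInv
  source := {p | p.1 2 ≠ 1}
  target := univ
  map_source' _ _ := mem_univ _
  map_target' w _ := stereoInv_2_ne w
  left_inv' _ h := stereoInv_stF h
  right_inv' w _ := stF_stereoInv w
  open_source := isOpen_ne_fun (continuous_coord 2) continuous_const
  open_target := isOpen_univ
  continuousOn_toFun := fun _ h => (continuousAt_stF h).continuousWithinAt
  continuousOn_invFun := continuous_stereoInv.continuousOn

@[simp] lemma st_coe : (st : S2 → ℂ) = stF := rfl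
@[simp] lemma st_symm_coe : (st.symm : ℂ → S2) = stereoInv := rfl
@[simp] lemma st_source : st.source = {p | p.1 2 ≠ 1} := rfl
@[simp] lemma st_target : st.target = univ := rfl

lemma QQ_stereoInv (w : ℂ) : QQ (stereoInv w) = stereoInv (DD w) := by
  apply eq_stereoInv
  · rw [QQ_2]; exact stereoInv_2_ne w
  · rw [cx_QQ, QQ_2, one_sub_stereoInv_2, cx_stereoInv]
    unfold DD
    have h : (0 : ℝ) < 2 / (‖w‖ ^ 2 + 1) := by positivity
    rw [norm_mul, Complex.norm_real, Real.norm_eq_abs, abs_of_pos h]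
    push_cast
    rcases eq_or_ne w 0 with rfl | hw
    · simp
    · have h1 : (‖w‖ : ℂ) ≠ 0 := by exact_mod_cast (norm_pos_iff.mpr hw).ne'
      have h2 : (‖w‖ : ℂ) ^ 2 + 1 ≠ 0 := by
        have : ‖w‖ ^ 2 + 1 ≠ 0 := by positivity
        exact_mod_cast this
      field_simp

end Pool.Agent.H884R3
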