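import Pool.Agent.H884R3.Charts

set_option autoImplicit false

open Set Metric Filter Topology

namespace Pool.Agent.H884R3

lemma injOn_of_degree_one {f : S2 → S2} {x : S2} (h : HasLocalDegree f x 1) :
    ∃ U ∈ 𝓝 x, InjOn f U := by
  obtain ⟨-, φ, ψ, -, -, h1, -, -, -, h2⟩ := h
  refine ⟨φ.source, φ.open_source.mem_nhds h1, fun a ha b hb hab => ?_⟩
  apply φ.injOn ha hb
  have e1 := (h2 a ha).2
  have e2 := (h2 b hb).2
  rw [pow_one] at e1 e2
  rw [← e1, ← e2, hab]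

lemma not_injOn_of_degree {f : S2 → S2} {x : S2} {d : ℕ} (hd : 2 ≤ d)
    (h : HasLocalDegree f x d) : ∀ U ∈ 𝓝 x, ¬ InjOn f U := by
  intro U hU hinj
  obtain ⟨-, φ, ψ, -, -, h1, h0, -, -, h2⟩ := h
  have hd0 : d ≠ 0 := by omega
  -- primitive root
  have hω := Complex.isPrimitiveRoot_exp d hd0
  set ω := Complex.exp (2 * Real.pi * Complex.I / d) with hωd
  have hω1 : ω ≠ 1 := hω.ne_one (by omega)
  have hωp : ω ^ d = 1 := hω.pow_eq_one
  -- neighbourhood in the target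
  have ht : ∀ᶠ ζ in 𝓝 (0 : ℂ), ζ ∈ φ.target ∧ φ.symm ζ ∈ U := by
    have ht0 : (0 : ℂ) ∈ φ.target := by rw [← h0]; exact φ.map_source h1
    have hs0 : φ.symm 0 = x := by rw [← h0]; exact φ.left_inv h1
    have hc : ContinuousAt φ.symm 0 := φ.continuousAt_symm ht0
    have hU' : ∀ᶠ ζ in 𝓝 (0 : ℂ), φ.symm ζ ∈ U := by
      apply hc.eventually
      rw [hs0]; exact hU
    have hA : ∀ᶠ ζ in 𝓝 (0 : ℂ), ζ ∈ φ.target := φ.open_target.mem_nhds ht0
    exact hA.and hU'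
  have ht2 : ∀ᶠ ζ in 𝓝 (0 : ℂ), ω * ζ ∈ φ.target ∧ φ.symm (ω * ζ) ∈ U := by
    have hc : Tendsto (fun ζ : ℂ => ω * ζ) (𝓝 0) (𝓝 0) := by
      have h : Continuous fun ζ : ℂ => ω * ζ := by fun_prop
      simpa using h.tendsto 0
    exact hc.eventually ht
  obtain ⟨δ, hδ, hball⟩ := Metric.eventually_nhds_iff.mp (ht.and ht2)
  have hmem : dist ((δ / 2 : ℝ) : ℂ) 0 < δ := by
    rw [dist_zero_right, Complex.norm_real, Real.norm_eq_abs, abs_of_pos (by linarith)]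
    linarith
  obtain ⟨⟨t1, u1⟩, t2, u2⟩ := hball hmem
  set ζ : ℂ := ((δ / 2 : ℝ) : ℂ) with hζ
  have hζ0 : ζ ≠ 0 := by
    rw [hζ]; exact Complex.ofReal_ne_zero.mpr (by linarith)
  have hne : ω * ζ ≠ ζ := by
    intro h
    apply hω1
    have : (ω - 1) * ζ = 0 := by linear_combination h
    rcases mul_eq_zero.mp this with h | h
    · linear_combination h
    · exact absurd h hζ0
  have s1 := φ.map_target t1
  have s2 := φ.map_target t2
  obtain ⟨a1, a2⟩ := h2 _ s1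
  obtain ⟨b1, b2⟩ := h2 _ s2
  rw [φ.right_inv t1] at a2
  rw [φ.right_inv t2, mul_pow, hωp, one_mul] at b2
  have hfe : f (φ.symm ζ) = f (φ.symm (ω * ζ)) := ψ.injOn a1 b1 (by rw [a2, b2])
  have hse := hinj u1 u2 hfe
  apply hne
  have h3 := congrArg φ hse
  rw [φ.right_inv t1, φ.right_inv t2] at h3
  exact h3.symm

lemma z_of_cx_zero {x : S2} (h : cx x = 0) : x.1 0 = 0 ∧ x.1 1 = 0 ∧ (x.1 2 = 1 ∨ x.1 2 = -1) := by
  have h0 : x.1 0 = 0 := by rw [← cx_re, h]; rfl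
  have h1 : x.1 1 = 0 := by rw [← cx_im, h]; rfl
  refine ⟨h0, h1, ?_⟩
  have := coord_sq x
  rw [h0, h1] at this
  have h2 : (x.1 2 - 1) * (x.1 2 + 1) = 0 := by linarith
  rcases mul_eq_zero.mp h2 with h | h
  · left; linarith
  · right; linarith

lemma QQ_pole {x : S2} (h : cx x = 0) : QQ x = x := by
  have e : cx (QQ x) = cx x := by rw [cx_QQ, h, DD_zero]
  apply ext3
  · rw [← cx_re, e, cx_re]
  · rw [← cx_im, e, cx_im]
  · exact QQ_2 x

lemma exists_good {y : S2} (h : y.1 2 = 1 ∨ y.1 2 = -1) : ∃ B : S2 ≃ₜ S2, Good B ∧ (B y).1 2 = -1 := by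
  rcases h with h | h
  · exact ⟨tau, good_tau, by rw [tau_2, h]⟩
  · exact ⟨Homeomorph.refl S2, good_refl, h⟩

lemma degree_regular {x : S2} (h1 : cx x ≠ 0) (h2 : cx (rot1 (QQ x)) ≠ 0) :
    HasLocalDegree ff x 1 := by
  by_cases h3 : (ff x).1 2 = 1
  · exact local_one good_tau h1 h2 (by rw [tau_2, h3]; norm_num)
  · exact local_one good_refl h1 h2 h3

lemma degree_eq {x : S2} (h1 : cx x ≠ 0) (h2 : cx (rot1 (QQ x)) = 0) :
    HasLocalDegree ff x 2 := by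
  obtain ⟨B, hB, hBz⟩ := exists_good (z_of_cx_zero h2).2.2
  exact local_two_eq hB h1 hBz

lemma degree_pole {x : S2} (h1 : cx x = 0) : HasLocalDegree ff x 2 := by
  obtain ⟨B, hB, hBz⟩ := exists_good (z_of_cx_zero h1).2.2
  refine local_two_pole hB hBz (QQ_pole h1) ?_
  intro h
  have h2 := congrArg Complex.re h
  rw [cx_re, rot1_0] at h2
  rcases (z_of_cx_zero h1).2.2 with h3 | h3
  · rw [h3] at h2; norm_num at h2
  · rw [h3] at h2; norm_num at h2

lemma isBranchedCovering_ff : IsBranchedCovering ff := by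
  refine ⟨continuous_ff, fun p => ?_⟩
  by_cases h1 : cx p = 0
  · exact ⟨2, degree_pole h1⟩
  · by_cases h2 : cx (rot1 (QQ p)) = 0
    · exact ⟨2, degree_eq h1 h2⟩
    · exact ⟨1, degree_regular h1 h2⟩

noncomputable def pX : S2 := mk3 1 0 0 (by norm_num)
noncomputable def pY : S2 := mk3 0 1 0 (by norm_num)
noncomputable def mY : S2 := mk3 0 (-1) 0 (by norm_num)

lemma DD_of_norm_one {w : ℂ} (h : ‖w‖ = 1) : DD w = w ^ 2 := by
  unfold DD; rw [h]; simp

lemma ff_of_cx {x : S2} (w : ℂ) (hw : DD (cx x) = w) (W : ℂ)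
    (hW : DD ((x.1 2 : ℂ) + (w.im : ℂ) * Complex.I) = W) :
    (ff x).1 0 = W.re ∧ (ff x).1 1 = w.re ∧ (ff x).1 2 = W.im := by
  have e1 : cx (rot1 (QQ x)) = (x.1 2 : ℂ) + (w.im : ℂ) * Complex.I := by
    have h1 : (QQ x).1 1 = w.im := by rw [← cx_im, cx_QQ, hw]
    unfold cx
    rw [rot1_0, rot1_1, QQ_2, h1]
  have e2 : cx (QQ (rot1 (QQ x))) = W := by rw [cx_QQ, e1, hW]
  have e3 : (QQ x).1 0 = w.re := by rw [← cx_re, cx_QQ, hw]
  unfold ff
  refine ⟨?_, ?_, ?_⟩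
  · rw [rot2_0, ← cx_re, e2]
  · rw [rot2_1, QQ_2, rot1_2, e3]; ring
  · rw [rot2_2, ← cx_im, e2]

lemma ff_pX : ff pX = pY := by
  have h1 : cx pX = 1 := by simp [cx, pX]
  have h2 := ff_of_cx (x := pX) 1 (by rw [h1, DD_of_norm_one (by simp)]; simp) 0
    (by simp [pX, DD_zero])
  apply ext3
  · rw [h2.1]; simp [pY]
  · rw [h2.2.1]; simp [pY]
  · rw [h2.2.2]; simp [pY]

lemma ff_pY : ff pY = mY := by
  have h1 : cx pY = Complex.I := by simp [cx, pY]
  have h2 := ff_of_cx (x := pY) (-1) (by rw [h1, DD_of_norm_one (by simp)]; simp) 0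
    (by simp [pY, DD_zero])
  apply ext3
  · rw [h2.1]; simp [mY]
  · rw [h2.2.1]; simp [mY]
  · rw [h2.2.2]; simp [mY]

lemma ff_mY : ff mY = mY := by
  have h1 : cx mY = -Complex.I := by simp [cx, mY]
  have h2 := ff_of_cx (x := mY) (-1) (by rw [h1, DD_of_norm_one (by simp)]; simp) 0
    (by simp [mY, DD_zero])
  apply ext3
  · rw [h2.1]; simp [mY]
  · rw [h2.2.1]; simp [mY]
  · rw [h2.2.2]; simp [mY]

lemma ff_pole {x : S2} (h : cx x = 0) : ff x = pX := by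
  have hz := (z_of_cx_zero h).2.2
  have hW : DD ((x.1 2 : ℂ) + ((0 : ℂ).im : ℂ) * Complex.I) = 1 := by
    rcases hz with h1 | h1
    · rw [h1, DD_of_norm_one (by simp)]; simp
    · rw [h1, DD_of_norm_one (by simp)]; simp
  have h2 := ff_of_cx (x := x) 0 (by rw [h, DD_zero]) 1 hW
  apply ext3
  · rw [h2.1]; simp [pX]
  · rw [h2.2.1]; simp [pX]
  · rw [h2.2.2]; simp [pX]

lemma ff_eq {x : S2} (h : cx (rot1 (QQ x)) = 0) : ff x = pY ∨ ff x = mY := by
  have hz := z_of_cx_zero h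
  have e : ff x = rot2 (rot1 (QQ x)) := by unfold ff; rw [QQ_pole h]
  rcases hz with ⟨h0, h1, h2 | h2⟩
  · right
    rw [e]
    apply ext3
    · rw [rot2_0, h0]; simp [mY]
    · rw [rot2_1, h2]; simp [mY]
    · rw [rot2_2, h1]; simp [mY]
  · left
    rw [e]
    apply ext3
    · rw [rot2_0, h0]; simp [pY]
    · rw [rot2_1, h2]; simp [pY]
    · rw [rot2_2, h1]; simp [pY]

lemma crit_ff {x : S2} (hx : x ∈ crit ff) : ff x ∈ ({pX, pY, mY} : Set S2) := by
  obtain ⟨d, hd, h⟩ := hx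
  by_cases h1 : cx x = 0
  · left; exact ff_pole h1
  · by_cases h2 : cx (rot1 (QQ x)) = 0
    · right; exact ff_eq h2
    · exfalso
      obtain ⟨U, hU, hinj⟩ := injOn_of_degree_one (degree_regular h1 h2)
      exact not_injOn_of_degree hd h U hU hinj

lemma post_ff : post ff ⊆ ({pX, pY, mY} : Set S2) := by
  rintro q ⟨n, hn, c, hc, rfl⟩
  obtain ⟨m, rfl⟩ : ∃ m, n = m + 1 := ⟨n - 1, by omega⟩
  clear hn
  rw [Function.iterate_succ_apply]
  induction m with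
  | zero => exact crit_ff hc
  | succ m ih =>
    rw [Function.iterate_succ_apply']
    rcases ih with h | h | h
    · rw [h, ff_pX]; simp
    · rw [h, ff_pY]; simp
    · rw [h, ff_mY]; simp

lemma pY_ne_mY : pY ≠ mY := by
  intro h
  have := congrArg (fun p : S2 => p.1 1) h
  simp [pY, mY] at this
  norm_num at this

lemma isThurston_ff : IsThurston ff := by
  refine ⟨isBranchedCovering_ff, ⟨pY, mY, pY_ne_mY, by rw [ff_pY, ff_mY]⟩, ?_⟩
  exact (Set.toFinite ({pX, pY, mY} : Set S2)).subset post_ff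

end Pool.Agent.H884R3
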